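import Pool.Agent.Lib.MP_a0a715_lc_IN.Defs

/-!
# Circuits in which the influences are local
-/

namespace Pool.Agent.MPa0a715

open Pool.Agent.PolyTime

/-- Every input bit influences only output bits in a window of `β` consecutive positions. -/
def Circuit.Window (β : ℕ) (C : Circuit) : Prop :=
  ∀ i < C.n, ∃ a, ∀ j < C.outs.length, C.Influences i j → a ≤ j ∧ j < a + β

/-- Every output bit is influenced by at most `a` input bits. -/
def Circuit.Arity (a : ℕ) (C : Circuit) : Prop :=
  ∀ j < C.outs.length, ∃ S : Finset ℕ, S.card ≤ a ∧ ∀ i < C.n, C.Influences i j → i ∈ S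

/-- There is a path in the circuit from the input `i` to the wire `w`. -/
inductive Circuit.Reads (C : Circuit) : ℕ → ℕ → Prop
  | input {i : ℕ} (hi : i < C.n) : C.Reads i i
  | gate {q r i : ℕ} (hq : q < C.gates.length) (hr : r ∈ C.gates[q].refs) (h : C.Reads r i) :
      C.Reads (C.n + q) i

/-- For every input bit, the output bits reached from it by paths in the circuit lie in a window
of `β` consecutive positions. -/
def Circuit.SynWindow (β : ℕ) (C : Circuit) : Prop :=
  ∀ i < C.n, ∃ a, ∀ j < C.outs.length, C.Reads (C.outs.getD j 0) i → a ≤ j ∧ j < a + β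

end Pool.Agent.MPa0a715
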