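import Pool.Agent.Lib.MP_a0a715_lc_BW.HardPT
import Pool.Agent.Lib.MP_a0a715_lc_OD.EPT

/-!
# Outputs of small arity
-/

namespace Pool.Agent.MPa0a715.BW

open Pool.Agent.MPa0a715 Pool.Agent.PolyTime
open Pool.Agent.MPa0a715.IN (cost_lt_iff)
open Pool.Agent.MPa0a715.OD (BFun Arg chg)

/-! ### an output depends only on the inputs influencing it -/

theorem outBit_congr {C : Circuit} {j : ℕ} {x y : List Bool} (hx : x.length = C.n)
    (hy : y.length = C.n)
    (h : ∀ i < C.n, C.Influences i j → x.getD i false = y.getD i false) :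
    C.outBit x j = C.outBit y j := by
  let z : ℕ → List Bool := fun l => (List.range C.n).map fun i =>
    if i < l then y.getD i false else x.getD i false
  have hz : ∀ l, (z l).length = C.n := fun l => by simp [z]
  have hzg : ∀ l i, i < C.n → (z l).getD i false =
      if i < l then y.getD i false else x.getD i false := by
    intro l i hi
    rw [List.getD_eq_getElem _ _ (by rw [hz]; exact hi), List.getElem_map, List.getElem_range]
  have key : ∀ l ≤ C.n, C.outBit x j = C.outBit (z l) j := by
    intro l
    induction l with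
    | zero =>
      intro _
      congr 1
      refine ext_getD (by rw [hz, hx]) fun i hi => ?_
      rw [hx] at hi
      rw [hzg _ _ hi, if_neg (Nat.not_lt_zero _)]
    | succ l ih =>
      intro hl
      rw [ih (by omega)]
      by_cases hd : x.getD l false = y.getD l false
      · congr 1
        refine ext_getD (by rw [hz, hz]) fun i hi => ?_
        rw [hz] at hi
        rw [hzg _ _ hi, hzg _ _ hi]
        rcases Nat.lt_trichotomy i l with h1 | h1 | h1
        · rw [if_pos h1, if_pos (by omega)]
        · rw [if_neg (by omega), if_pos (by omega), h1, hd]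
        · rw [if_neg (by omega), if_neg (by omega)]
      · have hfl : z (l + 1) = flip (z l) l := by
          refine ext_getD (by rw [length_flip, hz, hz]) fun i hi => ?_
          rw [hz] at hi
          rw [getD_flip _ _ _ (by rw [hz]; exact hi), hzg _ _ hi, hzg _ _ hi]
          rcases Nat.lt_trichotomy i l with h1 | h1 | h1
          · rw [if_pos (by omega), if_neg (by omega), if_pos h1]
          · rw [if_pos (by omega), if_pos h1.symm, if_neg (by omega), h1]
            revert hd
            cases x.getD l false <;> cases y.getD l false <;> simp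
          · rw [if_neg (by omega), if_neg (by omega), if_neg (by omega)]
        by_contra hne
        refine hd (h l (by omega) ⟨z l, hz l, fun h1 => hne ?_⟩)
        rw [hfl, h1]
  rw [key C.n le_rfl]
  congr 1
  refine ext_getD (by rw [hz, hy]) fun i hi => ?_
  rw [hz] at hi
  rw [hzg _ _ hi, if_pos hi]

/-! ### arity two is easy -/

/-- all functions of two arguments -/
noncomputable def Phi2 : List BFun :=
  (Finset.univ : Finset ((Fin 2 → Bool) → Bool)).toList.map fun f => ⟨2, f⟩

theorem mem_Phi2 (f : (Fin 2 → Bool) → Bool) : (⟨2, f⟩ : BFun) ∈ Phi2 :=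
  List.mem_map.2 ⟨f, Finset.mem_toList.2 (Finset.mem_univ _), rfl⟩

theorem not_pattern_two (f : (Fin 2 → Bool) → Bool) : ¬ (⟨2, f⟩ : BFun).Pattern := by
  rintro ⟨a, U, V, W, hUV, hUW, hVW, h0, hU, hV, hW, _, _⟩
  dsimp only at a U V W hUV hUW hVW h0 hU hV hW
  have hne : ∀ S : Finset (Fin 2), f (chg a S) = false → 1 ≤ S.card := by
    intro S hS
    rw [Nat.one_le_iff_ne_zero, Ne, Finset.card_eq_zero]
    rintro rfl
    have h1 : chg a (∅ : Finset (Fin 2)) = a := by
      funext j
      simp [chg]
    rw [h1, h0] at hS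
    exact absurd hS.symm Bool.false_ne_true
  have h1 : (U ∪ V ∪ W).card = U.card + V.card + W.card := by
    rw [Finset.card_union_of_disjoint (Finset.disjoint_union_left.2 ⟨hUW, hVW⟩),
      Finset.card_union_of_disjoint hUV]
  have h2 : (U ∪ V ∪ W).card ≤ 2 := (Finset.card_le_univ _).trans (by simp)
  have := hne U hU
  have := hne V hV
  have := hne W hW
  omega

theorem arity_outsIn {C : Circuit} (h : C.Arity 2) : C.OutsIn Phi2 := by
  classical
  intro o ho
  obtain ⟨j, hj, rfl⟩ := List.getElem_of_mem ho
  obtain ⟨S, hS, hS2⟩ := h j hj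
  obtain ⟨p, q, hpq⟩ : ∃ p q : ℕ, ∀ i ∈ S, i = p ∨ i = q := by
    rcases Nat.lt_or_ge S.card 1 with h1 | h1
    · refine ⟨0, 0, fun i hi => ?_⟩
      have := Finset.card_pos.2 ⟨i, hi⟩
      omega
    rcases Nat.lt_or_ge S.card 2 with h2 | h2
    · obtain ⟨p, hp⟩ := Finset.card_eq_one.1 (show S.card = 1 by omega)
      refine ⟨p, p, fun i hi => ?_⟩
      rw [hp, Finset.mem_singleton] at hi
      exact Or.inl hi
    · obtain ⟨p, q, _, hp⟩ := Finset.card_eq_two.1 (show S.card = 2 by omega)
      refine ⟨p, q, fun i hi => ?_⟩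
      rw [hp, Finset.mem_insert, Finset.mem_singleton] at hi
      exact hi
  let g : (Fin 2 → Bool) → Bool := fun b => C.outBit ((List.range C.n).map fun i =>
    if i = p then b 0 else if i = q then b 1 else false) j
  let A : ℕ → Arg := fun r => if r < C.n then .lit r true else .const false
  have hA : ∀ r, (A r).Ok C.n := by
    intro r
    by_cases hr : r < C.n
    · simp only [A, if_pos hr]
      exact hr
    · simp only [A, if_neg hr]
      trivial
  have hAv : ∀ r < C.n, ∀ x : List Bool, (A r).val x = x.getD r false := by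
    intro r hr x
    simp only [A, if_pos hr, Arg.val]
    cases x.getD r false <;> rfl
  refine ⟨⟨2, g⟩, mem_Phi2 g, fun k => if k = 0 then A p else A q, fun k => ?_, fun x hx => ?_⟩
  · dsimp only
    split_ifs
    · exact hA p
    · exact hA q
  · have e : (C.wires x).getD C.outs[j] false = C.outBit x j := by
      unfold Circuit.outBit
      rw [List.getD_eq_getElem _ _ hj]
    rw [e]
    refine outBit_congr hx (by simp) fun i hi hinf => ?_
    have e2 : ∀ f : ℕ → Bool, ((List.range C.n).map f).getD i false = f i := by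
      intro f
      rw [List.getD_eq_getElem _ _ (by simpa using hi), List.getElem_map, List.getElem_range]
    rw [e2]
    by_cases hip : i = p
    · rw [if_pos hip]
      subst hip
      exact (hAv i hi x).symm
    · rw [if_neg hip]
      rcases hpq i (hS2 i hi hinf) with h1 | h1
      · exact absurd h1 hip
      · rw [if_pos h1]
        subst h1
        exact (hAv i hi x).symm

/-- outputs of arity two: there is a polynomial-time solver -/
theorem easy_two : HasSolver (Circuit.Arity 2) := by
  refine OD.solver_mono (fun C h => arity_outsIn h) (OD.easySide fun φ hφ => ?_)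
  unfold Phi2 at hφ
  rw [List.mem_map] at hφ
  obtain ⟨f, _, rfl⟩ := hφ
  exact not_pattern_two f

/-! ### arity three is hard -/

/-- conjunction of three arguments -/
def and3 : BFun := ⟨3, fun b => b 0 && b 1 && b 2⟩

theorem and3_pattern : and3.Pattern := by
  refine ⟨fun _ => true, ({0} : Finset (Fin 3)), ({1} : Finset (Fin 3)), ({2} : Finset (Fin 3)),
    ?_, ?_, ?_, ?_, ?_, ?_, ?_, ?_, ?_⟩
  · exact (by decide : Disjoint ({0} : Finset (Fin 3)) {1})
  · exact (by decide : Disjoint ({0} : Finset (Fin 3)) {2})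
  · exact (by decide : Disjoint ({1} : Finset (Fin 3)) {2})
  all_goals rfl

theorem arity_of_outsIn {C : Circuit} (h : C.OutsIn [and3]) : C.Arity 3 := by
  classical
  intro j hj
  obtain ⟨φ, hφ, σ, hσ, hval⟩ := h _ (List.getElem_mem hj)
  rw [List.mem_singleton] at hφ
  subst hφ
  have hout : ∀ x : List Bool, x.length = C.n →
      C.outBit x j = and3.f fun k => (σ k).val x := by
    intro x hx
    rw [← hval x hx]
    unfold Circuit.outBit
    rw [List.getD_eq_getElem _ _ hj]
  refine ⟨(Finset.univ : Finset (Fin 3)).biUnion fun k => match σ k with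
    | .const _ => ∅
    | .lit i _ => {i}, ?_, fun i hi hinf => ?_⟩
  · refine (Finset.card_biUnion_le_card_mul _ _ 1 fun k _ => ?_).trans (by simp)
    cases σ k <;> simp
  · by_contra hcon
    obtain ⟨x, hx, hne⟩ := hinf
    apply hne
    rw [hout _ (by rw [length_flip, hx]), hout _ hx]
    congr 1
    funext k
    cases hk : σ k with
    | const b => rfl
    | lit i' b =>
      have hii : i ≠ i' := by
        intro h1
        apply hcon
        rw [Finset.mem_biUnion]
        refine ⟨k, Finset.mem_univ _, ?_⟩
        rw [hk, h1]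
        exact Finset.mem_singleton_self _
      unfold Arg.val
      dsimp only
      rw [getD_flip_ne hii]

theorem mono {K L : Circuit → Prop} (h : ∀ C, K C → L C) (hr : PLSReduces (fun _ => True) K) :
    PLSReduces (fun _ => True) L := by
  obtain ⟨g, r, hg, hr, hgr⟩ := hr
  refine ⟨g, r, hg, hr, fun C hC hK => ?_⟩
  obtain ⟨h1, h2, h3⟩ := hgr C hC hK
  exact ⟨h1, h _ h2, h3⟩

theorem hard_three : PLSReduces (fun _ => True) (Circuit.Arity 3) :=
  mono (fun _ h => arity_of_outsIn h) (OD.hard (List.mem_singleton.2 rfl) and3_pattern)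

/-! ### adding inputs -/

/-- add inputs -/
def padc (N : ℕ) (C : Circuit) : Circuit :=
  jux N C.n C.n C.outs.length C.gates.length 1 fun _ => C

section
variable {C : Circuit} {N : ℕ}

theorem padFam (hC : C.Valid) (hn : 0 < C.n) (hN : C.n ≤ N) :
    Fam N C.n C.n C.outs.length C.gates.length 1 fun _ => C where
  pos := hn
  valid _ _ := hC
  n _ _ := rfl
  outs _ _ := rfl
  gates _ _ := le_rfl
  le b hb := by
    have : b = 0 := by omega
    rw [this, Nat.zero_mul]
    omega

theorem padc_valid (hC : C.Valid) (hn : 0 < C.n) (hN : C.n ≤ N) : (padc N C).Valid :=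
  jux_valid (padFam hC hn hN)

theorem padc_outs_length : (padc N C).outs.length = C.outs.length := by
  unfold padc
  rw [jux_outs_length, Nat.one_mul]

theorem padc_outBit (hC : C.Valid) (hn : 0 < C.n) (hN : C.n ≤ N) {x : List Bool}
    (hx : x.length = N) {j : ℕ} (hj : j < C.outs.length) :
    (padc N C).outBit x j = C.outBit (seg C.n C.n 0 x) j := by
  have h := jux_outBit (padFam hC hn hN) hx Nat.one_pos hj
  rw [Nat.zero_mul, Nat.zero_add] at h
  exact h

theorem seg_flip {k : ℕ} {x : List Bool} (hx : k ≤ x.length) (i : ℕ) :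
    seg k k 0 (flip x i) = if i < k then flip (seg k k 0 x) i else seg k k 0 x := by
  split_ifs with h
  · refine ext_getD (by rw [length_flip, length_seg, length_seg]) fun q hq => ?_
    rw [length_seg] at hq
    rw [seg_getD _ hq, getD_flip (seg k k 0 x) i q (by rw [length_seg]; exact hq),
      seg_getD _ hq, Nat.zero_mul, Nat.zero_add, getD_flip _ _ _ (by omega)]
  · refine ext_getD (by rw [length_seg, length_seg]) fun q hq => ?_
    rw [length_seg] at hq
    rw [seg_getD _ hq, seg_getD _ hq, Nat.zero_mul, Nat.zero_add, getD_flip_ne (by omega)]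

theorem padc_influences (hC : C.Valid) (hn : 0 < C.n) (hN : C.n ≤ N) {i j : ℕ}
    (hj : j < C.outs.length) (h : (padc N C).Influences i j) : i < C.n ∧ C.Influences i j := by
  obtain ⟨x, hx, hne⟩ := h
  change x.length = N at hx
  rw [padc_outBit hC hn hN (by rw [length_flip, hx]) hj, padc_outBit hC hn hN hx hj,
    seg_flip (by omega)] at hne
  split_ifs at hne with h1
  · exact ⟨h1, _, length_seg _ _ _ _, hne⟩
  · exact absurd rfl hne

theorem padc_cost (hC : C.Valid) (hn : 0 < C.n) (hN : C.n ≤ N) {x : List Bool}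
    (hx : x.length = N) : (padc N C).cost x = C.cost (seg C.n C.n 0 x) := by
  change ∑ j ∈ Finset.range (padc N C).outs.length,
    (if (padc N C).outBit x j = true then 2 ^ (j + 1) else 0) =
    ∑ j ∈ Finset.range C.outs.length,
      if C.outBit (seg C.n C.n 0 x) j = true then 2 ^ (j + 1) else 0
  rw [padc_outs_length]
  refine Finset.sum_congr rfl fun j hj => ?_
  rw [padc_outBit hC hn hN hx (Finset.mem_range.1 hj)]

theorem padc_min (hC : C.Valid) (hn : 0 < C.n) (hN : C.n ≤ N) {y : List Bool}
    (h : (padc N C).IsLocalMin y) : C.IsLocalMin (y.take C.n) := by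
  obtain ⟨hy, hmin⟩ := h
  change y.length = N at hy
  have e : y.take C.n = seg C.n C.n 0 y := by
    refine ext_getD (by rw [length_seg, List.length_take, hy, min_eq_left hN]) fun q hq => ?_
    rw [List.length_take, lt_min_iff] at hq
    rw [seg_getD _ hq.1, Nat.zero_mul, Nat.zero_add, List.getD_eq_getElem _ _ (by
      rw [List.length_take, lt_min_iff]; exact hq), List.getD_eq_getElem _ _ hq.2,
      List.getElem_take]
  rw [e]
  refine ⟨length_seg _ _ _ _, fun i hi => ?_⟩
  have h1 := hmin i (show i < N by omega)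
  rw [padc_cost hC hn hN hy, padc_cost hC hn hN (by rw [length_flip, hy]),
    seg_flip (by omega), if_pos hi] at h1
  exact h1

theorem padc_arity (hC : C.Valid) (hn : 0 < C.n) (hN : C.n ≤ N) {a : ℕ} (h : C.Arity a) :
    (padc N C).Arity a := by
  intro j hj
  rw [padc_outs_length] at hj
  obtain ⟨S, h1, h2⟩ := h j hj
  refine ⟨S, h1, fun i _ hi => ?_⟩
  obtain ⟨h3, h4⟩ := padc_influences hC hn hN hj hi
  exact h2 i h3 h4

theorem padc_influence (hC : C.Valid) (hn : 0 < C.n) (hN : C.n ≤ N) {q : ℕ}
    (h : C.Influence q) : (padc N C).Influence q := by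
  intro i _
  by_cases hi : i < C.n
  · obtain ⟨S, h1, h2⟩ := h i hi
    refine ⟨S, h1, fun j hj hij => ?_⟩
    rw [padc_outs_length] at hj
    exact h2 j hj (padc_influences hC hn hN hj hij).2
  · refine ⟨∅, by simp, fun j hj hij => ?_⟩
    rw [padc_outs_length] at hj
    exact absurd (padc_influences hC hn hN hj hij).1 hi

theorem outs_of_n_zero (hC : C.Valid) (h : C.n = 0) : C.outs.length = 0 := by
  have hg : C.gates.length = 0 := by
    by_contra hne
    have h0 : 0 < C.gates.length := by omega
    have h1 := hC.1 0 h0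
    generalize C.gates[0] = g at h1
    cases g with
    | and u v =>
      have := h1 u (by simp [Gate.refs])
      omega
    | or u v =>
      have := h1 u (by simp [Gate.refs])
      omega
    | not u =>
      have := h1 u (by simp [Gate.refs])
      omega
  by_contra hne
  obtain ⟨o, ho⟩ := List.exists_mem_of_length_pos (show 0 < C.outs.length by omega)
  have := hC.2 o ho
  omega

end

/-- padding a hard class of circuits -/
theorem pad_red (κ : ℕ) (hκ : 0 < κ) {K : Circuit → Prop}
    (hK : ∀ (C : Circuit) (N : ℕ), C.Valid → 0 < C.n → C.n ≤ N → K C → K (padc N C))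
    (h : PLSReduces (fun _ => True) K) :
    PLSReduces (fun _ => True) fun C => K C ∧ C.outs.length ^ κ ≤ C.n := by
  obtain ⟨g, r, hg, hr, hgr⟩ := h
  have hg' := isPolyTime_iff.1 hg
  have hr' := isPolyTime_iff.1 hr
  have hn : PU (fun C : Circuit => (g C).n) := pu_n hg'
  have hm : PU (fun C : Circuit => (g C).outs.length) := PU.ofLength (ptime_outs hg')
  have hΓ : PU (fun C : Circuit => (g C).gates.length) := PU.ofLength (ptime_gates hg')
  refine ⟨fun C => if (g C).n = 0 then g C else
    padc ((g C).n + (g C).outs.length ^ κ) (g C), fun p => r (p.1, p.2.take (g p.1).n),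
    ?_, ?_, fun C hC hK' => ?_⟩
  · refine (PTime.iteP (PTime.eq hn.toNat (PTime.const 0)) hg' ?_).isPolyTime
    exact ptime_jux (G := fun (C : Circuit) (_ : ℕ) => g C) (hn.add (pu_pow hm κ)) hn.toNat
      hn.toNat hm hΓ (PU.const 1) (hg'.comp PTime.fst)
  · have h1 : PTime (fun p : Circuit × List Bool => p.2.take (g p.1).n) :=
      PTime.take PTime.snd (hn.toNat.comp PTime.fst)
    exact (hr'.comp (PTime.fst.pair h1)).isPolyTime
  · obtain ⟨h1, h2, h3⟩ := hgr C hC hK'
    dsimp only
    split_ifs with h0
    · refine ⟨h1, ⟨h2, ?_⟩, fun y hy => ?_⟩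
      · rw [outs_of_n_zero h1 h0, Nat.zero_pow hκ]
        exact Nat.zero_le _
      · have hy' : y.length = 0 := hy.1.trans h0
        have e : y.take (g C).n = y := by
          rw [List.length_eq_zero_iff] at hy'
          rw [hy', List.take_nil]
        rw [e]
        exact h3 y hy
    · have hn0 : 0 < (g C).n := by omega
      have hN : (g C).n ≤ (g C).n + (g C).outs.length ^ κ := Nat.le_add_right _ _
      refine ⟨padc_valid h1 hn0 hN, ⟨hK _ _ h1 hn0 hN h2, ?_⟩, fun y hy => ?_⟩
      · rw [padc_outs_length]
        exact Nat.le_add_left _ _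
      · exact h3 _ (padc_min h1 hn0 hN hy)

/-- Unrestricted Circuit-FLIP reduces to Circuit-FLIP with outputs of arity three and windows of
size `n ^ ε`. -/
theorem hard_three_window (κ : ℕ) (hκ : 0 < κ) :
    PLSReduces (fun _ => True) fun C => ∃ β : ℕ, β ^ κ ≤ C.n ∧ C.Arity 3 ∧ C.Window β := by
  refine mono (fun C h => ?_) (pad_red κ hκ (fun C N hC hn hN h => padc_arity hC hn hN h)
    hard_three)
  exact ⟨C.outs.length, h.2, h.1, fun i _ => ⟨0, fun j hj _ => ⟨Nat.zero_le _, by omega⟩⟩⟩

/-! ### arity in the reduction to logarithmic windows -/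

theorem red_arity {G : Circuit × ℕ → Circuit} (hG : GOK G) (κ : ℕ) (C : Circuit) :
    (red G κ C).Arity (8 * (C.n + 2)) := by
  intro j hj
  refine ⟨Finset.Ico (j / LL C * (2 * C.n + 1)) (j / LL C * (2 * C.n + 1) + 2 * (2 * C.n + 1)),
    by rw [Nat.card_Ico]; omega, fun i hi hinf => ?_⟩
  obtain ⟨x, hx, hne⟩ := hinf
  have hv := red_valid hG κ C
  have hj' : (red G κ C).outs.getD j 0 < (red G κ C).n + (red G κ C).gates.length := by
    rw [List.getD_eq_getElem _ _ hj]
    exact (hv.2 _ (List.getElem_mem hj)).2
  have hr := reads_of_env hv hx hi _ hj' hne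
  rw [Finset.mem_Ico]
  exact jux_reads_out (fam hG κ C) hj hr

/-- Unrestricted Circuit-FLIP reduces to Circuit-FLIP with windows of size `ε * log n` and arity
`n ^ ε`. -/
theorem hard_log (κ : ℕ) (hκ : 0 < κ) :
    PLSReduces (fun _ => True) fun C => ∃ a β : ℕ, a ^ κ ≤ C.n ∧ κ * β ≤ Nat.log 2 C.n ∧
      C.Arity a ∧ C.Window β := by
  obtain ⟨G, hG, hGOK⟩ := exists_G
  have hn : PU (fun p : Circuit × List Bool => p.1.n) := pu_n PTime.fst
  refine ⟨fun C => red G κ C, fun p => cur p.1.n p.2 (2 * p.1.n + 1),
    (ptime_red hG κ).isPolyTime, (ptime_cur hn PTime.snd (((PTime.const 2).mul hn.toNat).add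
      (PTime.const 1))).isPolyTime, fun C _ _ => ⟨red_valid hGOK κ C,
      ⟨8 * (C.n + 2), Nat.log 2 (red G κ C).n / κ, ?_, Nat.mul_div_le _ _,
        red_arity hGOK κ C, window_of_syn (red_valid hGOK κ C) (red_window hGOK κ hκ C)⟩,
      fun y hy => red_min hGOK hy⟩⟩
  rw [red_n]
  unfold NN
  refine (Nat.pow_le_pow_right (by omega) (show κ ≤ 2 * κ by omega)).trans
    (Nat.le_add_left _ _)

end Pool.Agent.MPa0a715.BW
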