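import Pool.Agent.Lib.MP_a0a715_lc_BW.Disc
import Pool.Agent.Lib.MP_a0a715_lc_TL.PTRed
import Pool.Agent.Lib.MP_a0a715_lc_IN.EasyIN

/-!
# The solver runs in polynomial time
-/

namespace Pool.Agent.MPa0a715.BW

open Pool.Agent.MPa0a715 Pool.Agent.PolyTime
open Pool.Agent.MPa0a715.TL (ptime_drop)

section
variable {α : Type} [Enc α]

theorem ptime_msk {x : α → List Bool} {f : α → ℕ → Bool} (hx : PTime x) (hf : PTime₂ f) :
    PTime (fun a => msk (x a) (f a)) := by
  refine PTime.map (g := fun (a : α) (i : ℕ) => (x a).getD i false && f a i)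
    (PTime.rangeLength hx) ?_
  exact (PTime.listGetD (hx.comp PTime.fst) PTime.snd (PTime.const false)).and hf

theorem ptime_blk {C : α → Circuit} {b t : α → ℕ} {x : α → List Bool} (hC : PTime C)
    (hb : PTime b) (ht : PTime t) (hx : PTime x) :
    PTime (fun a => blk (C a) (b a) (t a) (x a)) := by
  have h1 : PTime (fun a => (((C a).out (x a)).drop (b a * (t a - 1))).take (b a)) :=
    PTime.take (ptime_drop (ptime_out hC hx) (hb.mul (ht.sub (PTime.const 1)))) hb
  have h2 : PTime (fun a => val ((((C a).out (x a)).drop (b a * (t a - 1))).take (b a))) :=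
    (PTime.natOfBits h1).of_eq fun a => (val_eq_ofBits _).symm
  exact PTime.iteP (PTime.eq ht (PTime.const 0)) (PTime.const 0) h2

theorem ptime_inL {s : α → List ℕ} {t i : α → ℕ} (hs : PTime s) (ht : PTime t)
    (hi : PTime i) : PTime (fun a => inL (s a) (t a) (i a)) := by
  have h1 : PTime (fun a => (s a).getD (i a) 0) := PTime.listGetD hs hi (PTime.const 0)
  exact (PTime.eq h1 ht).or (PTime.eq h1 (ht.add (PTime.const 1)))

theorem ptime_Fv {C : α → Circuit} {b t : α → ℕ} {s : α → List ℕ} {x : α → List Bool}
    (hC : PTime C) (hb : PTime b) (hs : PTime s) (ht : PTime t) (hx : PTime x) :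
    PTime (fun a => Fv (C a) (b a) (s a) (t a) (x a)) :=
  ptime_blk hC hb ht (ptime_msk (f := fun a => inL (s a) (t a)) hx
    (ptime_inL (hs.comp PTime.fst) (ht.comp PTime.fst) PTime.snd))

theorem ptime_imp {C : α → Circuit} {b t i : α → ℕ} {s : α → List ℕ} {x : α → List Bool}
    (hC : PTime C) (hb : PTime b) (hs : PTime s) (ht : PTime t) (hx : PTime x) (hi : PTime i) :
    PTime (fun a => imp (C a) (b a) (s a) (t a) (x a) (i a)) := by
  have hf := ptime_flip hx hi
  have ht1 : PTime (fun a => t a - 1) := ht.sub (PTime.const 1)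
  exact (PTime.lt (ptime_Fv hC hb hs ht hf) (ptime_Fv hC hb hs ht hx)).or
    ((PTime.eq (ptime_Fv hC hb hs ht hf) (ptime_Fv hC hb hs ht hx)).and
      (PTime.lt (ptime_Fv hC hb hs ht1 hf) (ptime_Fv hC hb hs ht1 hx)))

theorem ptime_stk {C : α → Circuit} {b t : α → ℕ} {s : α → List ℕ} {x : α → List Bool}
    (hC : PTime C) (hb : PTime b) (hs : PTime s) (ht : PTime t) (hx : PTime x) :
    PTime (fun a => stk (C a) (b a) (s a) (t a) (x a)) := by
  refine PTime.all (g := fun (a : α) (i : ℕ) => !(decide ((s a).getD i 0 = t a)) ||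
    !(imp (C a) (b a) (s a) (t a) (x a) i)) (pu_n hC).range ?_
  have h1 : PTime (fun p : α × ℕ => (s p.1).getD p.2 0) :=
    PTime.listGetD (hs.comp PTime.fst) PTime.snd (PTime.const 0)
  exact (PTime.eq h1 (ht.comp PTime.fst)).not.or (ptime_imp (hC.comp PTime.fst)
    (hb.comp PTime.fst) (hs.comp PTime.fst) (ht.comp PTime.fst) (hx.comp PTime.fst)
    PTime.snd).not

theorem ptime_grow {n t : α → ℕ} {s : α → List ℕ} {L : α → List (List Bool)} (hn : PU n)
    (hs : PTime s) (ht : PTime t) (hL : PTime L) :
    PTime (fun a => grow (n a) (s a) (t a) (L a)) := by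
  refine PTime.append hL (PTime.flatMap (g := fun (a : α) (x : List Bool) =>
    ((List.range (n a)).filter fun i => decide ((s a).getD i 0 = t a)).map fun i => flip x i)
    hL ?_)
  have h1 : PTime (fun q : (α × List Bool) × ℕ => (s q.1.1).getD q.2 0) :=
    PTime.listGetD (hs.comp (PTime.fst' PTime.fst)) PTime.snd (PTime.const 0)
  have h2 : PTime (fun p : α × List Bool => (List.range (n p.1)).filter
      fun i => decide ((s p.1).getD i 0 = t p.1)) :=
    PTime.filter (g := fun (p : α × List Bool) (i : ℕ) => decide ((s p.1).getD i 0 = t p.1))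
      (hn.comp PTime.fst).range (PTime.eq h1 (ht.comp (PTime.fst' PTime.fst)))
  exact PTime.map (g := fun (p : α × List Bool) (i : ℕ) => flip p.2 i) h2
    (ptime_flip (PTime.snd' PTime.fst) PTime.snd)

theorem ptime_crd {n t : α → ℕ} {s : α → List ℕ} {w : α → List Unit}
    {L : α → List (List Bool)} (hn : PU n) (hs : PTime s) (ht : PTime t) (hw : PTime w)
    (hL : PTime L) : PTime (fun a => crd (n a) (s a) (t a) (w a) (L a)) :=
  PTime.iteP (PTime.le (PTime.length (ptime_grow hn hs ht hL)) (PTime.length hw))
    (ptime_grow hn hs ht hL) hL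

theorem length_crds {n t : ℕ} {s : List ℕ} {w : List Unit} (r : ℕ) :
    (crds n s t w r).length ≤ w.length + 1 := by
  induction r with
  | zero => simp [crds]
  | succ r ih =>
    rw [crds_succ]
    unfold crd
    split_ifs with h
    · omega
    · exact ih

theorem length_fold_dbl {n : ℕ} {w : List Unit} (l : List ℕ) :
    (l.foldl (dbl w) [zeros n]).length ≤ w.length + 1 := by
  induction l using List.reverseRecOn with
  | nil => simp
  | append_singleton l k ih =>
    rw [List.foldl_append, List.foldl_cons, List.foldl_nil]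
    generalize l.foldl (dbl w) [zeros n] = L at ih
    unfold dbl
    split_ifs with h
    · rw [List.length_append, List.length_map]
      omega
    · exact ih

theorem length_cands {n t : ℕ} {s : List ℕ} {w : List Unit} :
    (cands n s t w).length ≤ 2 * (w.length + 1) := by
  unfold cands
  rw [List.length_append]
  have h1 : (cand1 n s t w).length ≤ w.length + 1 := length_crds (s := s) (t := t) w.length
  have h2 : (cand2 n s t w).length ≤ w.length + 1 := length_fold_dbl _
  omega

theorem size_vecs {n N : ℕ} {L : List (List Bool)} (hL : L.length ≤ N)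
    (h : ∀ x ∈ L, x.length = n) : size (enc L) ≤ N * (4 * n + 2) + 1 := by
  have h1 := size_list_le L (4 * n + 1) fun x hx => by
    have h2 := size_list_le x 3 fun b _ => size_bool b
    rw [h x hx] at h2
    omega
  change size (enc L) ≤ L.length * (4 * n + 2) + 1 at h1
  have h3 := Nat.mul_le_mul_right (4 * n + 2) hL
  omega

theorem ptime_cand1 {n t : α → ℕ} {s : α → List ℕ} {w : α → List Unit} (hn : PU n)
    (hs : PTime s) (ht : PTime t) (hw : PTime w) :
    PTime (fun a => cand1 (n a) (s a) (t a) (w a)) := by
  obtain ⟨Fn, hFn, _, hFns⟩ := PTime.size_le hn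
  obtain ⟨Fw, hFw, _, hFws⟩ := hw.size_le
  refine PTime.foldl (h := fun (a : α) (L : List (List Bool)) (_ : ℕ) =>
    crd (n a) (s a) (t a) (w a) L) (PTime.rangeLength hw)
    ((ptime_zeros hn).cons (PTime.const [])) ?_
    (B := fun m => (Fw m + 1) * (4 * Fn m + 2) + 1) ?_ ?_
  · exact ptime_crd (hn.comp PTime.fst) (hs.comp PTime.fst) (ht.comp PTime.fst)
      (hw.comp PTime.fst) (PTime.fst' PTime.snd)
  · exact ((hFw.add (PBd.const 1)).mul (((PBd.const 4).mul hFn).add (PBd.const 2))).add
      (PBd.const 1)
  · intro a l₁ l₂ h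
    have h1 : ∀ (l : List ℕ), l.foldl (fun L (_ : ℕ) => crd (n a) (s a) (t a) (w a) L)
        [zeros (n a)] = crds (n a) (s a) (t a) (w a) l.length := by
      intro l
      induction l using List.reverseRecOn with
      | nil => rfl
      | append_singleton l x ih =>
        rw [List.foldl_append, ih, List.length_append, List.length_singleton, crds_succ]
        rfl
    rw [h1]
    refine (size_vecs (length_crds _) fun x hx => (crds_sub _ x hx).1).trans ?_
    have e1 := length_le_size (w a)
    have e2 := hFws a
    have e3 := length_le_size (List.replicate (n a) ())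
    have e4 := hFns a
    rw [List.length_replicate] at e3
    have e5 : (w a).length + 1 ≤ Fw (size (enc a)) + 1 := by omega
    have e6 : 4 * n a + 2 ≤ 4 * Fn (size (enc a)) + 2 := by omega
    have := Nat.mul_le_mul e5 e6
    omega

theorem ptime_dbl {w : α → List Unit} {L : α → List (List Bool)} {i : α → ℕ} (hw : PTime w)
    (hL : PTime L) (hi : PTime i) : PTime (fun a => dbl (w a) (L a) (i a)) :=
  PTime.iteP (PTime.le ((PTime.const 2).mul (PTime.length hL)) (PTime.length hw))
    (PTime.append hL (PTime.map (g := fun (a : α) (x : List Bool) => flip x (i a)) hL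
      (ptime_flip PTime.snd (hi.comp PTime.fst)))) hL

theorem ptime_cand2 {n t : α → ℕ} {s : α → List ℕ} {w : α → List Unit} (hn : PU n)
    (hs : PTime s) (ht : PTime t) (hw : PTime w) :
    PTime (fun a => cand2 (n a) (s a) (t a) (w a)) := by
  obtain ⟨Fn, hFn, _, hFns⟩ := PTime.size_le hn
  obtain ⟨Fw, hFw, _, hFws⟩ := hw.size_le
  have h0 : PTime (fun p : α × ℕ => (s p.1).getD p.2 0) :=
    PTime.listGetD (hs.comp PTime.fst) PTime.snd (PTime.const 0)
  have hl : PTime (fun a => (List.range (n a)).filter fun i => decide ((s a).getD i 0 = t a)) :=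
    PTime.filter (g := fun (a : α) (i : ℕ) => decide ((s a).getD i 0 = t a))
      hn.range (PTime.eq h0 (ht.comp PTime.fst))
  refine PTime.foldl (h := fun (a : α) (L : List (List Bool)) (i : ℕ) => dbl (w a) L i) hl
    ((ptime_zeros hn).cons (PTime.const [])) ?_
    (B := fun m => (Fw m + 1) * (4 * Fn m + 2) + 1) ?_ ?_
  · exact ptime_dbl (hw.comp PTime.fst) (PTime.fst' PTime.snd) (PTime.snd' PTime.snd)
  · exact ((hFw.add (PBd.const 1)).mul (((PBd.const 4).mul hFn).add (PBd.const 2))).add
      (PBd.const 1)
  · intro a l₁ l₂ h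
    have hlt : ∀ i ∈ l₁, i < n a := by
      intro i hi
      have h1 : i ∈ (List.range (n a)).filter fun i => decide ((s a).getD i 0 = t a) := by
        rw [h]
        exact List.mem_append_left _ hi
      exact List.mem_range.1 (List.mem_filter.1 h1).1
    refine (size_vecs (length_fold_dbl _) fun x hx =>
      ((fold_dbl (w := w a) l₁ hlt).1 x hx).1).trans ?_
    have e1 := length_le_size (w a)
    have e2 := hFws a
    have e3 := length_le_size (List.replicate (n a) ())
    have e4 := hFns a
    rw [List.length_replicate] at e3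
    have e5 : (w a).length + 1 ≤ Fw (size (enc a)) + 1 := by omega
    have e6 : 4 * n a + 2 ≤ 4 * Fn (size (enc a)) + 2 := by omega
    have := Nat.mul_le_mul e5 e6
    omega

theorem ptime_cands {n t : α → ℕ} {s : α → List ℕ} {w : α → List Unit} (hn : PU n)
    (hs : PTime s) (ht : PTime t) (hw : PTime w) :
    PTime (fun a => cands (n a) (s a) (t a) (w a)) :=
  PTime.append (ptime_cand1 hn hs ht hw) (ptime_cand2 hn hs ht hw)

theorem ptime_bor {x y : α → List Bool} (hx : PTime x) (hy : PTime y) :
    PTime (fun a => bor (x a) (y a)) :=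
  PTime.map (g := fun (_ : α) (p : Bool × Bool) => p.1 || p.2) (PTime.zip hx hy)
    ((PTime.fst' PTime.snd).or (PTime.snd' PTime.snd))

theorem ptime_fnd {C : α → Circuit} {b t : α → ℕ} {s : α → List ℕ} {T : α → List (List Bool)}
    {x y : α → List Bool} (hC : PTime C) (hb : PTime b) (hs : PTime s) (ht : PTime t)
    (hT : PTime T) (hx : PTime x) (hy : PTime y) :
    PTime (fun a => fnd (C a) (b a) (s a) (t a) (T a) (x a) (y a)) := by
  have h1 : PTime (fun a => (T a).map fun y => bor y (x a)) :=
    PTime.map (g := fun (a : α) (y : List Bool) => bor y (x a)) hT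
      (ptime_bor PTime.snd (hx.comp PTime.fst))
  refine PTime.find? (g := fun (a : α) (z : List Bool) =>
    decide (msk z (fun i => decide ((s a).getD i 0 = t a)) = y a) &&
      stk (C a) (b a) (s a) (t a) z) h1 ?_
  have h2 : PTime (fun q : (α × List Bool) × ℕ => (s q.1.1).getD q.2 0) :=
    PTime.listGetD (hs.comp (PTime.fst' PTime.fst)) PTime.snd (PTime.const 0)
  have h3 : PTime (fun p : α × List Bool => msk p.2 fun i =>
      decide ((s p.1).getD i 0 = t p.1)) :=
    ptime_msk (f := fun (p : α × List Bool) (i : ℕ) => decide ((s p.1).getD i 0 = t p.1))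
      PTime.snd (PTime.eq h2 (ht.comp (PTime.fst' PTime.fst)))
  exact (PTime.eq h3 (hy.comp PTime.fst)).and (ptime_stk (hC.comp PTime.fst)
    (hb.comp PTime.fst) (hs.comp PTime.fst) (ht.comp PTime.fst) PTime.snd)

theorem ptime_toList {f : α → Option (List Bool)} (hf : PTime f) :
    PTime (fun a => (f a).toList) :=
  (PTime.option_cases hf (PTime.const []) (PTime.snd.cons (PTime.const []))).of_eq fun a => by
    cases f a <;> rfl

theorem ptime_stage {C : α → Circuit} {b t : α → ℕ} {s : α → List ℕ} {w : α → List Unit}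
    {T : α → List (List Bool)} (hC : PTime C) (hb : PTime b) (hs : PTime s) (hw : PTime w)
    (hT : PTime T) (ht : PTime t) :
    PTime (fun a => stage (C a) (b a) (s a) (w a) (T a) (t a)) := by
  have hn := pu_n hC
  refine PTime.flatMap (g := fun (a : α) (c : List Bool) =>
    (cands (C a).n (s a) (t a) (w a)).flatMap fun b' =>
      (fnd (C a) (b a) (s a) (t a) (T a) c b').toList)
    (ptime_cands hn hs (ht.add (PTime.const 1)) hw) ?_
  refine PTime.flatMap (g := fun (p : α × List Bool) (b' : List Bool) =>
    (fnd (C p.1) (b p.1) (s p.1) (t p.1) (T p.1) p.2 b').toList)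
    ((ptime_cands hn hs ht hw).comp PTime.fst) ?_
  have h1 : PTime (fun q : (α × List Bool) × List Bool => q.1.1) := PTime.fst' PTime.fst
  exact ptime_toList (ptime_fnd (hC.comp h1) (hb.comp h1) (hs.comp h1) (ht.comp h1)
    (hT.comp h1) (PTime.snd' PTime.fst) PTime.snd)

theorem length_flatMap_le {β γ : Type} {M : ℕ} (f : β → List γ) (l : List β)
    (h : ∀ x ∈ l, (f x).length ≤ M) : (l.flatMap f).length ≤ l.length * M := by
  induction l with
  | nil => simp
  | cons a l ih =>
    rw [List.flatMap_cons, List.length_append, List.length_cons, Nat.add_one_mul]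
    have := ih fun x hx => h x (List.mem_cons_of_mem _ hx)
    have := h a List.mem_cons_self
    omega

theorem length_stage {C : Circuit} {b t : ℕ} {s : List ℕ} {w : List Unit}
    {T : List (List Bool)} :
    (stage C b s w T t).length ≤ 2 * (w.length + 1) * (2 * (w.length + 1)) := by
  unfold stage
  refine (length_flatMap_le (M := 2 * (w.length + 1)) _ _ fun c _ => ?_).trans
    (Nat.mul_le_mul_right _ length_cands)
  refine (length_flatMap_le (M := 1) _ _ fun d _ => ?_).trans ?_
  · cases fnd C b s t T c d <;> simp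
  · rw [Nat.mul_one]
    exact length_cands

theorem ptime_tab {C : α → Circuit} {b : α → ℕ} {s : α → List ℕ} {w : α → List Unit}
    (hC : PTime C) (hb : PTime b) (hs : PTime s) (hw : PTime w) :
    PTime (fun a => tab (C a) (b a) (s a) (w a) ((C a).outs.length + 1)) := by
  have hn := pu_n hC
  have hm := PU.ofLength (ptime_outs hC)
  obtain ⟨Fn, hFn, _, hFns⟩ := PTime.size_le hn
  obtain ⟨Fw, hFw, _, hFws⟩ := hw.size_le
  refine PTime.foldl (h := fun (a : α) (T : List (List Bool)) (t : ℕ) =>
    stage (C a) (b a) (s a) (w a) T t) (hm.add (PU.const 1)).range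
    ((ptime_zeros hn).cons (PTime.const [])) ?_
    (B := fun m => (2 * (Fw m + 1) * (2 * (Fw m + 1))) * (4 * Fn m + 2) + 1) ?_ ?_
  · exact ptime_stage (hC.comp PTime.fst) (hb.comp PTime.fst) (hs.comp PTime.fst)
      (hw.comp PTime.fst) (PTime.fst' PTime.snd) (PTime.snd' PTime.snd)
  · have h1 : PBd fun m => 2 * (Fw m + 1) := (PBd.const 2).mul (hFw.add (PBd.const 1))
    exact ((h1.mul h1).mul (((PBd.const 4).mul hFn).add (PBd.const 2))).add (PBd.const 1)
  · intro a l₁ l₂ h
    have h0 : l₁ = List.range l₁.length := by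
      have h1 := congrArg (List.take l₁.length) h
      rw [List.take_left, List.take_range] at h1
      have h2 := congrArg List.length h
      rw [List.length_range, List.length_append] at h2
      rw [Nat.min_eq_left (by omega)] at h1
      exact h1.symm
    have h1 : l₁.foldl (fun T t => stage (C a) (b a) (s a) (w a) T t) [zeros (C a).n] =
        tab (C a) (b a) (s a) (w a) l₁.length := by
      unfold tab
      rw [← h0]
    rw [h1]
    have hlen : (tab (C a) (b a) (s a) (w a) l₁.length).length ≤
        2 * ((w a).length + 1) * (2 * ((w a).length + 1)) := by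
      cases l₁.length with
      | zero =>
        change 1 ≤ _
        exact Nat.mul_pos (by omega) (by omega)
      | succ k =>
        rw [tab_succ]
        exact length_stage
    refine (size_vecs hlen fun x hx => (tab_sound _ x hx).1).trans ?_
    have e1 := length_le_size (w a)
    have e2 := hFws a
    have e3 := length_le_size (List.replicate (C a).n ())
    have e4 : size (enc (List.replicate (C a).n ())) ≤ Fn (size (enc a)) := hFns a
    rw [List.length_replicate] at e3
    have e5 : 2 * ((w a).length + 1) ≤ 2 * (Fw (size (enc a)) + 1) := by omega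
    have e6 : 4 * (C a).n + 2 ≤ 4 * Fn (size (enc a)) + 2 := by omega
    have := Nat.mul_le_mul (Nat.mul_le_mul e5 e5) e6
    omega

theorem ptime_pick {C : α → Circuit} {b : α → ℕ} {s : α → List ℕ} {w : α → List Unit}
    (hC : PTime C) (hb : PTime b) (hs : PTime s) (hw : PTime w) :
    PTime (fun a => pick (C a) (b a) (s a) (w a)) := by
  refine (PTime.getD (PTime.head? (ptime_tab hC hb hs hw)) (ptime_zeros (pu_n hC))).of_eq
    fun a => ?_
  unfold pick
  cases tab (C a) (b a) (s a) (w a) ((C a).outs.length + 1) <;> rfl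

theorem ptime_tests {C : α → Circuit} {s : α → List ℕ} {x : α → List Bool} (hC : PTime C)
    (hs : PTime s) (hx : PTime x) : PTime (fun a => tests (C a) (s a) (x a)) := by
  have hn := pu_n hC
  have hm := PU.ofLength (ptime_outs hC)
  have h1 : PTime (fun a => x a :: (List.range (C a).n).map fun i => flip (x a) i) :=
    hx.cons (PTime.map (g := fun (a : α) (i : ℕ) => flip (x a) i) hn.range
      (ptime_flip (hx.comp PTime.fst) PTime.snd))
  refine PTime.flatMap (g := fun (a : α) (y : List Bool) =>
    (List.range ((C a).outs.length + 1)).flatMap fun t =>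
      (List.range ((C a).n + 1)).map fun l => msk y fun p => !(decide (p < l)) || inL (s a) t p)
    h1 ?_
  refine PTime.flatMap (g := fun (p : α × List Bool) (t : ℕ) =>
    (List.range ((C p.1).n + 1)).map fun l => msk p.2 fun q =>
      !(decide (q < l)) || inL (s p.1) t q) ((hm.add (PU.const 1)).comp PTime.fst).range ?_
  refine PTime.map (g := fun (q : (α × List Bool) × ℕ) (l : ℕ) => msk q.1.2 fun r =>
    !(decide (r < l)) || inL (s q.1.1) q.2 r)
    ((hn.add (PU.const 1)).comp (PTime.fst' PTime.fst)).range ?_
  refine ptime_msk (f := fun (q : ((α × List Bool) × ℕ) × ℕ) (r : ℕ) =>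
    !(decide (r < q.2)) || inL (s q.1.1.1) q.1.2 r) (PTime.snd' (PTime.fst' PTime.fst)) ?_
  exact (PTime.lt PTime.snd (PTime.snd' PTime.fst)).not.or
    (ptime_inL (hs.comp (PTime.fst' (PTime.fst' (PTime.fst' PTime.fst))))
      (PTime.snd' (PTime.fst' PTime.fst)) PTime.snd)

theorem ptime_bad {C : α → Circuit} {b i : α → ℕ} {s : α → List ℕ} {z : α → List Bool}
    (hC : PTime C) (hb : PTime b) (hs : PTime s) (hi : PTime i) (hz : PTime z) :
    PTime (fun a => bad (C a) (b a) (s a) (i a) (z a)) := by
  have hm := PU.ofLength (ptime_outs hC)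
  have h1 : PTime (fun p : α × ℕ => ((C p.1).out (flip (z p.1) (i p.1))).getD p.2 false) :=
    PTime.listGetD ((ptime_out hC (ptime_flip hz hi)).comp PTime.fst) PTime.snd
      (PTime.const false)
  have h2 : PTime (fun p : α × ℕ => ((C p.1).out (z p.1)).getD p.2 false) :=
    PTime.listGetD ((ptime_out hC hz).comp PTime.fst) PTime.snd (PTime.const false)
  have h3 : PTime (fun p : α × ℕ => (s p.1).getD (i p.1) 0) :=
    PTime.listGetD (hs.comp PTime.fst) (hi.comp PTime.fst) (PTime.const 0)
  have h4 : PTime (fun p : α × ℕ => p.2 / b p.1 + 1) :=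
    (PTime.snd.div (hb.comp PTime.fst)).add (PTime.const 1)
  refine PTime.map (g := fun (a : α) (j : ℕ) => j / b a + 1)
    (PTime.filter (g := fun (a : α) (j : ℕ) =>
      (Bool.xor (((C a).out (flip (z a) (i a))).getD j false) (((C a).out (z a)).getD j false)) &&
        decide ((s a).getD (i a) 0 < j / b a + 1)) hm.range ?_) h4
  exact (h1.xor h2).and (PTime.lt h3 h4)

theorem getD_head? {β : Type} (l : List β) (a : β) : l.head?.getD a = l.headD a := by
  cases l <;> rfl

theorem ptime_upd {C : α → Circuit} {b : α → ℕ} {s : α → List ℕ} {x : α → List Bool}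
    (hC : PTime C) (hb : PTime b) (hs : PTime s) (hx : PTime x) :
    PTime (fun a => upd (C a) (b a) (s a) (x a)) := by
  refine PTime.map (g := fun (a : α) (i : ℕ) =>
    ((tests (C a) (s a) (x a)).flatMap fun z => bad (C a) (b a) (s a) i z).headD
      ((s a).getD i 0)) (pu_n hC).range ?_
  have h1 : PTime (fun p : α × ℕ => (s p.1).getD p.2 0) :=
    PTime.listGetD (hs.comp PTime.fst) PTime.snd (PTime.const 0)
  have h2 : PTime (fun p : α × ℕ => (tests (C p.1) (s p.1) (x p.1)).flatMap
      (fun z => bad (C p.1) (b p.1) (s p.1) p.2 z)) := by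
    refine PTime.flatMap (g := fun (p : α × ℕ) (z : List Bool) =>
      bad (C p.1) (b p.1) (s p.1) p.2 z) ((ptime_tests hC hs hx).comp PTime.fst) ?_
    have h3 : PTime (fun q : (α × ℕ) × List Bool => q.1.1) := PTime.fst' PTime.fst
    exact ptime_bad (hC.comp h3) (hb.comp h3) (hs.comp h3) (PTime.snd' PTime.fst) PTime.snd
  exact (PTime.getD (PTime.head? h2) h1).of_eq fun p => getD_head? _ _

theorem lvs_inv {C : Circuit} {b : ℕ} {w : List Unit} (k : ℕ) : Inv C b (lvs C b w k) := by
  induction k with
  | zero =>
    refine ⟨by simp [lvs], fun i hi => Or.inl ?_⟩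
    unfold lev lvs
    rw [List.range_zero, List.foldl_nil, List.getD_eq_getElem _ _ (by simpa using hi),
      List.getElem_map]
  | succ k ih =>
    rw [lvs_succ]
    exact inv_upd (pick_length _ _ _ _) ih

theorem lvs_le {C : Circuit} {b : ℕ} {w : List Unit} (k : ℕ) :
    (lvs C b w k).length = C.n ∧ ∀ x ∈ lvs C b w k, x ≤ C.outs.length := by
  have h := lvs_inv (C := C) (b := b) (w := w) k
  refine ⟨h.1, fun x hx => ?_⟩
  obtain ⟨i, hi, rfl⟩ := List.getElem_of_mem hx
  have h1 := h.le (i := i) (by rw [← h.1]; exact hi)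
  unfold lev at h1
  rwa [List.getD_eq_getElem _ _ hi] at h1

theorem ptime_lvl {C : α → Circuit} {b : α → ℕ} {w : α → List Unit} (hC : PTime C)
    (hb : PTime b) (hw : PTime w) : PTime (fun a => lvl (C a) (b a) (w a)) := by
  have hn := pu_n hC
  have hm := PU.ofLength (ptime_outs hC)
  have hN : PU (fun a => (C a).n * (C a).outs.length + 1) := (hn.mul hm).add (PU.const 1)
  obtain ⟨Fn, hFn, _, hFns⟩ := PTime.size_le hn
  obtain ⟨FN, hFN, _, hFNs⟩ := PTime.size_le hm
  refine PTime.foldl (h := fun (a : α) (s : List ℕ) (_ : ℕ) =>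
    upd (C a) (b a) s (pick (C a) (b a) s (w a))) hN.range
    (PTime.map (g := fun (_ : α) (_ : ℕ) => 0) hn.range (PTime.const 0)) ?_
    (B := fun m => Fn m * (4 * FN m + 2) + 1) ?_ ?_
  · have h1 : PTime (fun p : α × (List ℕ × ℕ) => p.2.1) := PTime.fst' PTime.snd
    exact ptime_upd (hC.comp PTime.fst) (hb.comp PTime.fst) h1
      (ptime_pick (hC.comp PTime.fst) (hb.comp PTime.fst) h1 (hw.comp PTime.fst))
  · exact (hFn.mul (((PBd.const 4).mul hFN).add (PBd.const 2))).add (PBd.const 1)
  · intro a l₁ l₂ h
    have h1 : ∀ (l : List ℕ), l.foldl (fun s (_ : ℕ) =>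
        upd (C a) (b a) s (pick (C a) (b a) s (w a))) ((List.range (C a).n).map fun _ => 0) =
        lvs (C a) (b a) (w a) l.length := by
      intro l
      induction l using List.reverseRecOn with
      | nil => rfl
      | append_singleton l x ih =>
        rw [List.foldl_append, ih, List.length_append, List.length_singleton, lvs_succ]
        rfl
    rw [h1]
    obtain ⟨h2, h3⟩ := lvs_le (C := C a) (b := b a) (w := w a) l₁.length
    have e1 := length_le_size (List.replicate (C a).n ())
    have e2 : size (enc (List.replicate (C a).n ())) ≤ Fn (size (enc a)) := hFns a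
    have e3 := length_le_size (List.replicate (C a).outs.length ())
    have e4 : size (enc (List.replicate (C a).outs.length ())) ≤ FN (size (enc a)) := hFNs a
    rw [List.length_replicate] at e1 e3
    have h5 := size_list_le (lvs (C a) (b a) (w a) l₁.length) (4 * FN (size (enc a)) + 1)
      fun x hx => by
        have := size_nat_le x
        have := h3 x hx
        omega
    rw [h2] at h5
    have h6 : (C a).n * (4 * FN (size (enc a)) + 1 + 1) ≤
        Fn (size (enc a)) * (4 * FN (size (enc a)) + 2) := Nat.mul_le_mul (by omega) (by omega)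
    omega

theorem ptime_solve {C : α → Circuit} {b : α → ℕ} {w : α → List Unit} (hC : PTime C)
    (hb : PTime b) (hw : PTime w) : PTime (fun a => solve (C a) (b a) (w a)) :=
  ptime_pick hC hb (ptime_lvl hC hb hw) hw

end

theorem pu_pow {α : Type} [Enc α] {f : α → ℕ} (hf : PU f) (k : ℕ) : PU (fun a => f a ^ k) := by
  induction k with
  | zero => exact PU.of_eq (PU.const 1) fun a => (pow_zero _).symm
  | succ k ih => exact PU.of_eq (ih.mul hf) fun a => (pow_succ _ _).symm

/-- the solver for windows of unknown size: try all sizes -/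
def solveAll (C : Circuit) (w : List Unit) : List Bool :=
  (((List.range (C.outs.length + 1)).map fun β => solve C β w).find? fun x =>
    decide (IN.step C x = x)).getD (zeros C.n)

theorem isLocalMin_iff_step {C : Circuit} {x : List Bool} (hx : x.length = C.n) :
    C.IsLocalMin x ↔ IN.step C x = x := by
  constructor
  · exact IN.step_min
  · intro h
    rcases IN.step_cases C x with ⟨_, h2⟩ | ⟨i, hi, h1, h2⟩
    · exact ⟨hx, h2⟩
    · rw [← h1, h] at h2
      omega

theorem solveAll_min {C : Circuit} {w : List Unit} {β : ℕ} (hβ : β ≤ C.outs.length)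
    (h : C.IsLocalMin (solve C β w)) : C.IsLocalMin (solveAll C w) := by
  unfold solveAll
  cases hf : ((List.range (C.outs.length + 1)).map fun β => solve C β w).find? fun x =>
    decide (IN.step C x = x) with
  | none =>
    rw [List.find?_eq_none] at hf
    exact absurd (decide_eq_true ((isLocalMin_iff_step h.1).1 h))
      (hf _ (List.mem_map.2 ⟨β, List.mem_range.2 (by omega), rfl⟩))
  | some x =>
    have h1 := List.find?_some hf
    have h2 := List.mem_of_find?_eq_some hf
    rw [List.mem_map] at h2
    obtain ⟨γ, _, rfl⟩ := h2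
    exact (isLocalMin_iff_step (pick_length _ _ _ _)).2 (of_decide_eq_true h1)

/-- windows longer than the number of outputs are not needed -/
theorem window_min {C : Circuit} {β : ℕ} (h : C.Window β) : C.Window (min β C.outs.length) := by
  intro i hi
  rcases le_total β C.outs.length with h1 | h1
  · rw [min_eq_left h1]
    exact h i hi
  · rw [min_eq_right h1]
    exact ⟨0, fun j hj _ => ⟨Nat.zero_le _, by omega⟩⟩

section
variable {α : Type} [Enc α]

theorem ptime_solveAll {C : α → Circuit} {w : α → List Unit} (hC : PTime C) (hw : PTime w) :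
    PTime (fun a => solveAll (C a) (w a)) := by
  have hm := PU.ofLength (ptime_outs hC)
  have h1 : PTime (fun a => (List.range ((C a).outs.length + 1)).map fun β =>
      solve (C a) β (w a)) :=
    PTime.map (g := fun (a : α) (β : ℕ) => solve (C a) β (w a)) (hm.add (PU.const 1)).range
      (ptime_solve (hC.comp PTime.fst) PTime.snd (hw.comp PTime.fst))
  exact PTime.getD (PTime.find? (g := fun (a : α) (x : List Bool) =>
    decide (IN.step (C a) x = x)) h1 (PTime.eq (IN.ptime_step (hC.comp PTime.fst) PTime.snd)
      PTime.snd)) (ptime_zeros (pu_n hC))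

end

/-- The uniform solver: one algorithm, polynomial time in the circuit and in the length of `w`,
which finds a local minimum if `C` has windows of some size `β` and `w` has length at least
`(n + 1) ^ (8 ^ β)` or, for circuits of arity `a`, at least `2 ^ (a * β)`. -/
theorem easy_uniform : ∃ f : Circuit × List Unit → List Bool, IsPolyTime enc enc f ∧
    ∀ (C : Circuit) (w : List Unit) (β : ℕ), C.Window β →
      ((C.n + 1) ^ (8 ^ β) ≤ w.length ∨ ∃ a, C.Arity a ∧ 2 ^ (a * β) ≤ w.length) →
      C.IsLocalMin (f (C, w)) := by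
  refine ⟨fun p => solveAll p.1 p.2, (ptime_solveAll PTime.fst PTime.snd).isPolyTime,
    fun C w β hC hw => ?_⟩
  have hm : min β C.outs.length ≤ β := min_le_left _ _
  refine solveAll_min (min_le_right β _) ?_
  rcases hw with hw | ⟨a, ha, hw⟩
  · exact solve_min (window_min hC) ((Nat.pow_le_pow_right (Nat.succ_pos _)
      (Nat.pow_le_pow_right (by norm_num) hm)).trans hw)
  · exact solve_min' (window_min hC) ha ((Nat.pow_le_pow_right (by norm_num)
      (Nat.mul_le_mul_left _ hm)).trans hw)

/-- windows of constant size: there is a polynomial-time solver -/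
theorem easy (β : ℕ) : HasSolver (Circuit.Window β) := by
  have hn := pu_n (PTime.id (α := Circuit))
  have hw : PTime (fun C : Circuit => List.replicate ((C.n + 1) ^ (8 ^ β)) ()) :=
    pu_pow (hn.add (PU.const 1)) _
  exact ⟨fun C => solve C β (List.replicate ((C.n + 1) ^ (8 ^ β)) ()),
    (ptime_solve PTime.id (PTime.const β) hw).isPolyTime,
    fun C _ hC => solve_min hC (by rw [List.length_replicate])⟩

/-- arity times window logarithmic: there is a polynomial-time solver -/
theorem easy_arity (c : ℕ) : HasSolver fun C =>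
    ∃ a β : ℕ, a * β ≤ c * Nat.log 2 C.n ∧ C.Arity a ∧ C.Window β := by
  have hn := pu_n (PTime.id (α := Circuit))
  have hw : PTime (fun C : Circuit => List.replicate ((C.n + 1) ^ c) ()) :=
    pu_pow (hn.add (PU.const 1)) _
  refine ⟨fun C => solveAll C (List.replicate ((C.n + 1) ^ c) ()),
    (ptime_solveAll PTime.id hw).isPolyTime, fun C _ ⟨a, β, hab, ha, hβ⟩ => ?_⟩
  refine solveAll_min (min_le_right β _) (solve_min' (window_min hβ) ha ?_)
  rw [List.length_replicate]
  have h1 : a * min β C.outs.length ≤ c * Nat.log 2 C.n :=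
    (Nat.mul_le_mul_left _ (min_le_left _ _)).trans hab
  refine (Nat.pow_le_pow_right (by norm_num) h1).trans ?_
  rw [Nat.mul_comm, pow_mul]
  refine Nat.pow_le_pow_left ?_ c
  rcases Nat.eq_zero_or_pos C.n with h0 | h0
  · rw [h0]
    simp
  · exact (Nat.pow_log_le_self 2 (by omega)).trans (Nat.le_succ _)

end Pool.Agent.MPa0a715.BW
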