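import Pool.Agent.Lib.MP_a0a715_lc_BW.Ext

/-!
# Combining the solvers
-/

namespace Pool.Agent.MPa0a715

open Pool.Agent.PolyTime

/-- There are bounds `a`, `q`, `β` in the relation `R` with the number of inputs such that every
output bit is influenced by at most `a` input bits, and every input bit influences at most `q`
output bits, all of them in a window of `β` consecutive positions. -/
def Circuit.Bounded (R : ℕ → ℕ → ℕ → ℕ → Prop) (C : Circuit) : Prop :=
  ∃ a q β : ℕ, R C.n a q β ∧ C.Arity a ∧ C.Influence q ∧ C.Window β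

/-- Circuit-FLIP restricted to `K` is as hard as unrestricted Circuit-FLIP, which reduces to it in
the sense of the class PLS. -/
def Hard (K : Circuit → Prop) : Prop :=
  PLSReduces (fun _ => True) K ∧ (HasSolver K ↔ HasSolver fun _ => True)

end Pool.Agent.MPa0a715

namespace Pool.Agent.MPa0a715.BW

open Pool.Agent.MPa0a715 Pool.Agent.PolyTime

theorem comb {f g : Circuit × List Unit → List Bool} (hf : PTime f) (hg : PTime g) :
    ∃ h : Circuit × List Unit → List Bool, PTime h ∧ ∀ p : Circuit × List Unit,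
      (p.1.IsLocalMin (f p) ∨ p.1.IsLocalMin (g p)) → p.1.IsLocalMin (h p) := by
  have hn : PTime (fun p : Circuit × List Unit => p.1.n) := (pu_n PTime.fst).toNat
  refine ⟨fun p => if (decide ((f p).length = p.1.n) && decide (IN.step p.1 (f p) = f p)) = true
    then f p else g p, PTime.ite ((PTime.eq (PTime.length hf) hn).and
      (PTime.eq (IN.ptime_step PTime.fst hf) hf)) hf hg, fun p h => ?_⟩
  dsimp only
  split_ifs with h1
  · rw [Bool.and_eq_true, decide_eq_true_eq, decide_eq_true_eq] at h1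
    exact (isLocalMin_iff_step h1.1).2 h1.2
  · rcases h with h | h
    · exfalso
      apply h1
      rw [Bool.and_eq_true, decide_eq_true_eq, decide_eq_true_eq]
      exact ⟨h.1, (isLocalMin_iff_step h.1).1 h⟩
    · exact h

/-- The solver for all easy cases. -/
theorem easy_all : ∃ f : Circuit × List Unit → List Bool, PTime f ∧
    ∀ (C : Circuit) (w : List Unit), C.Valid →
      (C.Changes 2 ∨ C.Bounded fun n a _ β =>
        a ≤ 2 ∨ (n + 1) ^ (8 ^ β) ≤ w.length ∨ 2 ^ (a * β) ≤ w.length) →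
      C.IsLocalMin (f (C, w)) := by
  obtain ⟨f1, h1, h1'⟩ := easy_two
  obtain ⟨f2, h2, h2'⟩ := easy_uniform
  obtain ⟨f3, h3, h3'⟩ := IN.easy2
  obtain ⟨f4, h4, h4'⟩ := comb ((isPolyTime_iff.1 h1).comp PTime.fst) (isPolyTime_iff.1 h2)
  obtain ⟨f5, h5, h5'⟩ := comb ((isPolyTime_iff.1 h3).comp PTime.fst) h4
  refine ⟨f5, h5, fun C w hC h => h5' (C, w) ?_⟩
  rcases h with h | ⟨a, q, β, h, ha, hq, hβ⟩
  · exact Or.inl (h3' C hC h)
  · refine Or.inr (h4' (C, w) ?_)
    rcases h with h | h | h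
    · refine Or.inl (h1' C hC fun j hj => ?_)
      obtain ⟨S, hS, hS'⟩ := ha j hj
      exact ⟨S, hS.trans h, hS'⟩
    · exact Or.inr (h2' C w β hβ (Or.inl h))
    · exact Or.inr (h2' C w β hβ (Or.inr ⟨a, ha, h⟩))

theorem easy_const (c : ℕ) : HasSolver fun C => C.Changes 2 ∨ C.Bounded fun n a _ β =>
    a ≤ 2 ∨ β ≤ c ∨ a * β ≤ c * Nat.log 2 n := by
  obtain ⟨f, hf, h⟩ := easy_all
  have hn := pu_n (PTime.id (α := Circuit))
  have hw : PTime (fun C : Circuit => List.replicate ((C.n + 1) ^ (8 ^ c + c)) ()) :=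
    pu_pow (hn.add (PU.const 1)) _
  refine ⟨fun C => f (C, List.replicate ((C.n + 1) ^ (8 ^ c + c)) ()),
    (hf.comp (PTime.id.pair hw)).isPolyTime, fun C hC hK => h C _ hC ?_⟩
  rcases hK with hK | ⟨a, q, β, hK, ha, hq, hβ⟩
  · exact Or.inl hK
  · refine Or.inr ⟨a, q, β, ?_, ha, hq, hβ⟩
    rw [List.length_replicate]
    rcases hK with hK | hK | hK
    · exact Or.inl hK
    · refine Or.inr (Or.inl (Nat.pow_le_pow_right (Nat.succ_pos _) ?_))
      exact (Nat.pow_le_pow_right (by norm_num) hK).trans (Nat.le_add_right _ _)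
    · refine Or.inr (Or.inr ((Nat.pow_le_pow_right (by norm_num) hK).trans ?_))
      rw [Nat.mul_comm, pow_mul]
      refine (Nat.pow_le_pow_left ?_ c).trans (Nat.pow_le_pow_right (Nat.succ_pos _)
        (Nat.le_add_left _ _))
      rcases Nat.eq_zero_or_pos C.n with h0 | h0
      · rw [h0]
        simp
      · exact (Nat.pow_log_le_self 2 (by omega)).trans (Nat.le_succ _)

theorem hard_of {K : Circuit → Prop} (h : PLSReduces (fun _ => True) K) : Hard K :=
  ⟨h, OD.solver_of_red h, OD.solver_mono fun _ _ => trivial⟩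

theorem window_length (C : Circuit) : C.Window C.outs.length :=
  fun i _ => ⟨0, fun j hj _ => ⟨Nat.zero_le _, by omega⟩⟩

theorem arity_n (C : Circuit) : C.Arity C.n :=
  fun j _ => ⟨Finset.range C.n, by simp, fun i hi _ => Finset.mem_range.2 hi⟩

theorem influence_window {C : Circuit} {β : ℕ} (h : C.Window β) : C.Influence β := by
  intro i hi
  obtain ⟨a, ha⟩ := h i hi
  refine ⟨Finset.Ico a (a + β), by simp, fun j hj hij => ?_⟩
  rw [Finset.mem_Ico]
  exact ha j hj hij

theorem hard_influence (κ : ℕ) (hκ : 0 < κ) :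
    Hard (Circuit.Bounded fun n _ q β => q ≤ 3 ∧ β ^ κ ≤ n) := by
  refine hard_of (mono (fun C h => ?_) (pad_red κ hκ (fun C N hC hn hN h =>
    padc_influence hC hn hN h) IN.hard))
  exact ⟨C.n, 3, C.outs.length, ⟨le_rfl, h.2⟩, arity_n C, h.1, window_length C⟩

theorem hard_arity (κ : ℕ) (hκ : 0 < κ) :
    Hard (Circuit.Bounded fun n a _ β => a ≤ 3 ∧ β ^ κ ≤ n) := by
  refine hard_of (mono (fun C h => ?_) (hard_three_window κ hκ))
  obtain ⟨β, h1, h2, h3⟩ := h
  exact ⟨3, β, β, ⟨le_rfl, h1⟩, h2, influence_window h3, h3⟩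

theorem hard_window (κ : ℕ) (hκ : 0 < κ) :
    Hard (Circuit.Bounded fun n a _ β => a ^ κ ≤ n ∧ κ * β ≤ Nat.log 2 n) := by
  refine hard_of (mono (fun C h => ?_) (hard_log κ hκ))
  obtain ⟨a, β, h1, h2, h3, h4⟩ := h
  exact ⟨a, β, β, ⟨h1, h2⟩, h3, influence_window h4, h4⟩

end Pool.Agent.MPa0a715.BW
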