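import Pool.Agent.Lib.MP_a0a715_lc_BW.Defs
import Pool.Agent.Lib.MP_a0a715_lc.Easy

/-!
# Influences in windows of constant size: the algorithm

The outputs are divided into blocks of `β` consecutive positions, numbered from `1` on. A level
`s i` is guessed for every input `i`, at first `0`, with the meaning that `i` influences only the
blocks `s i` and `s i - 1`. By dynamic programming we find a local minimum of the modified costs,
in which block `t` is computed from the inputs of the levels `t` and `t + 1` only. If some test
shows that input `i` influences a block above `s i`, then `s i` is increased.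
-/

namespace Pool.Agent.MPa0a715.BW

open Pool.Agent.MPa0a715 Pool.Agent.PolyTime

/-- keep the bits in the positions satisfying `f` -/
def msk (x : List Bool) (f : ℕ → Bool) : List Bool :=
  (List.range x.length).map fun i => x.getD i false && f i

/-- value of block `t` of the outputs -/
def blk (C : Circuit) (β t : ℕ) (x : List Bool) : ℕ :=
  if t = 0 then 0 else val (((C.out x).drop (β * (t - 1))).take β)

/-- is `i` in level `t` or `t + 1`? -/
def inL (s : List ℕ) (t i : ℕ) : Bool :=
  decide (s.getD i 0 = t) || decide (s.getD i 0 = t + 1)

/-- value of block `t`, reading only the levels `t` and `t + 1` -/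
def Fv (C : Circuit) (β : ℕ) (s : List ℕ) (t : ℕ) (x : List Bool) : ℕ :=
  blk C β t (msk x (inL s t))

/-- flipping bit `i` improves the values of the blocks `t`, `t - 1` -/
def imp (C : Circuit) (β : ℕ) (s : List ℕ) (t : ℕ) (z : List Bool) (i : ℕ) : Bool :=
  decide (Fv C β s t (flip z i) < Fv C β s t z) ||
    (decide (Fv C β s t (flip z i) = Fv C β s t z) &&
      decide (Fv C β s (t - 1) (flip z i) < Fv C β s (t - 1) z))

/-- level `t` is stuck -/
def stk (C : Circuit) (β : ℕ) (s : List ℕ) (t : ℕ) (z : List Bool) : Bool :=
  (List.range C.n).all fun i => !(decide (s.getD i 0 = t)) || !(imp C β s t z i)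

/-- add all flips of bits of level `t` -/
def grow (n : ℕ) (s : List ℕ) (t : ℕ) (L : List (List Bool)) : List (List Bool) :=
  L ++ L.flatMap fun x => ((List.range n).filter fun i => decide (s.getD i 0 = t)).map fun i =>
    flip x i

/-- one round of the search for candidates -/
def crd (n : ℕ) (s : List ℕ) (t : ℕ) (w : List Unit) (L : List (List Bool)) :
    List (List Bool) :=
  if (grow n s t L).length ≤ w.length then grow n s t L else L

/-- add the flips of bit `i` -/
def dbl (w : List Unit) (L : List (List Bool)) (i : ℕ) : List (List Bool) :=
  if 2 * L.length ≤ w.length then L ++ L.map fun x => flip x i else L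

/-- the vectors in level `t` with few ones -/
def cand1 (n : ℕ) (s : List ℕ) (t : ℕ) (w : List Unit) : List (List Bool) :=
  (List.range w.length).foldl (fun L _ => crd n s t w L) [zeros n]

/-- all vectors in level `t`, if there are not too many -/
def cand2 (n : ℕ) (s : List ℕ) (t : ℕ) (w : List Unit) : List (List Bool) :=
  ((List.range n).filter fun i => decide (s.getD i 0 = t)).foldl (dbl w) [zeros n]

/-- candidates for level `t` -/
def cands (n : ℕ) (s : List ℕ) (t : ℕ) (w : List Unit) : List (List Bool) :=
  cand1 n s t w ++ cand2 n s t w

/-- bitwise disjunction -/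
def bor (x y : List Bool) : List Bool := (x.zip y).map fun p => p.1 || p.2

/-- the first vector with given level `t` for which level `t` is stuck -/
def fnd (C : Circuit) (β : ℕ) (s : List ℕ) (t : ℕ) (T : List (List Bool)) (c b : List Bool) :
    Option (List Bool) :=
  (T.map fun y => bor y c).find? fun z =>
    decide (msk z (fun i => decide (s.getD i 0 = t)) = b) && stk C β s t z

/-- one stage of the dynamic program -/
def stage (C : Circuit) (β : ℕ) (s : List ℕ) (w : List Unit) (T : List (List Bool)) (t : ℕ) :
    List (List Bool) :=
  (cands C.n s (t + 1) w).flatMap fun c => (cands C.n s t w).flatMap fun b =>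
    (fnd C β s t T c b).toList

/-- the table of the dynamic program -/
def tab (C : Circuit) (β : ℕ) (s : List ℕ) (w : List Unit) (k : ℕ) : List (List Bool) :=
  (List.range k).foldl (fun T t => stage C β s w T t) [zeros C.n]

/-- a local minimum of the modified costs -/
def pick (C : Circuit) (β : ℕ) (s : List ℕ) (w : List Unit) : List Bool :=
  (tab C β s w (C.outs.length + 1)).headD (zeros C.n)

/-- the inputs used for testing the levels of the inputs -/
def tests (C : Circuit) (s : List ℕ) (x : List Bool) : List (List Bool) :=
  (x :: (List.range C.n).map fun i => flip x i).flatMap fun y =>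
    (List.range (C.outs.length + 1)).flatMap fun t =>
      (List.range (C.n + 1)).map fun l => msk y fun p => !(decide (p < l)) || inL s t p

/-- the blocks above `s i` in which flipping bit `i` in `z` changes an output -/
def bad (C : Circuit) (β : ℕ) (s : List ℕ) (i : ℕ) (z : List Bool) : List ℕ :=
  ((List.range C.outs.length).filter fun j =>
    (Bool.xor ((C.out (flip z i)).getD j false) ((C.out z).getD j false)) &&
      decide (s.getD i 0 < j / β + 1)).map fun j => j / β + 1

/-- increase the levels if necessary -/
def upd (C : Circuit) (β : ℕ) (s : List ℕ) (x : List Bool) : List ℕ :=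
  (List.range C.n).map fun i =>
    ((tests C s x).flatMap fun z => bad C β s i z).headD (s.getD i 0)

/-- the levels found -/
def lvl (C : Circuit) (β : ℕ) (w : List Unit) : List ℕ :=
  (List.range (C.n * C.outs.length + 1)).foldl (fun s _ => upd C β s (pick C β s w))
    ((List.range C.n).map fun _ => 0)

/-- the solver -/
def solve (C : Circuit) (β : ℕ) (w : List Unit) : List Bool := pick C β (lvl C β w) w

end Pool.Agent.MPa0a715.BW
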