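import Mathlib

/-!
# Layered systems: sparse local minima exist

The bits `i < n` are arranged in levels `s i`. For every level `t` there is a value `F t v < W`,
depending only on the bits in the levels `t` and `t + 1`. A level `t ≥ 1` is stuck if no flip of a
bit of this level makes the pair `(F t, F (t - 1))` lexicographically smaller. Then there is a
vector for which all levels are stuck and which has few ones in every level.
-/

namespace Pool.Agent.MPa0a715.BW

/-- flip a bit -/
def fl (v : ℕ → Bool) (i : ℕ) : ℕ → Bool := fun j => if j = i then !v j else v j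

/-- two vectors agree on the bits of the levels satisfying `p` -/
def Ag (n : ℕ) (s : ℕ → ℕ) (p : ℕ → Prop) (u v : ℕ → Bool) : Prop :=
  ∀ i < n, p (s i) → u i = v i

/-- number of positions of level `t` in which two vectors differ -/
def dst (n : ℕ) (s : ℕ → ℕ) (t : ℕ) (u v : ℕ → Bool) : ℕ :=
  ((Finset.range n).filter fun i => s i = t ∧ u i ≠ v i).card

/-- number of ones in level `t` -/
def wt (n : ℕ) (s : ℕ → ℕ) (t : ℕ) (u : ℕ → Bool) : ℕ :=
  ((Finset.range n).filter fun i => s i = t ∧ u i = true).card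

/-- level `t` is stuck -/
def Stuck (n : ℕ) (s : ℕ → ℕ) (F : ℕ → (ℕ → Bool) → ℕ) (t : ℕ) (v : ℕ → Bool) : Prop :=
  ∀ i < n, s i = t → ¬ (F t (fl v i) < F t v ∨
    (F t (fl v i) = F t v ∧ F (t - 1) (fl v i) < F (t - 1) v))

section
variable {n : ℕ} {s : ℕ → ℕ} {F : ℕ → (ℕ → Bool) → ℕ} {W : ℕ}

theorem dst_self (t : ℕ) (u : ℕ → Bool) : dst n s t u u = 0 := by
  unfold dst
  simp

theorem dst_triangle (t : ℕ) (u v w : ℕ → Bool) :
    dst n s t u w ≤ dst n s t u v + dst n s t v w := by
  unfold dst
  refine (Finset.card_le_card ?_).trans (Finset.card_union_le _ _)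
  intro i hi
  rw [Finset.mem_union, Finset.mem_filter, Finset.mem_filter]
  rw [Finset.mem_filter] at hi
  obtain ⟨h1, h2, h3⟩ := hi
  by_cases h : u i = v i
  · right
    exact ⟨h1, h2, fun h' => h3 (h.trans h')⟩
  · left
    exact ⟨h1, h2, h⟩

theorem wt_le (t : ℕ) (u v : ℕ → Bool) : wt n s t u ≤ wt n s t v + dst n s t u v := by
  unfold wt dst
  refine (Finset.card_le_card ?_).trans (Finset.card_union_le _ _)
  intro i hi
  rw [Finset.mem_union, Finset.mem_filter, Finset.mem_filter]
  rw [Finset.mem_filter] at hi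
  obtain ⟨h1, h2, h3⟩ := hi
  by_cases h : u i = v i
  · left
    exact ⟨h1, h2, by rw [← h, h3]⟩
  · right
    exact ⟨h1, h2, h⟩

theorem dst_fl (t : ℕ) (u : ℕ → Bool) (i : ℕ) : dst n s t (fl u i) u ≤ 1 := by
  unfold dst
  refine (Finset.card_le_card (t := {i}) ?_).trans (by simp)
  intro j hj
  rw [Finset.mem_filter] at hj
  rw [Finset.mem_singleton]
  by_contra h
  apply hj.2.2
  unfold fl
  rw [if_neg h]

theorem dst_congr_left {t : ℕ} {u u' v : ℕ → Bool} (h : Ag n s (fun l => l = t) u u') :
    dst n s t u v = dst n s t u' v := by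
  unfold dst
  congr 1
  refine Finset.filter_congr fun i hi => ?_
  rw [Finset.mem_range] at hi
  constructor
  · rintro ⟨h1, h2⟩
    exact ⟨h1, by rw [← h i hi h1]; exact h2⟩
  · rintro ⟨h1, h2⟩
    exact ⟨h1, by rw [h i hi h1]; exact h2⟩

theorem wt_congr {t : ℕ} {u v : ℕ → Bool} (h : Ag n s (fun l => l = t) u v) :
    wt n s t u = wt n s t v := by
  unfold wt
  congr 1
  refine Finset.filter_congr fun i hi => ?_
  rw [Finset.mem_range] at hi
  constructor
  · rintro ⟨h1, h2⟩
    exact ⟨h1, by rw [← h i hi h1]; exact h2⟩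
  · rintro ⟨h1, h2⟩
    exact ⟨h1, by rw [h i hi h1]; exact h2⟩

theorem Ag.trans {p : ℕ → Prop} {u v w : ℕ → Bool} (h : Ag n s p u v) (h' : Ag n s p v w) :
    Ag n s p u w := fun i hi hp => (h i hi hp).trans (h' i hi hp)

theorem Ag.symm {p : ℕ → Prop} {u v : ℕ → Bool} (h : Ag n s p u v) : Ag n s p v u :=
  fun i hi hp => (h i hi hp).symm

theorem Ag.mono {p q : ℕ → Prop} {u v : ℕ → Bool} (h : Ag n s p u v) (hq : ∀ l, q l → p l) :
    Ag n s q u v := fun i hi hp => h i hi (hq _ hp)

theorem Ag.fl {p : ℕ → Prop} {u v : ℕ → Bool} (h : Ag n s p u v) (i : ℕ) :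
    Ag n s p (fl u i) (fl v i) := by
  intro j hj hp
  unfold BW.fl
  rw [h j hj hp]

/-- the values depend on two levels only -/
def Loc (n : ℕ) (s : ℕ → ℕ) (F : ℕ → (ℕ → Bool) → ℕ) : Prop :=
  ∀ (t : ℕ) (u v : ℕ → Bool), Ag n s (fun l => l = t ∨ l = t + 1) u v → F t u = F t v

theorem Loc.stuck (hF : Loc n s F) (h0 : ∀ u v, F 0 u = F 0 v) {t : ℕ} {u v : ℕ → Bool}
    (h : Ag n s (fun l => l + 1 = t ∨ l = t ∨ l = t + 1) u v)
    (hu : Stuck n s F t u) : Stuck n s F t v := by
  intro i hi ht
  have e1 : F t u = F t v := hF t u v (h.mono fun l hl => by omega)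
  have e2 : F t (BW.fl u i) = F t (BW.fl v i) := hF t _ _ ((h.mono fun l hl => by omega).fl i)
  have e3 : F (t - 1) u = F (t - 1) v := by
    rcases Nat.eq_zero_or_pos t with h' | h'
    · subst h'
      exact h0 _ _
    · exact hF _ u v (h.mono fun l hl => by omega)
  have e4 : F (t - 1) (BW.fl u i) = F (t - 1) (BW.fl v i) := by
    rcases Nat.eq_zero_or_pos t with h' | h'
    · subst h'
      exact h0 _ _
    · exact hF _ _ _ ((h.mono fun l hl => by omega).fl i)
  rw [← e1, ← e2, ← e3, ← e4]
  exact hu i hi ht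

/-- the bits of level `0` do not matter -/
theorem Loc.stuck_pos (hF : Loc n s F) (h0 : ∀ u v, F 0 u = F 0 v) {t : ℕ} {u v : ℕ → Bool}
    (h : Ag n s (fun l => 0 < l) u v) (hu : Stuck n s F t u) : Stuck n s F t v := by
  have key : ∀ (j : ℕ) (u v : ℕ → Bool), Ag n s (fun l => 0 < l) u v → F j u = F j v := by
    intro j u v h
    rcases Nat.eq_zero_or_pos j with h' | h'
    · subst h'
      exact h0 _ _
    · exact hF _ u v (h.mono fun l hl => by omega)
  intro i hi ht
  rw [← key t u v h, ← key (t - 1) u v h, ← key t _ _ (h.fl i), ← key (t - 1) _ _ (h.fl i)]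
  exact hu i hi ht

/-- set the levels up to `t` to zero -/
def cut (s : ℕ → ℕ) (t : ℕ) (v : ℕ → Bool) : ℕ → Bool := fun i => decide (t < s i) && v i

theorem cut_ag (t : ℕ) (v : ℕ → Bool) : Ag n s (fun l => t < l) (cut s t v) v := by
  intro i _ h
  unfold cut
  rw [decide_eq_true h, Bool.true_and]

theorem wt_cut {t : ℕ} (v : ℕ → Bool) : wt n s t (cut s t v) = 0 := by
  unfold wt cut
  rw [Finset.card_eq_zero, Finset.filter_eq_empty_iff]
  rintro i _ ⟨h1, h2⟩
  rw [decide_eq_false (by omega), Bool.false_and] at h2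
  exact Bool.false_ne_true h2

/-- every vector can be changed in the levels up to `t` so that these are stuck, without
increasing the value of level `t` and changing few bits in level `t`, with few ones in the
levels below. -/
theorem claim (hW : 0 < W) (hF : Loc n s F) (h0 : ∀ u v, F 0 u = F 0 v)
    (hlt : ∀ t u, F t u < W) (t : ℕ) : ∀ x : ℕ → Bool, ∃ y : ℕ → Bool,
      Ag n s (fun l => t < l) y x ∧ F t y ≤ F t x ∧ dst n s t y x ≤ W ^ 2 - 1 ∧
      (∀ j ≤ t, Stuck n s F j y) ∧ ∀ j < t, 0 < j → wt n s j y ≤ W * (W ^ 2 - 1) := by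
  induction t with
  | zero =>
    intro x
    refine ⟨x, fun i _ _ => rfl, le_rfl, by rw [dst_self]; omega, fun j hj i _ _ h => ?_,
      fun j hj => absurd hj (Nat.not_lt_zero j)⟩
    have hj0 : j = 0 := by omega
    subst hj0
    have e1 := h0 (BW.fl x i) x
    have e2 : F (0 - 1) (BW.fl x i) = F (0 - 1) x := h0 _ _
    omega
  | succ t ih =>
    intro x
    have hWW : W ≤ W ^ 2 := by
      rw [pow_two]
      exact Nat.le_mul_of_pos_left W hW
    -- the admissible vectors
    let P : ℕ → Prop := fun μ => ∃ y : ℕ → Bool, μ = F (t + 1) y * W + F t y ∧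
      Ag n s (fun l => t + 1 < l) y x ∧ F (t + 1) y ≤ F (t + 1) x ∧
      dst n s (t + 1) y x + μ ≤ W ^ 2 - 1 ∧ (∀ j ≤ t, Stuck n s F j y) ∧
      (∀ j < t, 0 < j → wt n s j y ≤ W * (W ^ 2 - 1)) ∧
      (0 < t → wt n s t y ≤ (W - F t y) * (W ^ 2 - 1))
    -- restarting at a vector
    have restart : ∀ z : ℕ → Bool, Ag n s (fun l => t + 1 < l) z x →
        F (t + 1) z ≤ F (t + 1) x → dst n s (t + 1) z x + F (t + 1) z * W + (W - 1) ≤ W ^ 2 - 1 →
        ∃ μ, P μ ∧ μ < F (t + 1) z * W + W := by
      intro z hz1 hz2 hz3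
      obtain ⟨w, a1, a2, a3, a4, a5⟩ := ih (cut s t z)
      have b1 : Ag n s (fun l => t < l) w z := a1.trans (cut_ag t z)
      have b2 : F (t + 1) w = F (t + 1) z := hF _ _ _ (b1.mono fun l hl => by omega)
      have b3 : dst n s (t + 1) w x = dst n s (t + 1) z x :=
        dst_congr_left (b1.mono fun l hl => by omega)
      have b4 := hlt t w
      refine ⟨F (t + 1) w * W + F t w, ⟨w, rfl, (b1.mono fun l hl => by omega).trans hz1, ?_, ?_,
        a4, a5, fun _ => ?_⟩, ?_⟩
      · rw [b2]
        exact hz2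
      · rw [b2, b3]
        omega
      · have c1 := wt_le (n := n) (s := s) t w (cut s t z)
        rw [wt_cut] at c1
        have c2 : 1 * (W ^ 2 - 1) ≤ (W - F t w) * (W ^ 2 - 1) :=
          Nat.mul_le_mul_right _ (by omega)
        omega
      · rw [b2]
        omega
    have hex : ∃ μ, P μ := by
      have h1 := hlt (t + 1) x
      have h2 : (F (t + 1) x + 1) * W ≤ W * W := Nat.mul_le_mul_right W h1
      obtain ⟨μ, h3, _⟩ := restart x (fun i _ _ => rfl) le_rfl (by
        rw [dst_self, pow_two]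
        rw [Nat.add_one_mul] at h2
        omega)
      exact ⟨μ, h3⟩
    classical
    obtain ⟨y, c0, c1, c2, c3, c4, c5, c6⟩ := Nat.find_spec hex
    have hmin : ∀ μ, P μ → Nat.find hex ≤ μ := fun μ hμ => Nat.find_min' hex hμ
    set μ0 := Nat.find hex with hμ0
    have hst : Stuck n s F (t + 1) y := by
      intro i hi hsi hcon
      rw [Nat.add_sub_cancel] at hcon
      have d1 : Ag n s (fun l => t + 1 < l) (BW.fl y i) y := by
        intro j _ hj
        unfold BW.fl
        rw [if_neg (fun h => by rw [h, hsi] at hj; omega)]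
      have d2 := dst_triangle (n := n) (s := s) (t + 1) (BW.fl y i) y x
      have d3 := dst_fl (n := n) (s := s) (t + 1) y i
      rcases hcon with hA | ⟨hB1, hB2⟩
      · have e1 : (F (t + 1) (BW.fl y i) + 1) * W ≤ F (t + 1) y * W :=
          Nat.mul_le_mul_right W hA
        rw [Nat.add_one_mul] at e1
        obtain ⟨μ, h3, h4⟩ := restart (BW.fl y i) (d1.trans c1) (by omega) (by omega)
        have := hmin μ h3
        omega
      · obtain ⟨w, a1, a2, a3, a4, a5⟩ := ih (BW.fl y i)
        have b2 : F (t + 1) w = F (t + 1) (BW.fl y i) :=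
          hF _ _ _ (a1.mono fun l hl => by omega)
        have b3 : dst n s (t + 1) w x = dst n s (t + 1) (BW.fl y i) x :=
          dst_congr_left (a1.mono fun l hl => by omega)
        have h3 : P (F (t + 1) w * W + F t w) := by
          refine ⟨w, rfl, ((a1.mono fun l hl => by omega).trans d1).trans c1, ?_, ?_, a4, a5, ?_⟩
          · rw [b2, hB1]
            exact c2
          · rw [b2, b3, hB1]
            omega
          · intro ht
            have f1 := c6 ht
            have f2 := wt_le (n := n) (s := s) t w (BW.fl y i)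
            have f3 : wt n s t (BW.fl y i) = wt n s t y := by
              refine wt_congr fun j _ hj => ?_
              unfold BW.fl
              rw [if_neg (fun h => by rw [h, hsi] at hj; omega)]
            have f4 := hlt t y
            have f5 : (W - F t y + 1) * (W ^ 2 - 1) ≤ (W - F t w) * (W ^ 2 - 1) :=
              Nat.mul_le_mul_right _ (by omega)
            rw [Nat.add_one_mul] at f5
            omega
        have h5 := hmin _ h3
        rw [b2, hB1] at h5
        omega
    refine ⟨y, c1, c2, by omega, fun j hj => ?_, fun j hj hj0 => ?_⟩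
    · rcases Nat.lt_or_eq_of_le hj with h | h
      · exact c4 j (by omega)
      · rw [h]
        exact hst
    · rcases Nat.lt_or_eq_of_le (Nat.le_of_lt_succ hj) with h | h
      · exact c5 j h hj0
      · rw [h]
        exact (c6 (by omega)).trans (Nat.mul_le_mul_right _ (Nat.sub_le _ _))

/-- there is a vector with few ones in every level for which all levels are stuck -/
theorem exists_sparse (hW : 0 < W) (hF : Loc n s F) (h0 : ∀ u v, F 0 u = F 0 v)
    (hlt : ∀ t u, F t u < W) (K : ℕ) : ∃ y : ℕ → Bool,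
      (∀ j ≤ K, Stuck n s F j y) ∧ ∀ j ≤ K, 0 < j → wt n s j y ≤ W * (W ^ 2 - 1) := by
  obtain ⟨y, _, _, h3, h4, h5⟩ := claim hW hF h0 hlt K (fun _ => false)
  refine ⟨y, h4, fun j hj hj0 => ?_⟩
  rcases Nat.lt_or_eq_of_le hj with h | h
  · exact h5 j h hj0
  · subst h
    have h6 := wt_le (n := n) (s := s) j y (fun _ => false)
    have h7 : wt n s j (fun _ => false) = 0 := by
      unfold wt
      simp
    have h8 : 1 * (W ^ 2 - 1) ≤ W * (W ^ 2 - 1) := Nat.mul_le_mul_right _ hW
    omega

end

end Pool.Agent.MPa0a715.BW
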