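import Pool.Agent.Lib.MP_a0a715_lc_BW.Algo
import Pool.Agent.Lib.MP_a0a715_lc_BW.Claim

/-!
# Correctness of the dynamic program
-/

namespace Pool.Agent.MPa0a715.BW

open Pool.Agent.MPa0a715 Pool.Agent.PolyTime

/-- the function given by a list -/
def fn (x : List Bool) : ℕ → Bool := fun i => x.getD i false

/-- the level of an input -/
def lev (s : List ℕ) : ℕ → ℕ := fun i => s.getD i 0

theorem fn_map {n : ℕ} (v : ℕ → Bool) {i : ℕ} (hi : i < n) : fn ((List.range n).map v) i = v i := by
  unfold fn
  rw [List.getD_eq_getElem _ _ (by simpa using hi), List.getElem_map, List.getElem_range]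

theorem map_fn {n : ℕ} {x : List Bool} (hx : x.length = n) : (List.range n).map (fn x) = x := by
  refine ext_getD (by simp [hx]) fun i hi => ?_
  have hi' : i < n := by simpa using hi
  exact fn_map (fn x) hi'

theorem fn_flip {x : List Bool} {i : ℕ} (hi : i < x.length) : fn (flip x i) = fl (fn x) i := by
  funext j
  unfold fn fl
  by_cases hj : j < x.length
  · rw [getD_flip _ _ _ hj]
    by_cases h : i = j
    · rw [if_pos h, if_pos h.symm]
    · rw [if_neg h, if_neg fun h' => h h'.symm]
  · rw [List.getD_eq_default _ _ (by rw [length_flip]; omega), if_neg (by omega)]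
    exact (List.getD_eq_default _ _ (by omega)).symm

theorem length_msk (x : List Bool) (f : ℕ → Bool) : (msk x f).length = x.length := by
  unfold msk
  simp

theorem fn_msk {x : List Bool} {f : ℕ → Bool} {i : ℕ} (hi : i < x.length) :
    fn (msk x f) i = (fn x i && f i) := by
  unfold msk
  exact fn_map _ hi

theorem msk_congr {x y : List Bool} {f : ℕ → Bool} (hl : x.length = y.length)
    (h : ∀ i < x.length, f i = true → fn x i = fn y i) : msk x f = msk y f := by
  refine ext_getD (by rw [length_msk, length_msk, hl]) fun i hi => ?_
  rw [length_msk] at hi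
  have h1 := fn_msk (f := f) hi
  have h2 := fn_msk (f := f) (x := y) (i := i) (by omega)
  unfold fn at h1 h2 h
  rw [h1, h2]
  cases hf : f i
  · rw [Bool.and_false, Bool.and_false]
  · rw [h i hi hf]

theorem inL_iff {s : List ℕ} {t i : ℕ} : inL s t i = true ↔ lev s i = t ∨ lev s i = t + 1 := by
  unfold inL lev
  rw [Bool.or_eq_true, decide_eq_true_eq, decide_eq_true_eq]

theorem blk_lt (C : Circuit) (β t : ℕ) (x : List Bool) : blk C β t x < 2 ^ β := by
  unfold blk
  split_ifs
  · exact Nat.two_pow_pos β
  · refine (val_lt _).trans_le (Nat.pow_le_pow_right (by norm_num) ?_)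
    rw [List.length_take]
    exact Nat.min_le_left _ _

theorem blk_zero (C : Circuit) (β : ℕ) (x : List Bool) : blk C β 0 x = 0 := rfl

section
variable {C : Circuit} {β : ℕ} {s : List ℕ}

/-- the values as functions of vectors -/
def FF (C : Circuit) (β : ℕ) (s : List ℕ) (t : ℕ) (v : ℕ → Bool) : ℕ :=
  Fv C β s t ((List.range C.n).map v)

theorem FF_fn {x : List Bool} (hx : x.length = C.n) (t : ℕ) :
    FF C β s t (fn x) = Fv C β s t x := by
  unfold FF
  rw [map_fn hx]

theorem FF_fl {x : List Bool} (hx : x.length = C.n) (t : ℕ) {i : ℕ} (hi : i < C.n) :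
    FF C β s t (fl (fn x) i) = Fv C β s t (flip x i) := by
  rw [← fn_flip (by omega), FF_fn (by rw [length_flip, hx])]

theorem FF_loc : Loc C.n (lev s) (FF C β s) := by
  intro t u v h
  unfold FF Fv
  congr 1
  refine msk_congr (by simp) fun i hi hf => ?_
  rw [List.length_map, List.length_range] at hi
  rw [fn_map _ hi, fn_map _ hi]
  exact h i hi (inL_iff.1 hf)

theorem FF_zero (u v : ℕ → Bool) : FF C β s 0 u = FF C β s 0 v := rfl

theorem FF_lt (t : ℕ) (u : ℕ → Bool) : FF C β s t u < 2 ^ β := blk_lt _ _ _ _

theorem stuck_iff {z : List Bool} (hz : z.length = C.n) (t : ℕ) :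
    Stuck C.n (lev s) (FF C β s) t (fn z) ↔ stk C β s t z = true := by
  unfold Stuck stk
  rw [List.all_eq_true]
  refine forall_congr' fun i => ?_
  rw [List.mem_range]
  refine imp_congr_right fun hi => ?_
  rw [Bool.or_eq_true, Bool.not_eq_true', Bool.not_eq_true', decide_eq_false_iff_not,
    FF_fn hz, FF_fn hz, FF_fl hz _ hi, FF_fl hz _ hi]
  unfold imp lev
  rw [Bool.or_eq_false_iff, decide_eq_false_iff_not, Bool.and_eq_false_iff,
    decide_eq_false_iff_not, decide_eq_false_iff_not]
  tauto

/-! ### candidates -/

theorem mem_grow {n t : ℕ} {L : List (List Bool)} {x : List Bool} : x ∈ grow n s t L ↔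
    x ∈ L ∨ ∃ y ∈ L, ∃ i < n, lev s i = t ∧ flip y i = x := by
  unfold grow lev
  rw [List.mem_append, List.mem_flatMap]
  refine or_congr_right (exists_congr fun y => and_congr_right fun _ => ?_)
  rw [List.mem_map]
  refine exists_congr fun i => ?_
  rw [List.mem_filter, List.mem_range, decide_eq_true_eq]
  tauto

theorem mem_crd {n t : ℕ} {w : List Unit} {L : List (List Bool)} {x : List Bool}
    (h : x ∈ crd n s t w L) : x ∈ grow n s t L := by
  unfold crd at h
  split_ifs at h
  · exact h
  · exact mem_grow.2 (Or.inl h)

theorem sub_crd {n t : ℕ} {w : List Unit} {L : List (List Bool)} {x : List Bool}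
    (h : x ∈ L) : x ∈ crd n s t w L := by
  unfold crd
  split_ifs
  · exact mem_grow.2 (Or.inl h)
  · exact h

/-- the rounds of the search -/
def crds (n : ℕ) (s : List ℕ) (t : ℕ) (w : List Unit) (r : ℕ) : List (List Bool) :=
  (List.range r).foldl (fun L _ => crd n s t w L) [zeros n]

theorem crds_succ (n t : ℕ) (w : List Unit) (r : ℕ) :
    crds n s t w (r + 1) = crd n s t w (crds n s t w r) := by
  unfold crds
  rw [List.range_succ, List.foldl_append]
  rfl

theorem crds_sub {n t : ℕ} {w : List Unit} (r : ℕ) : ∀ x ∈ crds n s t w r,
    x.length = n ∧ ∀ i < n, fn x i = true → lev s i = t := by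
  induction r with
  | zero =>
    intro x hx
    have hx' : x = zeros n := List.mem_singleton.1 hx
    subst hx'
    refine ⟨length_zeros n, fun i _ h => ?_⟩
    unfold fn at h
    rw [zeros_getD] at h
    exact absurd h Bool.false_ne_true
  | succ r ih =>
    intro x hx
    rw [crds_succ] at hx
    rcases mem_grow.1 (mem_crd hx) with h | ⟨y, hy, i, hi, hit, rfl⟩
    · exact ih x h
    · obtain ⟨h1, h2⟩ := ih y hy
      refine ⟨by rw [length_flip, h1], fun j hj h => ?_⟩
      rw [fn_flip (by omega)] at h
      unfold fl at h
      by_cases hji : j = i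
      · rw [hji]
        exact hit
      · rw [if_neg hji] at h
        exact h2 j hj h

theorem length_grow (n t : ℕ) (L : List (List Bool)) :
    (grow n s t L).length ≤ L.length * (n + 1) := by
  unfold grow
  rw [List.length_append]
  have h : ∀ L : List (List Bool), (L.flatMap fun x => ((List.range n).filter fun i =>
      decide (s.getD i 0 = t)).map fun i => flip x i).length ≤ L.length * n := by
    intro L
    induction L with
    | nil => simp
    | cons a L ih =>
      rw [List.flatMap_cons, List.length_append, List.length_map, List.length_cons,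
        Nat.add_one_mul]
      have := List.length_filter_le (fun i => decide (s.getD i 0 = t)) (List.range n)
      rw [List.length_range] at this
      omega
  have := h L
  rw [Nat.mul_add_one]
  omega

theorem wt_zero {n t : ℕ} {x : List Bool} (hx : x.length = n)
    (h : ∀ i < n, fn x i = true → lev s i = t) (h0 : wt n (lev s) t (fn x) = 0) :
    x = zeros n := by
  refine ext_getD (by rw [length_zeros, hx]) fun i hi => ?_
  rw [zeros_getD, ← Bool.not_eq_true]
  intro hcon
  unfold wt at h0
  rw [Finset.card_eq_zero, Finset.filter_eq_empty_iff] at h0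
  exact h0 (Finset.mem_range.2 (by omega)) ⟨h i (by omega) hcon, hcon⟩

theorem wt_flip {n t : ℕ} {x : List Bool} (hx : x.length = n) {i : ℕ} (hi : i < n)
    (hit : lev s i = t) (h1 : fn x i = true) :
    wt n (lev s) t (fn (flip x i)) + 1 = wt n (lev s) t (fn x) := by
  unfold wt
  have hmem : i ∈ (Finset.range n).filter fun j => lev s j = t ∧ fn x j = true :=
    Finset.mem_filter.2 ⟨Finset.mem_range.2 hi, hit, h1⟩
  rw [← Finset.card_erase_add_one hmem]
  congr 2
  ext j
  rw [Finset.mem_erase, Finset.mem_filter, Finset.mem_filter, fn_flip (by omega)]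
  unfold fl
  by_cases hj : j = i
  · subst hj
    rw [if_pos rfl, h1]
    simp
  · rw [if_neg hj]
    simp [hj]

/-- all sparse vectors are found -/
theorem crds_mem {n t R : ℕ} {w : List Unit} (hw : (n + 1) ^ R ≤ w.length) (r : ℕ) (hr : r ≤ R) :
    (crds n s t w r).length ≤ (n + 1) ^ r ∧ ∀ x : List Bool, x.length = n →
      (∀ i < n, fn x i = true → lev s i = t) → wt n (lev s) t (fn x) ≤ r →
      x ∈ crds n s t w r := by
  induction r with
  | zero =>
    refine ⟨by simp [crds], fun x hx h h0 => ?_⟩
    rw [wt_zero hx h (by omega)]
    exact List.mem_singleton.2 rfl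
  | succ r ih =>
    obtain ⟨ih1, ih2⟩ := ih (by omega)
    have h1 : (grow n s t (crds n s t w r)).length ≤ (n + 1) ^ (r + 1) := by
      refine (length_grow n t _).trans ?_
      rw [pow_succ]
      exact Nat.mul_le_mul_right _ ih1
    have h2 : (n + 1) ^ (r + 1) ≤ w.length :=
      (Nat.pow_le_pow_right (Nat.succ_pos n) hr).trans hw
    have h3 : crds n s t w (r + 1) = grow n s t (crds n s t w r) := by
      rw [crds_succ]
      unfold crd
      rw [if_pos (h1.trans h2)]
    rw [h3]
    refine ⟨h1, fun x hx h h0 => mem_grow.2 ?_⟩
    rcases Nat.lt_or_ge r (wt n (lev s) t (fn x)) with h4 | h4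
    · right
      obtain ⟨i, hi⟩ := Finset.card_pos.1 (show 0 < (((Finset.range n).filter fun i =>
        lev s i = t ∧ fn x i = true)).card by
          change 0 < wt n (lev s) t (fn x)
          omega)
      rw [Finset.mem_filter, Finset.mem_range] at hi
      obtain ⟨h5, h6, h7⟩ := hi
      have h8 := wt_flip hx h5 h6 h7
      refine ⟨flip x i, ih2 _ (by rw [length_flip, hx]) (fun j hj hj' => ?_) (by omega), i, h5,
        h6, flip_flip x i⟩
      rw [fn_flip (by omega)] at hj'
      unfold fl at hj'
      by_cases hji : j = i
      · rw [hji]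
        exact h6
      · rw [if_neg hji] at hj'
        exact h j hj hj'
    · left
      exact ih2 x hx h h4

theorem cand1_sub {n t : ℕ} {w : List Unit} : ∀ x ∈ cand1 n s t w,
    x.length = n ∧ ∀ i < n, fn x i = true → lev s i = t :=
  crds_sub (s := s) (t := t) (w := w) w.length

theorem cand1_mem {n t R : ℕ} {w : List Unit} (hw : (n + 1) ^ R ≤ w.length) {x : List Bool}
    (hx : x.length = n) (h : ∀ i < n, fn x i = true → lev s i = t)
    (h0 : wt n (lev s) t (fn x) ≤ R) : x ∈ cand1 n s t w := by
  have hmono : ∀ r, (zeros n ∈ crds n s t w r) ∧ ∀ r', r ≤ r' →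
      ∀ x ∈ crds n s t w r, x ∈ crds n s t w r' := by
    intro r
    constructor
    · induction r with
      | zero => exact List.mem_singleton.2 rfl
      | succ r ih =>
        rw [crds_succ]
        exact sub_crd ih
    · intro r' hr'
      induction r', hr' using Nat.le_induction with
      | base => exact fun x hx => hx
      | succ r' _ ih =>
        intro x hx
        rw [crds_succ]
        exact sub_crd (ih x hx)
  rcases Nat.eq_zero_or_pos n with hn | hn
  · have : x = zeros n := by
      rw [List.length_eq_zero_iff.1 (hx.trans hn), hn]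
      rfl
    rw [this]
    exact (hmono w.length).1
  · have h1 : R ≤ w.length := ((Nat.lt_pow_self (by omega)).le).trans hw
    exact (hmono R).2 w.length h1 x ((crds_mem hw R le_rfl).2 x hx h h0)

theorem fold_dbl {n : ℕ} {w : List Unit} (l : List ℕ) (hl : ∀ i ∈ l, i < n) :
    (∀ x ∈ l.foldl (dbl w) [zeros n], x.length = n ∧ ∀ i < n, fn x i = true → i ∈ l) ∧
    (2 ^ l.length ≤ w.length → (l.foldl (dbl w) [zeros n]).length = 2 ^ l.length ∧
      ∀ x : List Bool, x.length = n → (∀ i < n, fn x i = true → i ∈ l) →
        x ∈ l.foldl (dbl w) [zeros n]) := by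
  induction l using List.reverseRecOn with
  | nil =>
    refine ⟨fun x hx => ?_, fun _ => ⟨rfl, fun x hx h => ?_⟩⟩
    · have hx' : x = zeros n := List.mem_singleton.1 hx
      subst hx'
      refine ⟨length_zeros n, fun i _ h => ?_⟩
      unfold fn at h
      rw [zeros_getD] at h
      exact absurd h Bool.false_ne_true
    · have : x = zeros n := by
        refine ext_getD (by rw [length_zeros, hx]) fun i hi => ?_
        rw [zeros_getD, ← Bool.not_eq_true]
        intro hcon
        exact absurd (h i (by omega) hcon) List.not_mem_nil
      rw [this]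
      exact List.mem_singleton.2 rfl
  | append_singleton l k ih =>
    obtain ⟨ih1, ih2⟩ := ih fun i hi => hl i (List.mem_append_left _ hi)
    have hk : k < n := hl k (List.mem_append_right _ (List.mem_singleton.2 rfl))
    rw [List.foldl_append]
    change (∀ x ∈ dbl w (l.foldl (dbl w) [zeros n]) k, _) ∧ (_ →
      (dbl w (l.foldl (dbl w) [zeros n]) k).length = _ ∧ ∀ x : List Bool, _ → _ →
        x ∈ dbl w (l.foldl (dbl w) [zeros n]) k)
    generalize l.foldl (dbl w) [zeros n] = L at ih1 ih2
    constructor
    · intro x hx
      unfold dbl at hx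
      have hx' : x ∈ L ∨ ∃ y ∈ L, flip y k = x := by
        split_ifs at hx
        · rw [List.mem_append, List.mem_map] at hx
          exact hx
        · exact Or.inl hx
      rcases hx' with h | ⟨y, hy, rfl⟩
      · obtain ⟨h1, h2⟩ := ih1 x h
        exact ⟨h1, fun i hi hi' => List.mem_append_left _ (h2 i hi hi')⟩
      · obtain ⟨h1, h2⟩ := ih1 y hy
        refine ⟨by rw [length_flip, h1], fun i hi hi' => ?_⟩
        rw [fn_flip (by omega)] at hi'
        unfold fl at hi'
        by_cases hik : i = k
        · rw [hik]
          exact List.mem_append_right _ (List.mem_singleton.2 rfl)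
        · rw [if_neg hik] at hi'
          exact List.mem_append_left _ (h2 i hi hi')
    · intro hw
      rw [List.length_append, List.length_singleton, pow_succ] at hw
      obtain ⟨h1, h2⟩ := ih2 (by omega)
      have h3 : dbl w L k = L ++ L.map fun x => flip x k := by
        unfold dbl
        rw [if_pos (by omega)]
      rw [h3]
      refine ⟨?_, fun x hx h => ?_⟩
      · rw [List.length_append, List.length_map, List.length_append, List.length_singleton,
          pow_succ]
        omega
      · rw [List.mem_append, List.mem_map]
        by_cases hxk : k ∈ l ∨ fn x k = false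
        · left
          refine h2 x hx fun i hi hi' => ?_
          rcases List.mem_append.1 (h i hi hi') with h4 | h4
          · exact h4
          · rw [List.mem_singleton] at h4
            subst h4
            rcases hxk with h5 | h5
            · exact h5
            · rw [h5] at hi'
              exact absurd hi' Bool.false_ne_true
        · push Not at hxk
          obtain ⟨h5, h6⟩ := hxk
          have h6 : fn x k = true := by
            revert h6
            cases fn x k <;> simp
          right
          refine ⟨flip x k, h2 _ (by rw [length_flip, hx]) fun i hi hi' => ?_, flip_flip x k⟩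
          rw [fn_flip (by omega)] at hi'
          unfold fl at hi'
          by_cases hik : i = k
          · subst hik
            rw [if_pos rfl, h6] at hi'
            exact absurd hi' Bool.false_ne_true
          · rw [if_neg hik] at hi'
            rcases List.mem_append.1 (h i hi hi') with h4 | h4
            · exact h4
            · exact absurd (List.mem_singleton.1 h4) hik

theorem cand2_sub {n t : ℕ} {w : List Unit} : ∀ x ∈ cand2 n s t w,
    x.length = n ∧ ∀ i < n, fn x i = true → lev s i = t := by
  intro x hx
  obtain ⟨h1, h2⟩ := (fold_dbl (w := w) ((List.range n).filter fun i =>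
    decide (s.getD i 0 = t)) (fun i hi => List.mem_range.1 (List.mem_filter.1 hi).1)).1 x hx
  refine ⟨h1, fun i hi h => ?_⟩
  have := (List.mem_filter.1 (h2 i hi h)).2
  exact of_decide_eq_true this

theorem cand2_mem {n t : ℕ} {w : List Unit}
    (hw : 2 ^ ((Finset.range n).filter fun i => lev s i = t).card ≤ w.length) {x : List Bool}
    (hx : x.length = n) (h : ∀ i < n, fn x i = true → lev s i = t) : x ∈ cand2 n s t w := by
  have hlen : ((List.range n).filter fun i => decide (s.getD i 0 = t)).length =
      ((Finset.range n).filter fun i => lev s i = t).card := by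
    rw [← List.toFinset_card_of_nodup (List.nodup_range.filter _)]
    congr 1
    ext i
    rw [List.mem_toFinset, List.mem_filter, List.mem_range, Finset.mem_filter,
      Finset.mem_range, decide_eq_true_eq]
    rfl
  refine ((fold_dbl (w := w) ((List.range n).filter fun i =>
    decide (s.getD i 0 = t)) (fun i hi => List.mem_range.1 (List.mem_filter.1 hi).1)).2
    (by rw [hlen]; exact hw)).2 x hx fun i hi hi' => ?_
  exact List.mem_filter.2 ⟨List.mem_range.2 hi, decide_eq_true (h i hi hi')⟩

theorem zeros_mem_cands {n t : ℕ} {w : List Unit} : zeros n ∈ cands n s t w := by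
  refine List.mem_append_left _ ?_
  have hmono : ∀ r, zeros n ∈ crds n s t w r := by
    intro r
    induction r with
    | zero => exact List.mem_singleton.2 rfl
    | succ r ih =>
      rw [crds_succ]
      exact sub_crd ih
  exact hmono w.length

theorem cands_sub {n t : ℕ} {w : List Unit} : ∀ x ∈ cands n s t w,
    x.length = n ∧ ∀ i < n, fn x i = true → lev s i = t := by
  intro x hx
  rcases List.mem_append.1 hx with h | h
  · exact cand1_sub x h
  · exact cand2_sub x h

/-! ### the table -/

theorem length_bor {x y : List Bool} (h : x.length = y.length) : (bor x y).length = x.length := by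
  unfold bor
  rw [List.length_map, List.length_zip, h, Nat.min_self]

theorem fn_bor {x y : List Bool} (h : x.length = y.length) {i : ℕ} (hi : i < x.length) :
    fn (bor x y) i = (fn x i || fn y i) := by
  have h1 : i < ((x.zip y).map fun p => p.1 || p.2).length := by
    rw [List.length_map, List.length_zip, ← h, Nat.min_self]
    exact hi
  unfold fn bor
  rw [List.getD_eq_getElem _ _ h1, List.getElem_map, List.getElem_zip,
    List.getD_eq_getElem _ _ hi, List.getD_eq_getElem _ _ (by omega)]

theorem tab_succ (w : List Unit) (k : ℕ) :
    tab C β s w (k + 1) = stage C β s w (tab C β s w k) k := by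
  unfold tab
  rw [List.range_succ, List.foldl_append]
  rfl

theorem mem_stage {w : List Unit} {T : List (List Bool)} {t : ℕ} {z : List Bool} :
    z ∈ stage C β s w T t ↔ ∃ c ∈ cands C.n s (t + 1) w, ∃ b ∈ cands C.n s t w,
      fnd C β s t T c b = some z := by
  unfold stage
  rw [List.mem_flatMap]
  refine exists_congr fun c => and_congr_right fun _ => ?_
  rw [List.mem_flatMap]
  refine exists_congr fun b => and_congr_right fun _ => ?_
  rw [Option.mem_toList]

/-- the properties of the entries of the table -/
theorem tab_sound {w : List Unit} (k : ℕ) : ∀ z ∈ tab C β s w k,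
    z.length = C.n ∧ (∀ i < C.n, fn z i = true → lev s i ≤ k) ∧
      ∀ j < k, Stuck C.n (lev s) (FF C β s) j (fn z) := by
  induction k with
  | zero =>
    intro z hz
    have hz' : z = zeros C.n := List.mem_singleton.1 hz
    subst hz'
    refine ⟨length_zeros _, fun i _ h => ?_, fun j hj => absurd hj (Nat.not_lt_zero j)⟩
    unfold fn at h
    rw [zeros_getD] at h
    exact absurd h Bool.false_ne_true
  | succ k ih =>
    intro z hz
    rw [tab_succ, mem_stage] at hz
    obtain ⟨c, hc, b, _, hz⟩ := hz
    unfold fnd at hz
    have h1 := List.find?_some hz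
    have h2 := List.mem_of_find?_eq_some hz
    rw [List.mem_map] at h2
    obtain ⟨y, hy, rfl⟩ := h2
    obtain ⟨y1, y2, y3⟩ := ih y hy
    obtain ⟨c1, c2⟩ := cands_sub c hc
    have hl : y.length = c.length := by rw [y1, c1]
    have hzl : (bor y c).length = C.n := by rw [length_bor hl, y1]
    rw [Bool.and_eq_true] at h1
    refine ⟨hzl, fun i hi h => ?_, fun j hj => ?_⟩
    · rw [fn_bor hl (by omega), Bool.or_eq_true] at h
      rcases h with h | h
      · have := y2 i hi h
        omega
      · have := c2 i hi h
        omega
    · rcases Nat.lt_or_eq_of_le (Nat.le_of_lt_succ hj) with hjk | rfl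
      · refine FF_loc.stuck FF_zero (fun i hi h => ?_) (y3 j hjk)
        rw [fn_bor hl (by omega)]
        have : fn c i = false := by
          rw [← Bool.not_eq_true]
          intro hcon
          have := c2 i hi hcon
          omega
        rw [this, Bool.or_false]
      · exact (stuck_iff hzl j).2 h1.2

/-- the part of a vector in level `j` -/
def part (n : ℕ) (s : List ℕ) (v : ℕ → Bool) (j : ℕ) : List Bool :=
  (List.range n).map fun i => v i && decide (lev s i = j)

theorem length_part (n : ℕ) (v : ℕ → Bool) (j : ℕ) : (part n s v j).length = n := by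
  unfold part
  simp

theorem fn_part {n : ℕ} {v : ℕ → Bool} {j i : ℕ} (hi : i < n) :
    fn (part n s v j) i = (v i && decide (lev s i = j)) := fn_map _ hi

/-- every solution whose parts are candidates is followed by the table -/
theorem tab_complete {w : List Unit} {K : ℕ} {v : ℕ → Bool}
    (hv1 : ∀ j ≤ K, Stuck C.n (lev s) (FF C β s) j v)
    (hv2 : ∀ j ≤ K + 1, part C.n s v j ∈ cands C.n s j w)
    (hv3 : ∀ i < C.n, v i = true → 0 < lev s i) (k : ℕ) (hk : k ≤ K + 1) :
    ∃ z ∈ tab C β s w k, ∀ i < C.n, lev s i = k ∨ lev s i + 1 = k → fn z i = v i := by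
  have hv3' : ∀ i < C.n, lev s i = 0 → v i = false := by
    intro i hi h
    rw [← Bool.not_eq_true]
    intro hcon
    have := hv3 i hi hcon
    omega
  induction k with
  | zero =>
    refine ⟨zeros C.n, List.mem_singleton.2 rfl, fun i hi h => ?_⟩
    have h0 : lev s i = 0 := by omega
    unfold fn
    rw [zeros_getD, hv3' i hi h0]
  | succ k ih =>
    obtain ⟨y, hy, hyv⟩ := ih (by omega)
    obtain ⟨y1, y2, y3⟩ := tab_sound k y hy
    set pt := part C.n s v with hptdef
    have hptl : ∀ j, (pt j).length = C.n := fun j => length_part _ _ _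
    have hptf : ∀ j, ∀ i < C.n, fn (pt j) i = (v i && decide (lev s i = j)) :=
      fun j i hi => fn_part hi
    have hpt : ∀ j ≤ K + 1, pt j ∈ cands C.n s j w := hv2
    have hl : y.length = (pt (k + 1)).length := by rw [y1, hptl]
    have hzl : (bor y (pt (k + 1))).length = C.n := by rw [length_bor hl, y1]
    -- the new vector agrees with the solution on the levels `k - 1, k, k + 1`
    have hz : ∀ i < C.n, lev s i + 1 = k ∨ lev s i = k ∨ lev s i = k + 1 →
        fn (bor y (pt (k + 1))) i = v i := by
      intro i hi h
      rw [fn_bor hl (by omega), hptf _ i hi]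
      by_cases h1 : lev s i = k + 1
      · have : fn y i = false := by
          rw [← Bool.not_eq_true]
          intro hcon
          have := y2 i hi hcon
          omega
        rw [this, decide_eq_true h1, Bool.and_true, Bool.false_or]
      · rw [decide_eq_false h1, Bool.and_false, Bool.or_false]
        exact hyv i hi (by omega)
    have hstk : stk C β s k (bor y (pt (k + 1))) = true := by
      rw [← stuck_iff hzl]
      exact FF_loc.stuck FF_zero (fun i hi h => (hz i hi h).symm) (hv1 k (by omega))
    have hex : ∃ z, fnd C β s k (tab C β s w k) (pt (k + 1)) (pt k) = some z := by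
      rw [← Option.isSome_iff_exists]
      unfold fnd
      rw [List.find?_isSome]
      refine ⟨bor y (pt (k + 1)), List.mem_map.2 ⟨y, hy, rfl⟩, ?_⟩
      rw [Bool.and_eq_true]
      refine ⟨decide_eq_true ?_, hstk⟩
      refine ext_getD (by rw [length_msk, hzl, hptl]) fun i hi => ?_
      rw [length_msk, hzl] at hi
      have e1 := fn_msk (x := bor y (pt (k + 1))) (f := fun i => decide (s.getD i 0 = k)) (i := i)
        (by omega)
      have e2 := hptf k i hi
      unfold fn at e1 e2
      rw [e1, e2]
      change (fn (bor y (pt (k + 1))) i && decide (lev s i = k)) = _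
      by_cases h : lev s i = k
      · rw [hz i hi (Or.inr (Or.inl h))]
      · rw [decide_eq_false h, Bool.and_false, Bool.and_false]
    obtain ⟨z, hzf⟩ := hex
    refine ⟨z, ?_, ?_⟩
    · rw [tab_succ, mem_stage]
      exact ⟨_, hpt (k + 1) hk, _, hpt k (by omega), hzf⟩
    · unfold fnd at hzf
      have h1 := List.find?_some hzf
      have h2 := List.mem_of_find?_eq_some hzf
      rw [List.mem_map] at h2
      obtain ⟨y', hy', rfl⟩ := h2
      obtain ⟨y1', y2', y3'⟩ := tab_sound k y' hy'
      have hl' : y'.length = (pt (k + 1)).length := by rw [y1', hptl]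
      have hzl' : (bor y' (pt (k + 1))).length = C.n := by rw [length_bor hl', y1']
      rw [Bool.and_eq_true, decide_eq_true_eq] at h1
      intro i hi h
      rcases h with h | h
      · rw [fn_bor hl' (by omega), hptf _ i hi, decide_eq_true h, Bool.and_true]
        have : fn y' i = false := by
          rw [← Bool.not_eq_true]
          intro hcon
          have := y2' i hi hcon
          omega
        rw [this, Bool.false_or]
      · have e1 : fn (msk (bor y' (pt (k + 1))) fun i => decide (s.getD i 0 = k)) i =
            fn (pt k) i := by rw [h1.1]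
        rw [fn_msk (by omega), hptf k i hi] at e1
        have h' : lev s i = k := by omega
        have h'' : s.getD i 0 = k := h'
        rw [decide_eq_true h'', decide_eq_true h', Bool.and_true, Bool.and_true] at e1
        exact e1

end

end Pool.Agent.MPa0a715.BW
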