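import Pool.Agent.Lib.MP_a0a715_lc_BW.DP
import Pool.Agent.Lib.MP_a0a715_lc_IN.Red

/-!
# The solver finds a local minimum
-/

namespace Pool.Agent.MPa0a715.BW

open Pool.Agent.MPa0a715 Pool.Agent.PolyTime
open Pool.Agent.MPa0a715.IN (out_outBit cost_lt_iff)

section
variable {C : Circuit} {β : ℕ} {s : List ℕ}

theorem pick_length (C : Circuit) (β : ℕ) (s : List ℕ) (w : List Unit) :
    (pick C β s w).length = C.n := by
  unfold pick
  cases h : tab C β s w (C.outs.length + 1) with
  | nil => exact length_zeros _
  | cons a l =>
    refine (tab_sound (β := β) (s := s) (w := w) (C.outs.length + 1) a ?_).1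
    rw [h]
    exact List.mem_cons_self

/-- the dynamic program finds a local minimum of the modified costs -/
theorem pick_spec {w : List Unit} (hc : ∀ v : ℕ → Bool,
      (∀ i < C.n, v i = true → 0 < lev s i) →
      (∀ j ≤ C.outs.length + 1, 0 < j → wt C.n (lev s) j v ≤ 8 ^ β) →
      ∀ j ≤ C.outs.length + 1, part C.n s v j ∈ cands C.n s j w) :
    ∀ j ≤ C.outs.length, Stuck C.n (lev s) (FF C β s) j (fn (pick C β s w)) := by
  obtain ⟨y, hy1, hy2⟩ := exists_sparse (W := 2 ^ β) (Nat.two_pow_pos β) FF_loc FF_zero FF_lt
    (n := C.n) (s := lev s) (F := FF C β s) (C.outs.length + 1)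
  have hR : 2 ^ β * ((2 ^ β) ^ 2 - 1) ≤ 8 ^ β := by
    refine (Nat.mul_le_mul_left _ (Nat.sub_le _ _)).trans ?_
    rw [← pow_mul, ← pow_add, show (8 : ℕ) = 2 ^ 3 by norm_num, ← pow_mul]
    exact Nat.pow_le_pow_right (by norm_num) (by omega)
  have hag : Ag C.n (lev s) (fun l => 0 < l) y (fun i => y i && decide (0 < lev s i)) := by
    intro i _ h
    dsimp only at h ⊢
    rw [decide_eq_true h, Bool.and_true]
  have hpos : ∀ i < C.n, (y i && decide (0 < lev s i)) = true → 0 < lev s i := fun i _ h => by
    rw [Bool.and_eq_true, decide_eq_true_eq] at h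
    exact h.2
  obtain ⟨z, hz, _⟩ := tab_complete (K := C.outs.length) (w := w)
    (v := fun i => y i && decide (0 < lev s i))
    (fun j hj => FF_loc.stuck_pos FF_zero hag (hy1 j (by omega)))
    (hc _ hpos fun j hj h0 => by
      rw [← wt_congr (hag.mono fun l (hl : l = j) => by omega)]
      exact (hy2 j hj h0).trans hR)
    hpos (C.outs.length + 1) le_rfl
  have hmem : pick C β s w ∈ tab C β s w (C.outs.length + 1) := by
    unfold pick
    cases h : tab C β s w (C.outs.length + 1) with
    | nil =>
      rw [h] at hz
      exact absurd hz List.not_mem_nil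
    | cons a l => exact List.mem_cons_self
  obtain ⟨_, _, h3⟩ := tab_sound _ _ hmem
  exact fun j hj => h3 j (Nat.lt_succ_of_le hj)

theorem part_sub {n : ℕ} {v : ℕ → Bool} {j : ℕ} : ∀ i < n, fn (part n s v j) i = true →
    lev s i = j := by
  intro i hi h
  rw [fn_part hi, Bool.and_eq_true, decide_eq_true_eq] at h
  exact h.2

/-- the sparse vectors are candidates -/
theorem cands_of_sparse {w : List Unit} (hw : (C.n + 1) ^ (8 ^ β) ≤ w.length) (v : ℕ → Bool)
    (hv : ∀ i < C.n, v i = true → 0 < lev s i)
    (h : ∀ j ≤ C.outs.length + 1, 0 < j → wt C.n (lev s) j v ≤ 8 ^ β) :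
    ∀ j ≤ C.outs.length + 1, part C.n s v j ∈ cands C.n s j w := by
  intro j hj
  refine List.mem_append_left _ (cand1_mem hw (length_part _ _ _) part_sub ?_)
  have h1 : wt C.n (lev s) j (fn (part C.n s v j)) = wt C.n (lev s) j v := by
    refine wt_congr fun i hi h => ?_
    rw [fn_part hi, decide_eq_true h, Bool.and_true]
  rw [h1]
  rcases Nat.eq_zero_or_pos j with h0 | h0
  · have : wt C.n (lev s) j v = 0 := by
      unfold wt
      rw [Finset.card_eq_zero, Finset.filter_eq_empty_iff]
      rintro i hi ⟨h2, h3⟩
      have := hv i (Finset.mem_range.1 hi) h3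
      omega
    rw [this]
    exact Nat.zero_le _
  · exact h j hj h0

/-- if the levels are small then all vectors are candidates -/
theorem cands_of_small {w : List Unit}
    (hw : ∀ j, 0 < j → 2 ^ ((Finset.range C.n).filter fun i => lev s i = j).card ≤ w.length)
    (v : ℕ → Bool) (hv : ∀ i < C.n, v i = true → 0 < lev s i) (j : ℕ) :
    part C.n s v j ∈ cands C.n s j w := by
  rcases Nat.eq_zero_or_pos j with h0 | h0
  · have : part C.n s v j = zeros C.n := by
      refine ext_getD (by rw [length_zeros, length_part]) fun i hi => ?_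
      rw [length_part] at hi
      rw [zeros_getD, ← Bool.not_eq_true]
      intro hcon
      have h1 : fn (part C.n s v j) i = true := hcon
      rw [fn_part hi, Bool.and_eq_true, decide_eq_true_eq] at h1
      have := hv i hi h1.1
      omega
    rw [this]
    exact zeros_mem_cands
  · exact List.mem_append_right _ (cand2_mem (hw j h0) (length_part _ _ _) part_sub)

/-- every positive level is the block of an influenced output -/
def Inv (C : Circuit) (β : ℕ) (s : List ℕ) : Prop :=
  s.length = C.n ∧ ∀ i < C.n, lev s i = 0 ∨ ∃ j < C.outs.length, C.Influences i j ∧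
    lev s i = j / β + 1

theorem Inv.le (h : Inv C β s) {i : ℕ} (hi : i < C.n) : lev s i ≤ C.outs.length := by
  rcases h.2 i hi with h0 | ⟨j, hj, _, h1⟩
  · omega
  · have := Nat.div_le_self j β
    omega

theorem length_out' (z : List Bool) : (C.out z).length = C.outs.length := by
  unfold Circuit.out
  rw [List.length_map]

theorem mem_bad {i l : ℕ} {z : List Bool} : l ∈ bad C β s i z ↔
    ∃ j < C.outs.length, C.outBit (flip z i) j ≠ C.outBit z j ∧ lev s i < l ∧ l = j / β + 1 := by
  unfold bad
  rw [List.mem_map]
  constructor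
  · rintro ⟨j, hj, rfl⟩
    rw [List.mem_filter, List.mem_range, Bool.and_eq_true, decide_eq_true_eq] at hj
    obtain ⟨h1, h2, h3⟩ := hj
    rw [out_outBit C _ h1, out_outBit C _ h1] at h2
    refine ⟨j, h1, ?_, h3, rfl⟩
    revert h2
    cases C.outBit (flip z i) j <;> cases C.outBit z j <;> simp
  · rintro ⟨j, h1, h2, h3, rfl⟩
    refine ⟨j, ?_, rfl⟩
    rw [List.mem_filter, List.mem_range, Bool.and_eq_true, decide_eq_true_eq,
      out_outBit C _ h1, out_outBit C _ h1]
    refine ⟨h1, ?_, h3⟩
    revert h2
    cases C.outBit (flip z i) j <;> cases C.outBit z j <;> simp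

theorem mem_tests {x z : List Bool} : z ∈ tests C s x ↔
    ∃ y, (y = x ∨ ∃ i < C.n, y = flip x i) ∧ ∃ t ≤ C.outs.length, ∃ l ≤ C.n,
      z = msk y fun p => !(decide (p < l)) || inL s t p := by
  unfold tests
  rw [List.mem_flatMap]
  refine exists_congr fun y => and_congr ?_ ?_
  · rw [List.mem_cons, List.mem_map]
    refine or_congr_right (exists_congr fun i => ?_)
    rw [List.mem_range]
    exact and_congr_right fun _ => eq_comm
  · rw [List.mem_flatMap]
    refine exists_congr fun t => and_congr (by rw [List.mem_range]; omega) ?_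
    rw [List.mem_map]
    refine exists_congr fun l => and_congr (by rw [List.mem_range]; omega) eq_comm

theorem length_tests {x z : List Bool} (hx : x.length = C.n) (hz : z ∈ tests C s x) :
    z.length = C.n := by
  obtain ⟨y, hy, t, _, l, _, rfl⟩ := mem_tests.1 hz
  rw [length_msk]
  rcases hy with rfl | ⟨i, _, rfl⟩
  · exact hx
  · rw [length_flip, hx]

theorem lev_upd {x : List Bool} {i : ℕ} (hi : i < C.n) : lev (upd C β s x) i =
    ((tests C s x).flatMap fun z => bad C β s i z).headD (lev s i) := by
  unfold lev upd
  rw [List.getD_eq_getElem _ _ (by simpa using hi), List.getElem_map, List.getElem_range]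

theorem lev_upd_cases {x : List Bool} {i : ℕ} (hi : i < C.n) :
    (lev (upd C β s x) i = lev s i ∧ ∀ z ∈ tests C s x, bad C β s i z = []) ∨
    ∃ z ∈ tests C s x, lev (upd C β s x) i ∈ bad C β s i z := by
  rw [lev_upd hi]
  cases h : (tests C s x).flatMap fun z => bad C β s i z with
  | nil =>
    left
    rw [List.flatMap_eq_nil_iff] at h
    exact ⟨rfl, h⟩
  | cons a l =>
    right
    have ha : a ∈ (tests C s x).flatMap fun z => bad C β s i z := by
      rw [h]
      exact List.mem_cons_self
    rw [List.mem_flatMap] at ha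
    exact ha

theorem inv_upd {x : List Bool} (hx : x.length = C.n) (h : Inv C β s) :
    Inv C β (upd C β s x) := by
  refine ⟨by simp [upd], fun i hi => ?_⟩
  rcases lev_upd_cases (β := β) (s := s) (x := x) hi with ⟨h1, _⟩ | ⟨z, hz, h1⟩
  · rw [h1]
    exact h.2 i hi
  · right
    obtain ⟨j, hj, h3, _, h4⟩ := mem_bad.1 h1
    exact ⟨j, hj, ⟨z, length_tests hx hz, h3⟩, h4⟩

/-- the sum of the levels -/
def tot (C : Circuit) (s : List ℕ) : ℕ := ∑ i ∈ Finset.range C.n, lev s i

theorem tot_le (h : Inv C β s) : tot C s ≤ C.n * C.outs.length := by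
  unfold tot
  refine (Finset.sum_le_card_nsmul _ _ C.outs.length fun i hi => h.le
    (Finset.mem_range.1 hi)).trans ?_
  rw [Finset.card_range, smul_eq_mul]

theorem upd_cases (h : Inv C β s) (x : List Bool) :
    upd C β s x = s ∨ tot C s + 1 ≤ tot C (upd C β s x) := by
  have hle : ∀ i < C.n, lev s i ≤ lev (upd C β s x) i := by
    intro i hi
    rcases lev_upd_cases (β := β) (s := s) (x := x) hi with ⟨h1, _⟩ | ⟨z, _, h1⟩
    · omega
    · obtain ⟨_, _, _, h2, _⟩ := mem_bad.1 h1
      omega
  by_cases hall : ∀ i < C.n, lev (upd C β s x) i = lev s i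
  · left
    refine List.ext_getElem (by simp [upd, h.1]) fun i h1 h2 => ?_
    have h3 := hall i (by rw [h.1] at h2; exact h2)
    unfold lev at h3
    rwa [List.getD_eq_getElem _ _ h1, List.getD_eq_getElem _ _ h2] at h3
  · right
    push Not at hall
    obtain ⟨i, hi, hne⟩ := hall
    unfold tot
    have := hle i hi
    exact Finset.sum_lt_sum (fun j hj => hle j (Finset.mem_range.1 hj))
      ⟨i, Finset.mem_range.2 hi, by omega⟩

/-- the levels after `k` rounds -/
def lvs (C : Circuit) (β : ℕ) (w : List Unit) (k : ℕ) : List ℕ :=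
  (List.range k).foldl (fun s _ => upd C β s (pick C β s w)) ((List.range C.n).map fun _ => 0)

theorem lvs_succ (w : List Unit) (k : ℕ) :
    lvs C β w (k + 1) = upd C β (lvs C β w k) (pick C β (lvs C β w k) w) := by
  unfold lvs
  rw [List.range_succ, List.foldl_append]
  rfl

/-- the levels found pass all tests -/
theorem lvl_spec (w : List Unit) :
    Inv C β (lvl C β w) ∧ upd C β (lvl C β w) (pick C β (lvl C β w) w) = lvl C β w := by
  have key : ∀ k, Inv C β (lvs C β w k) ∧
      (upd C β (lvs C β w k) (pick C β (lvs C β w k) w) = lvs C β w k ∨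
        k ≤ tot C (lvs C β w k)) := by
    intro k
    induction k with
    | zero =>
      refine ⟨⟨by simp [lvs], fun i hi => Or.inl ?_⟩, Or.inr (Nat.zero_le _)⟩
      unfold lev lvs
      rw [List.range_zero, List.foldl_nil, List.getD_eq_getElem _ _ (by simpa using hi),
        List.getElem_map]
    | succ k ih =>
      rw [lvs_succ]
      generalize lvs C β w k = s at ih
      obtain ⟨h1, h2⟩ := ih
      refine ⟨inv_upd (pick_length _ _ _ _) h1, ?_⟩
      rcases h2 with h2 | h2
      · left
        rw [h2, h2]
      · rcases upd_cases h1 (pick C β s w) with h3 | h3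
        · left
          rw [h3, h3]
        · right
          omega
  obtain ⟨h1, h2 | h2⟩ := key (C.n * C.outs.length + 1)
  · exact ⟨h1, h2⟩
  · have := tot_le h1
    omega

theorem blk_congr (hβ : 0 < β) {t : ℕ} {y z : List Bool}
    (h : ∀ j < C.outs.length, j / β + 1 = t → C.outBit y j = C.outBit z j) :
    blk C β t y = blk C β t z := by
  unfold blk
  split_ifs with ht
  · rfl
  · congr 1
    refine ext_getD (by simp [length_out']) fun u hu => ?_
    rw [List.length_take, List.length_drop, length_out', lt_min_iff] at hu
    rw [List.getD_eq_getElem _ _ (by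
        rw [List.length_take, List.length_drop, length_out', lt_min_iff]; exact hu),
      List.getD_eq_getElem _ _ (by
        rw [List.length_take, List.length_drop, length_out', lt_min_iff]; exact hu),
      List.getElem_take, List.getElem_take, List.getElem_drop, List.getElem_drop]
    have hj : β * (t - 1) + u < C.outs.length := by omega
    have h1 := h (β * (t - 1) + u) hj (by
      rw [Nat.mul_add_div hβ, Nat.div_eq_of_lt hu.1]
      omega)
    rw [← out_outBit C y hj, ← out_outBit C z hj, List.getD_eq_getElem _ _ (by
      rw [length_out']; exact hj), List.getD_eq_getElem _ _ (by rw [length_out']; exact hj)] at h1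
    exact h1

/-- if all tests are passed then the modified values are the true ones -/
theorem true_val (hβ : 0 < β) (hC : C.Window β) (hs : Inv C β s) {x : List Bool}
    (hx : x.length = C.n) (hfix : upd C β s x = s) {y : List Bool}
    (hy : y = x ∨ ∃ i < C.n, y = flip x i) {t : ℕ} (ht : t ≤ C.outs.length) :
    blk C β t y = Fv C β s t y := by
  rcases Nat.eq_zero_or_pos t with rfl | ht0
  · rfl
  have hyl : y.length = C.n := by
    rcases hy with rfl | ⟨i, _, rfl⟩
    · exact hx
    · rw [length_flip, hx]
  have hnb : ∀ i < C.n, ∀ z ∈ tests C s x, bad C β s i z = [] := by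
    intro i hi
    rcases lev_upd_cases (β := β) (s := s) (x := x) hi with ⟨_, h1⟩ | ⟨z, _, h1⟩
    · exact h1
    · exfalso
      rw [hfix] at h1
      obtain ⟨_, _, _, h2, _⟩ := mem_bad.1 h1
      omega
  have key : ∀ l ≤ C.n, blk C β t y =
      blk C β t (msk y fun p => !(decide (p < l)) || inL s t p) := by
    intro l
    induction l with
    | zero =>
      intro _
      congr 1
      refine ext_getD (by rw [length_msk]) fun i hi => ?_
      have h1 := fn_msk (x := y) (f := fun p => !(decide (p < 0)) || inL s t p) hi
      unfold fn at h1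
      rw [h1]
      simp
    | succ l ih =>
      intro hl
      rw [ih (by omega)]
      have hf1 : ∀ i < C.n, fn (msk y fun p => !(decide (p < l)) || inL s t p) i =
          (fn y i && (!(decide (i < l)) || inL s t i)) := fun i hi => fn_msk (by omega)
      have hf2 : ∀ i < C.n, fn (msk y fun p => !(decide (p < l + 1)) || inL s t p) i =
          (fn y i && (!(decide (i < l + 1)) || inL s t i)) := fun i hi => fn_msk (by omega)
      have hsame : ∀ i < C.n, i ≠ l → fn (msk y fun p => !(decide (p < l + 1)) || inL s t p) i =
          fn (msk y fun p => !(decide (p < l)) || inL s t p) i := by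
        intro i hi hil
        rw [hf1 i hi, hf2 i hi]
        have : decide (i < l + 1) = decide (i < l) := by
          rw [decide_eq_decide]
          omega
        rw [this]
      by_cases hd : inL s t l = true ∨ fn y l = false
      · congr 1
        refine ext_getD (by rw [length_msk, length_msk]) fun i hi => ?_
        rw [length_msk, hyl] at hi
        by_cases hil : i = l
        · have e1 := hf1 i hi
          have e2 := hf2 i hi
          unfold fn at e1 e2
          rw [e1, e2, hil]
          rcases hd with hd | hd
          · rw [hd, Bool.or_true, Bool.or_true]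
          · unfold fn at hd
            rw [hd, Bool.false_and, Bool.false_and]
        · exact (hsame i hi hil).symm
      · push Not at hd
        obtain ⟨hd1, hd2⟩ := hd
        have hd2 : fn y l = true := by
          revert hd2
          cases fn y l <;> simp
        have hd1' : inL s t l = false := by rwa [← Bool.not_eq_true]
        set z := msk y fun p => !(decide (p < l)) || inL s t p with hz
        have hzl : z.length = C.n := by rw [hz, length_msk, hyl]
        have hflip : (msk y fun p => !(decide (p < l + 1)) || inL s t p) = flip z l := by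
          refine ext_getD (by rw [length_flip, length_msk, hzl, hyl]) fun i hi => ?_
          rw [length_msk, hyl] at hi
          rw [getD_flip _ _ _ (by omega)]
          by_cases hil : l = i
          · subst hil
            rw [if_pos rfl]
            have e1 := hf1 l hi
            have e2 := hf2 l hi
            unfold fn at e1 e2 hd2
            rw [e1, e2, hd2, hd1']
            simp
          · rw [if_neg hil]
            exact hsame i hi (fun h => hil h.symm)
        rw [hflip]
        refine (blk_congr hβ fun j hj hjt => ?_).symm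
        by_contra hne
        have hztest : z ∈ tests C s x := mem_tests.2 ⟨y, hy, t, ht, l, by omega, rfl⟩
        have h1 := hnb l (by omega) z hztest
        have h2 : t ≤ lev s l := by
          by_contra hcon
          have h3 : j / β + 1 ∈ bad C β s l z := mem_bad.2 ⟨j, hj, hne, by omega, rfl⟩
          rw [h1] at h3
          exact absurd h3 List.not_mem_nil
        have hinf : C.Influences l j := ⟨z, hzl, hne⟩
        rcases hs.2 l (by omega) with h3 | ⟨j', hj', h4, h5⟩
        · omega
        · obtain ⟨a, ha⟩ := hC l (by omega)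
          have h6 := ha j hj hinf
          have h7 := ha j' hj' h4
          have h8 : j' / β ≤ j / β + 1 := by
            rw [← Nat.add_div_right j hβ]
            exact Nat.div_le_div_right (by omega)
          apply hd1
          rw [inL_iff]
          omega
  rw [key C.n le_rfl]
  unfold Fv
  congr 1
  refine ext_getD (by rw [length_msk, length_msk]) fun i hi => ?_
  rw [length_msk] at hi
  have e1 := fn_msk (x := y) (f := fun p => !(decide (p < C.n)) || inL s t p) hi
  have e2 := fn_msk (x := y) (f := inL s t) hi
  unfold fn at e1 e2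
  rw [e1, e2, decide_eq_true (show i < C.n by omega)]
  rfl

/-- comparing blocks -/
theorem blk_lt_of (hβ : 0 < β) {y z : List Bool} {p : ℕ} (hp : p < C.outs.length)
    (h1 : C.outBit y p = false) (h2 : C.outBit z p = true)
    (h3 : ∀ q < C.outs.length, p < q → C.outBit y q = C.outBit z q) :
    blk C β (p / β + 1) y < blk C β (p / β + 1) z := by
  unfold blk
  rw [if_neg (Nat.succ_ne_zero _), if_neg (Nat.succ_ne_zero _), Nat.add_sub_cancel]
  have hlen : ∀ z : List Bool, (((C.out z).drop (β * (p / β))).take β).length =
      min β (C.outs.length - β * (p / β)) := by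
    intro z
    rw [List.length_take, List.length_drop, length_out']
  have hget : ∀ (z : List Bool) (u : ℕ), u < min β (C.outs.length - β * (p / β)) →
      (((C.out z).drop (β * (p / β))).take β).getD u false = C.outBit z (β * (p / β) + u) := by
    intro z u hu
    have hu' := hu
    rw [lt_min_iff] at hu'
    rw [List.getD_eq_getElem _ _ (by rw [hlen]; exact hu), List.getElem_take, List.getElem_drop,
      ← out_outBit C z (by omega), List.getD_eq_getElem _ _ (by rw [length_out']; omega)]
  rw [val_lt_iff _ _ (by rw [hlen, hlen]), hlen]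
  have hdm := Nat.div_add_mod p β
  have hml := Nat.mod_lt p hβ
  have hr : p % β < min β (C.outs.length - β * (p / β)) := by
    rw [lt_min_iff]
    omega
  refine ⟨p % β, hr, ?_, ?_, fun q hq hpq => ?_⟩
  · rw [hget _ _ hr, hdm, h1]
  · rw [hget _ _ hr, hdm, h2]
  · rw [hget _ _ hq, hget _ _ hq]
    rw [lt_min_iff] at hq
    exact h3 _ (by omega) (by omega)

/-- the solver finds a local minimum if there are enough candidates -/
theorem solve_min_of (hC : C.Window β) {w : List Unit}
    (hcand : 0 < β → Inv C β (lvl C β w) → ∀ v : ℕ → Bool,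
      (∀ i < C.n, v i = true → 0 < lev (lvl C β w) i) →
      (∀ j ≤ C.outs.length + 1, 0 < j → wt C.n (lev (lvl C β w)) j v ≤ 8 ^ β) →
      ∀ j ≤ C.outs.length + 1, part C.n (lvl C β w) v j ∈ cands C.n (lvl C β w) j w) :
    C.IsLocalMin (solve C β w) := by
  have hx : (pick C β (lvl C β w) w).length = C.n := pick_length _ _ _ _
  obtain ⟨hs, hfix⟩ := lvl_spec (C := C) (β := β) w
  refine ⟨hx, fun i hi => ?_⟩
  by_contra hcon
  rw [not_le, cost_lt_iff] at hcon
  obtain ⟨p, hp, h1, h2, h3⟩ := hcon
  have hxf : (flip (solve C β w) i).length = C.n := by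
    rw [length_flip]
    exact hx
  rcases Nat.eq_zero_or_pos β with rfl | hβ
  · obtain ⟨a, ha⟩ := hC i hi
    have := ha p hp ⟨solve C 0 w, hx, by rw [h1, h2]; exact Bool.false_ne_true⟩
    omega
  have hst := pick_spec (hcand hβ hs)
  unfold solve at *
  set s := lvl C β w with hsdef
  set x := pick C β s w with hxdef
  have htv : ∀ y, (y = x ∨ ∃ i < C.n, y = flip x i) → ∀ t ≤ C.outs.length,
      blk C β t y = Fv C β s t y := fun y hy t ht => true_val hβ hC hs hx hfix hy ht
  have hpt : p / β + 1 ≤ C.outs.length := by
    have := Nat.div_le_self p β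
    omega
  have e1 : Fv C β s (p / β + 1) (flip x i) < Fv C β s (p / β + 1) x := by
    rw [← htv _ (Or.inr ⟨i, hi, rfl⟩) _ hpt, ← htv _ (Or.inl rfl) _ hpt]
    exact blk_lt_of hβ hp h1 h2 h3
  have e2 : ∀ t ≤ C.outs.length, p / β + 1 < t → Fv C β s t (flip x i) = Fv C β s t x := by
    intro t ht htp
    rw [← htv _ (Or.inr ⟨i, hi, rfl⟩) _ ht, ← htv _ (Or.inl rfl) _ ht]
    refine blk_congr hβ fun j hj hjt => h3 j hj ?_
    by_contra hcon
    have : j / β ≤ p / β := Nat.div_le_div_right (by omega)
    omega
  have hst' : Stuck C.n (lev s) (FF C β s) (lev s i) (fn x) := hst _ (hs.le hi)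
  have h4 := hst' i hi rfl
  rw [FF_fn hx, FF_fn hx, FF_fl hx _ hi, FF_fl hx _ hi] at h4
  by_cases h5 : lev s i = p / β + 1
  · rw [h5] at h4
    exact h4 (Or.inl e1)
  · by_cases h6 : lev s i = p / β + 1 + 1
    · rw [h6, Nat.add_sub_cancel] at h4
      have h7 := hs.le hi
      exact h4 (Or.inr ⟨e2 _ (by omega) (by omega), e1⟩)
    · have h7 : FF C β s (p / β + 1) (fl (fn x) i) = FF C β s (p / β + 1) (fn x) := by
        refine FF_loc _ _ _ fun j _ hj => ?_
        unfold fl
        rw [if_neg (fun h => by rw [h] at hj; omega)]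
      rw [FF_fn hx, FF_fl hx _ hi] at h7
      omega

/-- the solver finds a local minimum, windows of size `β` -/
theorem solve_min (hC : C.Window β) {w : List Unit}
    (hw : (C.n + 1) ^ (8 ^ β) ≤ w.length) : C.IsLocalMin (solve C β w) :=
  solve_min_of hC fun _ _ v hv h => cands_of_sparse hw v hv h

/-- few inputs influence a block -/
theorem card_level (hβ : 0 < β) {a : ℕ} (ha : C.Arity a) (hs : Inv C β s) {t : ℕ} (ht : 0 < t) :
    ((Finset.range C.n).filter fun i => lev s i = t).card ≤ a * β := by
  classical
  have hex : ∀ j, ∃ S : Finset ℕ, S.card ≤ a ∧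
      (j < C.outs.length → ∀ i < C.n, C.Influences i j → i ∈ S) := by
    intro j
    by_cases hj : j < C.outs.length
    · obtain ⟨S, h1, h2⟩ := ha j hj
      exact ⟨S, h1, fun _ => h2⟩
    · exact ⟨∅, by simp, fun h => absurd h hj⟩
  choose S hS1 hS2 using hex
  have hsub : ((Finset.range C.n).filter fun i => lev s i = t) ⊆
      (Finset.range β).biUnion fun u => S (β * (t - 1) + u) := by
    intro i hi
    rw [Finset.mem_filter, Finset.mem_range] at hi
    obtain ⟨hi1, hi2⟩ := hi
    rcases hs.2 i hi1 with h0 | ⟨j, hj, hinf, hjt⟩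
    · omega
    · rw [Finset.mem_biUnion]
      have hdm := Nat.div_add_mod j β
      have hml := Nat.mod_lt j hβ
      have e : t - 1 = j / β := by omega
      refine ⟨j % β, Finset.mem_range.2 hml, ?_⟩
      rw [e, hdm]
      exact hS2 j hj i hi1 hinf
  refine (Finset.card_le_card hsub).trans ?_
  refine (Finset.card_biUnion_le_card_mul _ _ a fun u _ => hS1 _).trans ?_
  rw [Finset.card_range, Nat.mul_comm]

/-- the solver finds a local minimum, windows of size `β` and arity `a` -/
theorem solve_min' (hC : C.Window β) {a : ℕ} (ha : C.Arity a) {w : List Unit}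
    (hw : 2 ^ (a * β) ≤ w.length) : C.IsLocalMin (solve C β w) :=
  solve_min_of hC fun hβ hs v hv _ j _ => cands_of_small (fun _ ht =>
    (Nat.pow_le_pow_right (by norm_num) (card_level hβ ha hs ht)).trans hw) v hv j

end

end Pool.Agent.MPa0a715.BW
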