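import Pool.Agent.Lib.MP_a0a715_lc_BW.Red
import Pool.Agent.Lib.MP_a0a715_lc_BW.PT
import Pool.Agent.Lib.MP_a0a715_lc_WM.Circ
import Pool.Agent.Lib.MP_a0a715_lc_OD.HardSide

/-!
# The reduction is computed in polynomial time
-/

namespace Pool.Agent.MPa0a715.BW

open Pool.Agent.MPa0a715 Pool.Agent.PolyTime
open Pool.Agent.MPa0a715.IN (ptime_step)
open Pool.Agent.MPa0a715.TL (ptime_drop)

section
variable {α : Type} [Enc α]

theorem ptime_mu {n : α → ℕ} {v w : α → List Bool} (hn : PU n) (hv : PTime v)
    (hw : PTime w) : PTime (fun a => mu (n a) (v a) (w a)) := by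
  have h1 : PTime (fun a => (List.range (n a)).find? fun i =>
      Bool.xor ((v a).getD i false) ((w a).getD i false)) := by
    refine PTime.find? (g := fun (a : α) (i : ℕ) =>
      Bool.xor ((v a).getD i false) ((w a).getD i false)) hn.range ?_
    exact (PTime.listGetD (hv.comp PTime.fst) PTime.snd (PTime.const false)).xor
      (PTime.listGetD (hw.comp PTime.fst) PTime.snd (PTime.const false))
  have h2 : PTime₂ (fun (a : α) (i : ℕ) => n a - i) := (hn.toNat.comp PTime.fst).sub PTime.snd
  exact PTime.getD (PTime.omap (g := fun (a : α) (i : ℕ) => n a - i) h1 h2) (PTime.const 0)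

theorem ptime_top {C : α → Circuit} {b : α → ℕ} {v : α → List Bool} (hC : PTime C)
    (hb : PTime b) (hv : PTime v) : PTime (fun a => top (C a) (b a) (v a)) :=
  (PTime.natOfBits (ptime_drop (ptime_out hC hv) hb)).of_eq fun _ => (val_eq_ofBits _).symm

theorem ptime_bt {C : α → Circuit} {b : α → ℕ} {c : α → List Bool} (hC : PTime C)
    (hb : PTime b) (hc : PTime c) : PTime (fun a => bt (C a) (b a) (c a)) :=
  PTime.ite (PTime.listGetD (ptime_out hC hc) (hb.sub (PTime.const 1)) (PTime.const false))
    ((pu_n hC).toNat.add (PTime.const 2)) (PTime.const 0)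

theorem ptime_gv {C : α → Circuit} {b : α → ℕ} {c o c' o' : α → List Bool} (hC : PTime C)
    (hb : PTime b) (hc : PTime c) (ho : PTime o) (hc' : PTime c') (ho' : PTime o') :
    PTime (fun a => gv (C a) (b a) (c a) (o a) (c' a) (o' a)) := by
  have hn := pu_n hC
  have t1 := ptime_top hC hb hc
  have t2 := ptime_top hC hb hc'
  have t3 := ptime_top hC hb ho
  exact PTime.iteP (PTime.eq hb (PTime.const 0)) (ptime_mu hn ho' (ptime_step hC hc'))
    ((PTime.iteP (PTime.eq t1 t2) (PTime.iteP (PTime.lt t3 t2) (ptime_mu hn ho' ho)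
      (hn.toNat.add (PTime.const 1)))
      (((PTime.const 2).mul (hn.toNat.add (PTime.const 2))).add (ptime_mu hn ho hc'))).add
      (ptime_bt hC hb hc))

theorem ptime_sl {n s : α → ℕ} {x : α → List Bool} (hn : PU n) (hx : PTime x) (hs : PTime s) :
    PTime (fun a => sl (n a) (x a) (s a)) :=
  PTime.map (g := fun (a : α) (i : ℕ) => (x a).getD (s a + i) false) hn.range
    (PTime.listGetD (hx.comp PTime.fst) ((hs.comp PTime.fst).add PTime.snd) (PTime.const false))

theorem ptime_cur {n s : α → ℕ} {x : α → List Bool} (hn : PU n) (hx : PTime x) (hs : PTime s) :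
    PTime (fun a => cur (n a) (x a) (s a)) :=
  PTime.ite (PTime.listGetD hx (hs.add ((PTime.const 2).mul hn.toNat)) (PTime.const false))
    (ptime_sl hn hx (hs.add hn.toNat)) (ptime_sl hn hx hs)

theorem ptime_oth {n s : α → ℕ} {x : α → List Bool} (hn : PU n) (hx : PTime x) (hs : PTime s) :
    PTime (fun a => oth (n a) (x a) (s a)) :=
  PTime.ite (PTime.listGetD hx (hs.add ((PTime.const 2).mul hn.toNat)) (PTime.const false))
    (ptime_sl hn hx hs) (ptime_sl hn hx (hs.add hn.toNat))

theorem ptime_testBit {f g : α → ℕ} (hf : PTime f) (hg : PTime g) :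
    PTime (fun a => (f a).testBit (g a)) := by
  refine (PTime.listGetD (PTime.natBits hf) hg (PTime.const false)).of_eq fun a => ?_
  rw [Nat.testBit_eq_inth, List.getI_eq_getElem?_getD, List.getD_eq_getElem?_getD]
  rfl

theorem pu_LL {C : α → Circuit} (hC : PTime C) : PU (fun a => LL (C a)) := by
  have h1 : PTime (fun a => 4 * ((C a).n + 2)) :=
    (PTime.const 4).mul ((pu_n hC).toNat.add (PTime.const 2))
  exact PU.of_eq (PU.ofLength (PTime.natBits h1)) fun a => Nat.size_eq_bits_len _

theorem ptime_Fb : PTime (fun p : (Circuit × ℕ) × (ℕ × List Bool) => Fb p.1 p.2.1 p.2.2) := by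
  have hC : PTime (fun p : (Circuit × ℕ) × (ℕ × List Bool) => p.1.1) := PTime.fst' PTime.fst
  have hb : PTime (fun p : (Circuit × ℕ) × (ℕ × List Bool) => p.1.2) := PTime.snd' PTime.fst
  have ht : PTime (fun p : (Circuit × ℕ) × (ℕ × List Bool) => p.2.1) := PTime.fst' PTime.snd
  have hy : PTime (fun p : (Circuit × ℕ) × (ℕ × List Bool) => p.2.2) := PTime.snd' PTime.snd
  have hn := pu_n hC
  have h0 : PTime (fun _ : (Circuit × ℕ) × (ℕ × List Bool) => 0) := PTime.const _
  have hS : PTime (fun p : (Circuit × ℕ) × (ℕ × List Bool) => 2 * p.1.1.n + 1) :=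
    ((PTime.const 2).mul hn.toNat).add (PTime.const 1)
  exact ptime_testBit (ptime_gv hC hb (ptime_cur hn hy h0) (ptime_oth hn hy h0)
    (ptime_cur hn hy hS) (ptime_oth hn hy hS)) ht

/-- there are circuits for the blocks -/
theorem exists_G : ∃ G : Circuit × ℕ → Circuit, PTime G ∧ GOK G := by
  have hC : PTime (fun a : Circuit × ℕ => a.1) := PTime.fst
  have hk : PU (fun a : Circuit × ℕ => 2 * (2 * a.1.n + 1)) :=
    (PU.const 2).mul (((PU.const 2).mul (pu_n hC)).add (PU.const 1))
  obtain ⟨G, hG, h⟩ := WM.circStmt (α := Circuit × ℕ) Fb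
    (fun a => 2 * (2 * a.1.n + 1)) (fun a => LL a.1) ptime_Fb hk (pu_LL hC)
  refine ⟨G, hG, fun a => ?_⟩
  obtain ⟨h1, h2, h3, h4⟩ := h a (by omega)
  exact ⟨h1, h2, h3, h4⟩

theorem ptime_red {G : Circuit × ℕ → Circuit} (hG : PTime G) (κ : ℕ) :
    PTime (fun C : Circuit => red G κ C) := by
  have hn := pu_n (PTime.id (α := Circuit))
  have hm := PU.ofLength (ptime_outs (PTime.id (α := Circuit)))
  have hS : PU (fun C : Circuit => 2 * C.n + 1) := ((PU.const 2).mul hn).add (PU.const 1)
  have hN : PU (fun C : Circuit => NN κ C) :=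
    ((hm.add (PU.const 2)).mul hS).add (pu_pow ((PU.const 8).mul (hn.add (PU.const 2))) _)
  have hG2 : PTime (fun p : Circuit × ℕ => (G (p.1, p.2)).gates) := ptime_gates hG
  have hΓ : PU (fun C : Circuit => GG G C) :=
    PU.ofLength (PTime.flatMap (g := fun (C : Circuit) (b : ℕ) => (G (C, b)).gates)
      (hm.add (PU.const 1)).range hG2)
  exact ptime_jux (G := fun (C : Circuit) (b : ℕ) => G (C, b)) hN
    ((PTime.const 2).mul hS.toNat) hS.toNat (pu_LL PTime.id) hΓ (hm.add (PU.const 1)) hG

/-- Unrestricted Circuit-FLIP reduces to Circuit-FLIP with windows of size `ε * log n`. -/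
theorem hard (κ : ℕ) (hκ : 0 < κ) :
    PLSReduces (fun _ => True) fun C => C.SynWindow (Nat.log 2 C.n / κ) := by
  obtain ⟨G, hG, hGOK⟩ := exists_G
  have hn : PU (fun p : Circuit × List Bool => p.1.n) := pu_n PTime.fst
  refine ⟨fun C => red G κ C, fun p => cur p.1.n p.2 (2 * p.1.n + 1),
    (ptime_red hG κ).isPolyTime, (ptime_cur hn PTime.snd (((PTime.const 2).mul hn.toNat).add
      (PTime.const 1))).isPolyTime, fun C _ _ => ⟨red_valid hGOK κ C, red_window hGOK κ hκ C,
      fun y hy => red_min hGOK hy⟩⟩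

/-- semantic influence implies syntactic dependence -/
theorem reads_of_env {C : Circuit} (hC : C.Valid) {x : List Bool} (hx : x.length = C.n) {i : ℕ}
    (hi : i < C.n) (w : ℕ) (hw : w < C.n + C.gates.length)
    (h : C.env (flip x i) w ≠ C.env x w) : C.Reads w i := by
  induction w using Nat.strong_induction_on with
  | _ w ih =>
    by_cases hwn : w < C.n
    · rw [Circuit.env_input C (by rw [length_flip]; omega), Circuit.env_input C (by omega),
        getD_flip _ _ _ (by omega)] at h
      by_cases hiw : i = w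
      · rw [← hiw]
        exact .input hi
      · rw [if_neg hiw] at h
        exact absurd rfl h
    · obtain ⟨q, rfl⟩ : ∃ q, w = C.n + q := ⟨w - C.n, by omega⟩
      have hq : q < C.gates.length := by omega
      rw [Circuit.env_gate hC (by rw [length_flip, hx]) hq, Circuit.env_gate hC hx hq] at h
      by_contra hcon
      apply h
      have hall : ∀ r ∈ C.gates[q].refs, C.env (flip x i) r = C.env x r := by
        intro r hr
        by_contra hne
        have hlt := hC.1 q hq r hr
        exact hcon (.gate hq hr (ih r hlt (by omega) hne))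
      generalize C.gates[q] = g at hall
      cases g with
      | and u v =>
        simp only [Gate.evalW]
        rw [hall u (by simp [Gate.refs]), hall v (by simp [Gate.refs])]
      | or u v =>
        simp only [Gate.evalW]
        rw [hall u (by simp [Gate.refs]), hall v (by simp [Gate.refs])]
      | not u =>
        simp only [Gate.evalW]
        rw [hall u (by simp [Gate.refs])]

/-- syntactic windows are windows -/
theorem window_of_syn {C : Circuit} (hC : C.Valid) {β : ℕ} (h : C.SynWindow β) :
    C.Window β := by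
  intro i hi
  obtain ⟨a, ha⟩ := h i hi
  refine ⟨a, fun j hj hij => ha j hj ?_⟩
  obtain ⟨x, hx, hne⟩ := hij
  have hj' : C.outs.getD j 0 < C.n + C.gates.length := by
    rw [List.getD_eq_getElem _ _ hj]
    exact (hC.2 _ (List.getElem_mem hj)).2
  exact reads_of_env hC hx hi _ hj' hne

end

end Pool.Agent.MPa0a715.BW
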