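import Pool.Agent.Lib.MP_a0a715_lc_BW.Defs
import Pool.Agent.Lib.MP_a0a715_lc_IN.PT

/-!
# Juxtaposition of circuits reading different parts of the input

Circuit `b` of the family `G` reads the inputs `b * S + i` for `i < k`, and contributes the
outputs `b * L + t` for `t < L`.
-/

namespace Pool.Agent.MPa0a715.BW

open Pool.Agent.MPa0a715 Pool.Agent.PolyTime

/-- new number of wire `w` of circuit `b`; every circuit is filled up to `Γ` gates -/
def ren (N k S Γ b w : ℕ) : ℕ := if w < k then b * S + w else N + b * Γ + (w - k)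

/-- renumber the wires read by a gate -/
def mp (f : ℕ → ℕ) : Gate → Gate
  | .and i j => .and (f i) (f j)
  | .or i j => .or (f i) (f j)
  | .not i => .not (f i)

theorem mp_refs (f : ℕ → ℕ) (g : Gate) : (mp f g).refs = g.refs.map f := by
  cases g <;> rfl

theorem mp_eval (f : ℕ → ℕ) (g : Gate) (v : ℕ → Bool) :
    (mp f g).evalW v = g.evalW fun w => v (f w) := by
  cases g <;> rfl

/-- the juxtaposition of `B` circuits -/
def jux (N k S L Γ B : ℕ) (G : ℕ → Circuit) : Circuit where
  n := N
  gates := (List.range (B * Γ)).map fun q =>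
    mp (ren N k S Γ (q / Γ)) ((G (q / Γ)).gates.getD (q % Γ) (.not 0))
  outs := (List.range (B * L)).map fun p =>
    ren N k S Γ (p / L) ((G (p / L)).outs.getD (p % L) 0)

section
variable {N k S L Γ B : ℕ} {G : ℕ → Circuit}

theorem jux_outs_length : (jux N k S L Γ B G).outs.length = B * L := by
  unfold jux
  simp

theorem jux_gates_length : (jux N k S L Γ B G).gates.length = B * Γ := by
  unfold jux
  simp

/-- the part of the input read by circuit `b` -/
def seg (k S b : ℕ) (x : List Bool) : List Bool :=
  (List.range k).map fun i => x.getD (b * S + i) false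

theorem length_seg (k S b : ℕ) (x : List Bool) : (seg k S b x).length = k := by
  unfold seg
  simp

theorem seg_getD {k S b i : ℕ} (x : List Bool) (hi : i < k) :
    (seg k S b x).getD i false = x.getD (b * S + i) false := by
  unfold seg
  rw [List.getD_eq_getElem _ _ (by simpa using hi), List.getElem_map, List.getElem_range]

/-- assumptions on the family -/
structure Fam (N k S L Γ B : ℕ) (G : ℕ → Circuit) : Prop where
  pos : 0 < k
  valid : ∀ b < B, (G b).Valid
  n : ∀ b < B, (G b).n = k
  outs : ∀ b < B, (G b).outs.length = L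
  gates : ∀ b < B, (G b).gates.length ≤ Γ
  le : ∀ b < B, b * S + k ≤ N

variable (h : Fam N k S L Γ B G)

include h in
theorem jux_valid : (jux N k S L Γ B G).Valid := by
  constructor
  · intro q hq r hr
    rw [jux_gates_length] at hq
    have hΓ : 0 < Γ := by
      rcases Nat.eq_zero_or_pos Γ with h0 | h0
      · subst h0
        omega
      · exact h0
    have hb : q / Γ < B := (Nat.div_lt_iff_lt_mul hΓ).2 hq
    have hk := h.pos
    have hle := h.le _ hb
    change r < N + q
    have hr' : r ∈ (mp (ren N k S Γ (q / Γ)) ((G (q / Γ)).gates.getD (q % Γ)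
        (.not 0))).refs := by
      have e1 : (jux N k S L Γ B G).gates[q]'(by rw [jux_gates_length]; exact hq) =
          mp (ren N k S Γ (q / Γ)) ((G (q / Γ)).gates.getD (q % Γ) (.not 0)) := by
        unfold jux
        simp
      rw [← e1]
      exact hr
    rw [mp_refs, List.mem_map] at hr'
    obtain ⟨w, hw, rfl⟩ := hr'
    have hdm := Nat.div_add_mod q Γ
    rw [Nat.mul_comm] at hdm
    by_cases hg : q % Γ < (G (q / Γ)).gates.length
    · rw [List.getD_eq_getElem _ _ hg] at hw
      have h1 := (h.valid _ hb).1 _ hg w hw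
      rw [h.n _ hb] at h1
      unfold ren
      split_ifs with h2
      · omega
      · omega
    · rw [List.getD_eq_default _ _ (by omega)] at hw
      simp only [Gate.refs, List.mem_singleton] at hw
      subst hw
      unfold ren
      rw [if_pos hk]
      omega
  · intro o ho
    have ho' : o ∈ (List.range (B * L)).map fun p =>
        ren N k S Γ (p / L) ((G (p / L)).outs.getD (p % L) 0) := ho
    obtain ⟨p, hp, rfl⟩ := List.mem_map.1 ho'
    rw [List.mem_range] at hp
    have hL : 0 < L := by
      rcases Nat.eq_zero_or_pos L with h0 | h0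
      · subst h0
        omega
      · exact h0
    have hb : p / L < B := (Nat.div_lt_iff_lt_mul hL).2 hp
    have hm : p % L < (G (p / L)).outs.length := by
      rw [h.outs _ hb]
      exact Nat.mod_lt _ hL
    rw [List.getD_eq_getElem _ _ hm]
    obtain ⟨h1, h2⟩ := (h.valid _ hb).2 _ (List.getElem_mem hm)
    have h3 := h.gates _ hb
    rw [h.n _ hb] at h1 h2
    rw [jux_gates_length]
    change N ≤ _ ∧ _ < N + B * Γ
    unfold ren
    rw [if_neg (by omega)]
    have h4 : (p / L + 1) * Γ ≤ B * Γ := Nat.mul_le_mul_right _ hb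
    rw [Nat.add_one_mul] at h4
    omega

theorem getElem_jux {b i : ℕ} (hb : b < B) (hi : i < Γ) :
    ∃ hq : b * Γ + i < (jux N k S L Γ B G).gates.length,
      (jux N k S L Γ B G).gates[b * Γ + i] =
        mp (ren N k S Γ b) ((G b).gates.getD i (.not 0)) := by
  have hq : b * Γ + i < B * Γ := by
    have : (b + 1) * Γ ≤ B * Γ := Nat.mul_le_mul_right _ hb
    rw [Nat.add_one_mul] at this
    omega
  refine ⟨by rw [jux_gates_length]; exact hq, ?_⟩
  have e1 : (b * Γ + i) / Γ = b := by
    rw [Nat.mul_comm, Nat.mul_add_div (by omega), Nat.div_eq_of_lt hi, Nat.add_zero]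
  have e2 : (b * Γ + i) % Γ = i := by
    rw [Nat.mul_comm, Nat.mul_add_mod, Nat.mod_eq_of_lt hi]
  unfold jux
  simp only [List.getElem_map, List.getElem_range]
  rw [e1, e2]

include h in
/-- the wires of the parts -/
theorem jux_env {x : List Bool} (hx : x.length = N) {b : ℕ} (hb : b < B) (w : ℕ)
    (hw : w < k + (G b).gates.length) :
    (jux N k S L Γ B G).env x (ren N k S Γ b w) = (G b).env (seg k S b x) w := by
  induction w using Nat.strong_induction_on with
  | _ w ih =>
    have hle := h.le b hb
    have hgl := h.gates b hb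
    by_cases hwk : w < k
    · unfold ren
      rw [if_pos hwk, Circuit.env_input _ (by omega), Circuit.env_input _
        (by rw [length_seg]; exact hwk), seg_getD x hwk]
    · obtain ⟨i, rfl⟩ : ∃ i, w = k + i := ⟨w - k, by omega⟩
      have hi : i < (G b).gates.length := by omega
      have e0 : ren N k S Γ b (k + i) = N + (b * Γ + i) := by
        unfold ren
        rw [if_neg (by omega)]
        omega
      obtain ⟨hq, e1⟩ := getElem_jux (N := N) (k := k) (S := S) (L := L) (G := G) hb
        (show i < Γ by omega)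
      have e2 := Circuit.env_gate (jux_valid h) (x := x) (by rw [hx]; rfl) hq
      have e3 := Circuit.env_gate (h.valid b hb) (x := seg k S b x)
        (by rw [length_seg, h.n b hb]) hi
      rw [h.n b hb] at e3
      rw [e0]
      change (jux N k S L Γ B G).env x ((jux N k S L Γ B G).n + (b * Γ + i)) = _
      rw [e2, e3, e1, mp_eval, List.getD_eq_getElem _ _ hi]
      have hrefs := (h.valid b hb).1 i hi
      rw [h.n b hb] at hrefs
      generalize (G b).gates[i] = g at hrefs
      cases g with
      | and u v =>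
        simp only [Gate.evalW]
        rw [ih u (hrefs u (by simp [Gate.refs])) (by have := hrefs u (by simp [Gate.refs]); omega),
          ih v (hrefs v (by simp [Gate.refs])) (by have := hrefs v (by simp [Gate.refs]); omega)]
      | or u v =>
        simp only [Gate.evalW]
        rw [ih u (hrefs u (by simp [Gate.refs])) (by have := hrefs u (by simp [Gate.refs]); omega),
          ih v (hrefs v (by simp [Gate.refs])) (by have := hrefs v (by simp [Gate.refs]); omega)]
      | not u =>
        simp only [Gate.evalW]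
        rw [ih u (hrefs u (by simp [Gate.refs])) (by have := hrefs u (by simp [Gate.refs]); omega)]

theorem jux_out_getD {b t : ℕ} (hb : b < B) (ht : t < L) :
    (jux N k S L Γ B G).outs.getD (b * L + t) 0 = ren N k S Γ b ((G b).outs.getD t 0) := by
  have hq : b * L + t < B * L := by
    have : (b + 1) * L ≤ B * L := Nat.mul_le_mul_right _ hb
    rw [Nat.add_one_mul] at this
    omega
  have e1 : (b * L + t) / L = b := by
    rw [Nat.mul_comm, Nat.mul_add_div (by omega), Nat.div_eq_of_lt ht, Nat.add_zero]
  have e2 : (b * L + t) % L = t := by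
    rw [Nat.mul_comm, Nat.mul_add_mod, Nat.mod_eq_of_lt ht]
  rw [List.getD_eq_getElem _ _ (by rw [jux_outs_length]; exact hq)]
  unfold jux
  simp only [List.getElem_map, List.getElem_range]
  rw [e1, e2]

include h in
/-- the outputs of the parts -/
theorem jux_outBit {x : List Bool} (hx : x.length = N) {b t : ℕ} (hb : b < B) (ht : t < L) :
    (jux N k S L Γ B G).outBit x (b * L + t) = (G b).outBit (seg k S b x) t := by
  have ho : (G b).outs.getD t 0 < k + (G b).gates.length := by
    have h1 : t < (G b).outs.length := by rw [h.outs b hb]; exact ht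
    rw [List.getD_eq_getElem _ _ h1]
    have := ((h.valid b hb).2 _ (List.getElem_mem h1)).2
    rwa [h.n b hb] at this
  have h1 := jux_env h hx hb _ ho
  unfold Circuit.outBit
  rw [jux_out_getD hb ht]
  exact h1

/-! ### syntactic dependence -/

include h in
/-- the wires of a part depend on inputs of the part only -/
theorem jux_reads {w i : ℕ} (hr : (jux N k S L Γ B G).Reads w i) :
    (w < N ∧ w = i) ∨ ∃ b < B, ∃ q < Γ, w = N + (b * Γ + q) ∧ b * S ≤ i ∧ i < b * S + k := by
  induction hr with
  | input hi => exact Or.inl ⟨hi, rfl⟩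
  | @gate q r i hq hrq _ ih =>
    right
    have hq' : q < B * Γ := by rw [jux_gates_length] at hq; exact hq
    have hΓ : 0 < Γ := by
      rcases Nat.eq_zero_or_pos Γ with h0 | h0
      · subst h0
        omega
      · exact h0
    have hb : q / Γ < B := (Nat.div_lt_iff_lt_mul hΓ).2 hq'
    have hm : q % Γ < Γ := Nat.mod_lt _ hΓ
    have hdm := Nat.div_add_mod q Γ
    rw [Nat.mul_comm] at hdm
    refine ⟨q / Γ, hb, q % Γ, hm, ?_, ?_⟩
    · change N + q = _
      omega
    obtain ⟨hq2, e1⟩ := getElem_jux (N := N) (k := k) (S := S) (L := L) (G := G) hb hm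
    have e2 : (jux N k S L Γ B G).gates[q] =
        mp (ren N k S Γ (q / Γ)) ((G (q / Γ)).gates.getD (q % Γ) (.not 0)) := by
      rw [← e1]
      congr 1
      exact hdm.symm
    rw [e2, mp_refs, List.mem_map] at hrq
    obtain ⟨v, hv, rfl⟩ := hrq
    have hkpos := h.pos
    have hle := h.le _ hb
    by_cases hvk : v < k
    · have e3 : ren N k S Γ (q / Γ) v = q / Γ * S + v := by
        unfold ren
        rw [if_pos hvk]
      rw [e3] at ih
      rcases ih with ⟨_, h2⟩ | ⟨b', _, q', _, h3, _⟩
      · omega
      · omega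
    · have e3 : ren N k S Γ (q / Γ) v = N + (q / Γ * Γ + (v - k)) := by
        unfold ren
        rw [if_neg hvk]
        omega
      have hvlt : v - k < Γ := by
        by_cases hg : q % Γ < (G (q / Γ)).gates.length
        · rw [List.getD_eq_getElem _ _ hg] at hv
          have h1 := (h.valid _ hb).1 _ hg v hv
          rw [h.n _ hb] at h1
          omega
        · rw [List.getD_eq_default _ _ (by omega)] at hv
          simp only [Gate.refs, List.mem_singleton] at hv
          omega
      rw [e3] at ih
      rcases ih with ⟨h2, _⟩ | ⟨b', _, q', hq', h3, h4⟩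
      · omega
      · have h5 : q / Γ * Γ + (v - k) = b' * Γ + q' := by omega
        have h6 : b' = q / Γ := by
          have e4 : (q / Γ * Γ + (v - k)) / Γ = (b' * Γ + q') / Γ := by rw [h5]
          rw [Nat.mul_comm, Nat.mul_add_div hΓ, Nat.div_eq_of_lt hvlt, Nat.mul_comm b',
            Nat.mul_add_div hΓ, Nat.div_eq_of_lt hq'] at e4
          omega
        rw [← h6]
        exact h4

end

section
variable {N k S L Γ B : ℕ} {G : ℕ → Circuit}

/-- the outputs of a part depend on inputs of the part only -/
theorem jux_reads_out (h : Fam N k S L Γ B G) {i j : ℕ}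
    (hj : j < (jux N k S L Γ B G).outs.length)
    (hr : (jux N k S L Γ B G).Reads ((jux N k S L Γ B G).outs.getD j 0) i) :
    j / L * S ≤ i ∧ i < j / L * S + k := by
  rw [jux_outs_length] at hj
  have hL : 0 < L := by
    rcases Nat.eq_zero_or_pos L with h0 | h0
    · subst h0
      omega
    · exact h0
  have hb : j / L < B := (Nat.div_lt_iff_lt_mul hL).2 hj
  have hm : j % L < L := Nat.mod_lt _ hL
  have hdm : j / L * L + j % L = j := by
    rw [Nat.mul_comm]
    exact Nat.div_add_mod j L
  have e1 := jux_out_getD (N := N) (k := k) (S := S) (Γ := Γ) (G := G) hb hm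
  rw [hdm] at e1
  have h1 : j % L < (G (j / L)).outs.length := by rw [h.outs _ hb]; exact hm
  rw [List.getD_eq_getElem _ _ h1] at e1
  obtain ⟨h2, h3⟩ := (h.valid _ hb).2 _ (List.getElem_mem h1)
  rw [h.n _ hb] at h2 h3
  have h4 := h.gates _ hb
  have e2 : ren N k S Γ (j / L) (G (j / L)).outs[j % L] =
      N + (j / L * Γ + ((G (j / L)).outs[j % L] - k)) := by
    unfold ren
    rw [if_neg (by omega)]
    omega
  rw [e1, e2] at hr
  have hlt : (G (j / L)).outs[j % L] - k < Γ := by omega
  rcases jux_reads h hr with ⟨h5, _⟩ | ⟨b', _, q', hq', h5, h6⟩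
  · omega
  · have h7 : j / L * Γ + ((G (j / L)).outs[j % L] - k) = b' * Γ + q' := by omega
    have hΓ : 0 < Γ := by omega
    have h8 : b' = j / L := by
      have e4 : (j / L * Γ + ((G (j / L)).outs[j % L] - k)) / Γ = (b' * Γ + q') / Γ := by
        rw [h7]
      rw [Nat.mul_comm, Nat.mul_add_div hΓ, Nat.div_eq_of_lt hlt, Nat.mul_comm b',
        Nat.mul_add_div hΓ, Nat.div_eq_of_lt hq'] at e4
      omega
    rw [← h8]
    exact h6

end

/-! ### polynomial time -/

section
variable {α : Type} [Enc α]

theorem ptime_gate {k : α → Option Bool} {i j : α → ℕ} (hk : PTime k) (hi : PTime i)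
    (hj : PTime j) : PTime (fun a => match k a with
      | some true => Gate.and (i a) (j a)
      | some false => Gate.or (i a) (j a)
      | none => Gate.not (i a)) := by
  refine (ptime_ite_eq hk (b := some true) (ptime_and hi hj) (ptime_ite_eq hk (b := some false)
    (ptime_or hi hj) (ptime_not hi))).of_eq fun a => ?_
  cases k a with
  | none => rfl
  | some b => cases b <;> rfl

theorem ptime_mp {f : α → ℕ → ℕ} {g : α → Gate} (hf : PTime₂ f) (hg : PTime g) :
    PTime (fun a => mp (f a) (g a)) := by
  have hc := ptime_code hg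
  have h1 : PTime (fun a => f a (g a).code.2.1) := hf.comp (PTime.id.pair hc.snd'.fst')
  have h2 : PTime (fun a => f a (g a).code.2.2) := hf.comp (PTime.id.pair hc.snd'.snd')
  refine (ptime_gate hc.fst' h1 h2).of_eq fun a => ?_
  cases g a <;> rfl

theorem ptime_ren {N k S Γ b w : α → ℕ} (hN : PTime N) (hk : PTime k) (hS : PTime S)
    (hΓ : PTime Γ) (hb : PTime b) (hw : PTime w) :
    PTime (fun a => ren (N a) (k a) (S a) (Γ a) (b a) (w a)) :=
  PTime.iteP (PTime.lt hw hk) ((hb.mul hS).add hw) ((hN.add (hb.mul hΓ)).add (hw.sub hk))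

theorem ptime_jux {N k S L Γ B : α → ℕ} {G : α → ℕ → Circuit} (hN : PU N) (hk : PTime k)
    (hS : PTime S) (hL : PU L) (hΓ : PU Γ) (hB : PU B) (hG : PTime₂ G) :
    PTime (fun a => jux (N a) (k a) (S a) (L a) (Γ a) (B a) (G a)) := by
  have n1 : PTime (fun p : α × ℕ => N p.1) := hN.toNat.comp PTime.fst
  have n2 : PTime (fun p : α × ℕ => k p.1) := hk.comp PTime.fst
  have n3 : PTime (fun p : α × ℕ => S p.1) := hS.comp PTime.fst
  have n4 : PTime (fun p : α × ℕ => L p.1) := hL.toNat.comp PTime.fst
  have n5 : PTime (fun p : α × ℕ => Γ p.1) := hΓ.toNat.comp PTime.fst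
  have d1 : PTime (fun p : α × ℕ => p.2 / Γ p.1) := PTime.snd.div n5
  have m1 : PTime (fun p : α × ℕ => p.2 % Γ p.1) := PTime.snd.mod n5
  have d2 : PTime (fun p : α × ℕ => p.2 / L p.1) := PTime.snd.div n4
  have m2 : PTime (fun p : α × ℕ => p.2 % L p.1) := PTime.snd.mod n4
  have g1 : PTime (fun p : α × ℕ => G p.1 (p.2 / Γ p.1)) := hG.comp (PTime.fst.pair d1)
  have g2 : PTime (fun p : α × ℕ => G p.1 (p.2 / L p.1)) := hG.comp (PTime.fst.pair d2)
  have hdef : PTime (fun _ : α × ℕ => Gate.not 0) := PTime.const _
  refine ptime_circuit hN ?_ ?_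
  · refine PTime.map (g := fun (a : α) (q : ℕ) => mp (ren (N a) (k a) (S a) (Γ a) (q / Γ a))
      ((G a (q / Γ a)).gates.getD (q % Γ a) (.not 0))) (hB.mul hΓ).range ?_
    refine ptime_mp (f := fun (p : α × ℕ) (w : ℕ) => ren (N p.1) (k p.1) (S p.1) (Γ p.1)
      (p.2 / Γ p.1) w) ?_ (PTime.listGetD (ptime_gates g1) m1 hdef)
    exact ptime_ren (n1.comp PTime.fst) (n2.comp PTime.fst) (n3.comp PTime.fst)
      (n5.comp PTime.fst) (d1.comp PTime.fst) PTime.snd
  · refine PTime.map (g := fun (a : α) (p : ℕ) => ren (N a) (k a) (S a) (Γ a) (p / L a)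
      ((G a (p / L a)).outs.getD (p % L a) 0)) (hB.mul hL).range ?_
    exact ptime_ren n1 n2 n3 n5 d2 (PTime.listGetD (ptime_outs g2) m2 (PTime.const 0))

end

end Pool.Agent.MPa0a715.BW
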