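import Pool.Agent.Lib.MP_a0a715_lc_BW.Sem
import Pool.Agent.Lib.MP_a0a715_lc_BW.Jux

/-!
# The reduction
-/

namespace Pool.Agent.MPa0a715.BW

open Pool.Agent.MPa0a715 Pool.Agent.PolyTime
open Pool.Agent.MPa0a715.IN (cost_lt_iff)

/-! ### slices of the input -/

/-- `n` bits from position `a` on -/
def sl (n : ℕ) (x : List Bool) (a : ℕ) : List Bool :=
  (List.range n).map fun i => x.getD (a + i) false

/-- the current solution of the level starting at `a` -/
def cur (n : ℕ) (x : List Bool) (a : ℕ) : List Bool :=
  if x.getD (a + 2 * n) false = true then sl n x (a + n) else sl n x a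

/-- the other solution of the level starting at `a` -/
def oth (n : ℕ) (x : List Bool) (a : ℕ) : List Bool :=
  if x.getD (a + 2 * n) false = true then sl n x a else sl n x (a + n)

theorem length_sl (n : ℕ) (x : List Bool) (a : ℕ) : (sl n x a).length = n := by
  unfold sl
  simp

theorem length_cur (n : ℕ) (x : List Bool) (a : ℕ) : (cur n x a).length = n := by
  unfold cur
  split_ifs <;> exact length_sl _ _ _

theorem length_oth (n : ℕ) (x : List Bool) (a : ℕ) : (oth n x a).length = n := by
  unfold oth
  split_ifs <;> exact length_sl _ _ _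

theorem sl_getD {n a i : ℕ} (x : List Bool) (hi : i < n) :
    (sl n x a).getD i false = x.getD (a + i) false := by
  unfold sl
  rw [List.getD_eq_getElem _ _ (by simpa using hi), List.getElem_map, List.getElem_range]

theorem sl_congr {n a a' : ℕ} {x y : List Bool}
    (h : ∀ i < n, x.getD (a + i) false = y.getD (a' + i) false) : sl n x a = sl n y a' := by
  unfold sl
  exact List.map_congr_left fun i hi => h i (List.mem_range.1 hi)

theorem cur_congr {n a a' : ℕ} {x y : List Bool}
    (h : ∀ i < 2 * n + 1, x.getD (a + i) false = y.getD (a' + i) false) :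
    cur n x a = cur n y a' := by
  unfold cur
  rw [h (2 * n) (by omega), sl_congr (x := x) (y := y) (a := a + n) (a' := a' + n) fun i hi => by
    rw [Nat.add_assoc, Nat.add_assoc]; exact h _ (by omega),
    sl_congr (x := x) (y := y) (a := a) (a' := a') fun i hi => h i (by omega)]

theorem oth_congr {n a a' : ℕ} {x y : List Bool}
    (h : ∀ i < 2 * n + 1, x.getD (a + i) false = y.getD (a' + i) false) :
    oth n x a = oth n y a' := by
  unfold oth
  rw [h (2 * n) (by omega), sl_congr (x := x) (y := y) (a := a + n) (a' := a' + n) fun i hi => by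
    rw [Nat.add_assoc, Nat.add_assoc]; exact h _ (by omega),
    sl_congr (x := x) (y := y) (a := a) (a' := a') fun i hi => h i (by omega)]

theorem getD_flip_ne {x : List Bool} {i j : ℕ} (h : i ≠ j) :
    (flip x i).getD j false = x.getD j false := by
  by_cases hj : j < x.length
  · rw [getD_flip _ _ _ hj, if_neg h]
  · rw [List.getD_eq_default _ _ (by rw [length_flip]; omega),
      List.getD_eq_default _ _ (by omega)]

theorem getD_flip_eq {x : List Bool} {i : ℕ} (h : i < x.length) :
    (flip x i).getD i false = !x.getD i false := by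
  rw [getD_flip _ _ _ h, if_pos rfl]

theorem sl_flip_ne {n a p : ℕ} {x : List Bool} (h : p < a ∨ a + n ≤ p) :
    sl n (flip x p) a = sl n x a :=
  sl_congr fun i hi => getD_flip_ne (by omega)

theorem sl_flip {n a i : ℕ} {x : List Bool} (hx : a + i < x.length) :
    sl n (flip x (a + i)) a = flip (sl n x a) i := by
  refine ext_getD (by rw [length_flip, length_sl, length_sl]) fun j hj => ?_
  rw [length_sl] at hj
  rw [sl_getD _ hj, getD_flip (sl n x a) i j (by rw [length_sl]; exact hj), sl_getD _ hj]
  by_cases h : i = j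
  · rw [if_pos h, ← h, getD_flip_eq hx]
  · rw [if_neg h, getD_flip_ne (by omega)]

/-- flipping the selector exchanges the two solutions -/
theorem flip_sel {n a : ℕ} {x : List Bool} (hx : a + 2 * n < x.length) :
    cur n (flip x (a + 2 * n)) a = oth n x a ∧ oth n (flip x (a + 2 * n)) a = cur n x a := by
  unfold cur oth
  rw [getD_flip_eq hx, sl_flip_ne (Or.inr (by omega)), sl_flip_ne (Or.inr (by omega))]
  cases x.getD (a + 2 * n) false <;> simp

/-- flipping a bit of the other solution -/
theorem flip_oth {n a i : ℕ} {x : List Bool} (hi : i < n) (hx : a + 2 * n < x.length) :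
    ∃ r < 2 * n + 1, cur n (flip x (a + r)) a = cur n x a ∧
      oth n (flip x (a + r)) a = flip (oth n x a) i := by
  cases h : x.getD (a + 2 * n) false
  · refine ⟨n + i, by omega, ?_, ?_⟩
    · unfold cur
      rw [getD_flip_ne (by omega), h, if_neg Bool.false_ne_true, if_neg Bool.false_ne_true,
        sl_flip_ne (Or.inr (by omega))]
    · unfold oth
      rw [getD_flip_ne (by omega), h, if_neg Bool.false_ne_true, if_neg Bool.false_ne_true,
        ← Nat.add_assoc, sl_flip (by omega)]
  · refine ⟨i, by omega, ?_, ?_⟩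
    · unfold cur
      rw [getD_flip_ne (by omega), h, if_pos rfl, if_pos rfl,
        sl_flip_ne (Or.inl (by omega))]
    · unfold oth
      rw [getD_flip_ne (by omega), h, if_pos rfl, if_pos rfl, sl_flip (by omega)]

theorem cur_flip_ne {n q q' r : ℕ} {x : List Bool} (hr : r < 2 * n + 1) (h : q' ≠ q) :
    cur n (flip x (q * (2 * n + 1) + r)) (q' * (2 * n + 1)) = cur n x (q' * (2 * n + 1)) ∧
    oth n (flip x (q * (2 * n + 1) + r)) (q' * (2 * n + 1)) = oth n x (q' * (2 * n + 1)) := by
  have key : ∀ i < 2 * n + 1, q * (2 * n + 1) + r ≠ q' * (2 * n + 1) + i := by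
    intro i hi
    rcases Nat.lt_or_gt_of_ne h with h1 | h1
    · have := Nat.mul_le_mul_right (2 * n + 1) (Nat.succ_le_of_lt h1)
      rw [Nat.succ_mul] at this
      omega
    · have := Nat.mul_le_mul_right (2 * n + 1) (Nat.succ_le_of_lt h1)
      rw [Nat.succ_mul] at this
      omega
  exact ⟨cur_congr fun i hi => getD_flip_ne (key i hi),
    oth_congr fun i hi => getD_flip_ne (key i hi)⟩

/-! ### comparing numbers -/

theorem exists_bit {a b L : ℕ} (hab : a < b) (hb : b < 2 ^ L) :
    ∃ t < L, a.testBit t = false ∧ b.testBit t = true ∧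
      ∀ t', t < t' → a.testBit t' = b.testBit t' := by
  have hne : a ^^^ b ≠ 0 := by
    rw [Ne, Nat.xor_eq_zero_iff]
    omega
  obtain ⟨t, h1, h2⟩ := Nat.exists_most_significant_bit hne
  rw [Nat.testBit_xor] at h1
  have h3 : ∀ t', t < t' → a.testBit t' = b.testBit t' := by
    intro t' ht'
    have := h2 t' ht'
    rw [Nat.testBit_xor] at this
    exact xor_false_iff.1 this
  have h4 : a.testBit t = false := by
    rw [← Bool.not_eq_true]
    intro hat
    have hbt : b.testBit t = false := by
      rw [hat] at h1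
      revert h1
      cases b.testBit t <;> simp
    have := Nat.lt_of_testBit t hbt hat fun j hj => (h3 j hj).symm
    omega
  have h5 : b.testBit t = true := by
    rw [h4] at h1
    revert h1
    cases b.testBit t <;> simp
  refine ⟨t, ?_, h4, h5, h3⟩
  by_contra hcon
  rw [Nat.testBit_lt_two_pow (hb.trans_le (Nat.pow_le_pow_right (by norm_num) (by omega)))] at h5
  exact Bool.false_ne_true h5

/-! ### the reduction -/

/-- the number of bits of a block -/
def LL (C : Circuit) : ℕ := Nat.size (4 * (C.n + 2))

theorem gv_lt_two_pow (C : Circuit) (b : ℕ) (c o c' o' : List Bool) :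
    gv C b c o c' o' < 2 ^ LL C :=
  (gv_lt C b c o c' o').trans (Nat.lt_size_self _)

theorem two_pow_LL (C : Circuit) : 2 ^ LL C ≤ 8 * (C.n + 2) := by
  unfold LL
  have h1 : 0 < Nat.size (4 * (C.n + 2)) := Nat.size_pos.2 (by omega)
  have h2 : 2 ^ (Nat.size (4 * (C.n + 2)) - 1) ≤ 4 * (C.n + 2) := Nat.lt_size.1 (by omega)
  have h3 : 2 ^ Nat.size (4 * (C.n + 2)) = 2 ^ (Nat.size (4 * (C.n + 2)) - 1) * 2 := by
    rw [← pow_succ]
    congr 1
    omega
  omega

/-- the functions computed by the circuits for the blocks -/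
def Fb (a : Circuit × ℕ) (t : ℕ) (y : List Bool) : Bool :=
  (gv a.1 a.2 (cur a.1.n y 0) (oth a.1.n y 0) (cur a.1.n y (2 * a.1.n + 1))
    (oth a.1.n y (2 * a.1.n + 1))).testBit t

/-- the circuits for the blocks are correct -/
def GOK (G : Circuit × ℕ → Circuit) : Prop :=
  ∀ a : Circuit × ℕ, (G a).Valid ∧ (G a).n = 2 * (2 * a.1.n + 1) ∧
    (G a).outs.length = LL a.1 ∧ ∀ x : List Bool, x.length = 2 * (2 * a.1.n + 1) →
      ∀ j < LL a.1, (G a).outBit x j = Fb a j x

/-- number of inputs of the new circuit -/
def NN (κ : ℕ) (C : Circuit) : ℕ :=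
  (C.outs.length + 2) * (2 * C.n + 1) + (8 * (C.n + 2)) ^ (2 * κ)

/-- bound for the numbers of gates of the parts -/
def GG (G : Circuit × ℕ → Circuit) (C : Circuit) : ℕ :=
  ((List.range (C.outs.length + 1)).flatMap fun b => (G (C, b)).gates).length

/-- the new circuit -/
def red (G : Circuit × ℕ → Circuit) (κ : ℕ) (C : Circuit) : Circuit :=
  jux (NN κ C) (2 * (2 * C.n + 1)) (2 * C.n + 1) (LL C) (GG G C) (C.outs.length + 1)
    fun b => G (C, b)

section
variable {G : Circuit × ℕ → Circuit} (hG : GOK G) (κ : ℕ) (C : Circuit)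

include hG in
theorem fam : Fam (NN κ C) (2 * (2 * C.n + 1)) (2 * C.n + 1) (LL C) (GG G C)
    (C.outs.length + 1) fun b => G (C, b) where
  pos := by omega
  valid b _ := (hG (C, b)).1
  n b _ := (hG (C, b)).2.1
  outs b _ := (hG (C, b)).2.2.1
  gates b hb := by
    have h1 : (G (C, b)).gates.Sublist
        ((List.range (C.outs.length + 1)).flatMap fun b => (G (C, b)).gates) := by
      generalize hl : List.range (C.outs.length + 1) = l
      have hbl : b ∈ l := by
        rw [← hl]
        exact List.mem_range.2 hb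
      clear hl
      induction l with
      | nil => exact absurd hbl List.not_mem_nil
      | cons a l ih =>
        rw [List.flatMap_cons]
        rcases List.mem_cons.1 hbl with rfl | h
        · exact List.sublist_append_left _ _
        · exact (ih h).trans (List.sublist_append_right _ _)
    exact h1.length_le
  le b hb := by
    unfold NN
    have h1 : (b + 2) * (2 * C.n + 1) ≤ (C.outs.length + 2) * (2 * C.n + 1) :=
      Nat.mul_le_mul_right _ (by omega)
    rw [Nat.add_mul] at h1
    omega

include hG in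
theorem red_valid : (red G κ C).Valid := jux_valid (fam hG κ C)

theorem red_n : (red G κ C).n = NN κ C := rfl

theorem red_outs_length : (red G κ C).outs.length = (C.outs.length + 1) * LL C :=
  jux_outs_length

variable {κ C}

theorem seg_getD' {k S b i : ℕ} {x : List Bool} (a : ℕ) (hi : a + i < k) :
    (seg k S b x).getD (a + i) false = x.getD (b * S + a + i) false := by
  rw [seg_getD x hi, Nat.add_assoc]

include hG in
/-- the outputs of the new circuit -/
theorem red_outBit {x : List Bool} (hx : x.length = NN κ C) {b t : ℕ}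
    (hb : b ≤ C.outs.length) (ht : t < LL C) :
    (red G κ C).outBit x (b * LL C + t) =
      (phi C (fun q => cur C.n x (q * (2 * C.n + 1))) (fun q => oth C.n x (q * (2 * C.n + 1)))
        b).testBit t := by
  unfold red
  rw [jux_outBit (fam hG κ C) hx (Nat.lt_succ_of_le hb) ht,
    (hG (C, b)).2.2.2 _ (length_seg _ _ _ _) t ht]
  unfold Fb phi
  dsimp only
  have e0 : cur C.n (seg (2 * (2 * C.n + 1)) (2 * C.n + 1) b x) 0 =
      cur C.n x (b * (2 * C.n + 1)) := cur_congr fun i hi => by
    rw [seg_getD' 0 (by omega), Nat.add_zero]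
  have e1 : oth C.n (seg (2 * (2 * C.n + 1)) (2 * C.n + 1) b x) 0 =
      oth C.n x (b * (2 * C.n + 1)) := oth_congr fun i hi => by
    rw [seg_getD' 0 (by omega), Nat.add_zero]
  have e2 : cur C.n (seg (2 * (2 * C.n + 1)) (2 * C.n + 1) b x) (2 * C.n + 1) =
      cur C.n x ((b + 1) * (2 * C.n + 1)) := cur_congr fun i hi => by
    rw [seg_getD' _ (by omega), Nat.add_one_mul b]
  have e3 : oth C.n (seg (2 * (2 * C.n + 1)) (2 * C.n + 1) b x) (2 * C.n + 1) =
      oth C.n x ((b + 1) * (2 * C.n + 1)) := oth_congr fun i hi => by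
    rw [seg_getD' _ (by omega), Nat.add_one_mul b]
  rw [e0, e1, e2, e3]

include hG in
/-- comparing costs -/
theorem red_lt {x y : List Bool} (hx : x.length = NN κ C) (hy : y.length = NN κ C)
    (h : Better C (fun q => cur C.n y (q * (2 * C.n + 1)))
      (fun q => oth C.n y (q * (2 * C.n + 1))) (fun q => cur C.n x (q * (2 * C.n + 1)))
      (fun q => oth C.n x (q * (2 * C.n + 1)))) :
    (red G κ C).cost y < (red G κ C).cost x := by
  classical
  obtain ⟨b0, hb0, h1, h2⟩ := h
  generalize hfx : phi C (fun q => cur C.n x (q * (2 * C.n + 1)))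
    (fun q => oth C.n x (q * (2 * C.n + 1))) = fx at h1 h2
  generalize hfy : phi C (fun q => cur C.n y (q * (2 * C.n + 1)))
    (fun q => oth C.n y (q * (2 * C.n + 1))) = fy at h1 h2
  have hP0 : fy b0 ≠ fx b0 := by omega
  set B := Nat.findGreatest (fun b => fy b ≠ fx b) C.outs.length with hB
  have hP : fy B ≠ fx B := Nat.findGreatest_spec (P := fun b => fy b ≠ fx b) hb0 hP0
  have hBm : B ≤ C.outs.length := Nat.findGreatest_le _
  have hB0 : b0 ≤ B := Nat.le_findGreatest hb0 hP0
  have hgt : ∀ b, B < b → b ≤ C.outs.length → fy b = fx b := by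
    intro b hb hbm
    by_contra hcon
    exact Nat.findGreatest_is_greatest (P := fun b => fy b ≠ fx b) hb hbm hcon
  have hlt : fy B < fx B := by
    rcases Nat.lt_or_eq_of_le hB0 with h3 | h3
    · have := h2 B h3 hBm
      omega
    · rw [← h3]
      exact h1
  have hfxlt : fx B < 2 ^ LL C := by
    rw [← hfx]
    exact gv_lt_two_pow _ _ _ _ _ _
  obtain ⟨t, ht, g1, g2, g3⟩ := exists_bit hlt hfxlt
  have hL : 0 < LL C := by omega
  rw [cost_lt_iff]
  have hlen : ∀ b t, b ≤ C.outs.length → t < LL C → b * LL C + t <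
      (red G κ C).outs.length := by
    intro b t hb ht
    rw [red_outs_length]
    have := Nat.mul_le_mul_right (LL C) (Nat.succ_le_succ hb)
    rw [Nat.succ_mul] at this
    change _ < (C.outs.length.succ) * LL C
    omega
  refine ⟨B * LL C + t, hlen B t hBm ht, ?_, ?_, fun q hq hpq => ?_⟩
  · rw [red_outBit hG hy hBm ht, hfy, g1]
  · rw [red_outBit hG hx hBm ht, hfx, g2]
  · rw [red_outs_length] at hq
    have hqb : q / LL C ≤ C.outs.length :=
      Nat.le_of_lt_succ ((Nat.div_lt_iff_lt_mul hL).2 hq)
    have hqm : q % LL C < LL C := Nat.mod_lt _ hL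
    have hdm : q / LL C * LL C + q % LL C = q := by
      rw [Nat.mul_comm]
      exact Nat.div_add_mod q _
    rw [← hdm, red_outBit hG hy hqb hqm, red_outBit hG hx hqb hqm, hfx, hfy]
    rcases Nat.lt_trichotomy (q / LL C) B with h4 | h4 | h4
    · exfalso
      have := Nat.mul_le_mul_right (LL C) (Nat.succ_le_of_lt h4)
      rw [Nat.succ_mul] at this
      omega
    · rw [h4] at hdm ⊢
      exact g3 _ (by omega)
    · rw [hgt _ h4 hqb]

include hG in
/-- local minima of the new circuit -/
theorem red_LM {x : List Bool} (h : (red G κ C).IsLocalMin x) :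
    LM C (fun q => cur C.n x (q * (2 * C.n + 1))) fun q => oth C.n x (q * (2 * C.n + 1)) := by
  obtain ⟨hx, hmin⟩ := h
  rw [red_n] at hx hmin
  have hpos : ∀ q ≤ C.outs.length + 1, q * (2 * C.n + 1) + (2 * C.n + 1) ≤ NN κ C := by
    intro q hq
    have h1 : (q + 1) * (2 * C.n + 1) ≤ (C.outs.length + 2) * (2 * C.n + 1) :=
      Nat.mul_le_mul_right _ (by omega)
    rw [Nat.add_one_mul] at h1
    unfold NN
    omega
  have hno : ∀ q ≤ C.outs.length + 1, ∀ r < 2 * C.n + 1,
      ¬ Better C (fun q' => cur C.n (flip x (q * (2 * C.n + 1) + r)) (q' * (2 * C.n + 1)))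
        (fun q' => oth C.n (flip x (q * (2 * C.n + 1) + r)) (q' * (2 * C.n + 1)))
        (fun q => cur C.n x (q * (2 * C.n + 1))) (fun q => oth C.n x (q * (2 * C.n + 1))) := by
    intro q hq r hr hb
    have h1 := hpos q hq
    have h2 := hmin (q * (2 * C.n + 1) + r) (by omega)
    have h3 := red_lt hG hx (by rw [length_flip, hx]) hb
    omega
  refine ⟨fun q _ => length_cur _ _ _, fun q _ => length_oth _ _ _, fun q hq => ?_,
    fun q hq i hi => ?_⟩
  · have h1 := hno q hq (2 * C.n) (by omega)
    have h2 := hpos q hq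
    obtain ⟨s1, s2⟩ := flip_sel (n := C.n) (x := x) (a := q * (2 * C.n + 1)) (by omega)
    have e1 : (fun q' => cur C.n (flip x (q * (2 * C.n + 1) + 2 * C.n)) (q' * (2 * C.n + 1))) =
        Function.update (fun q => cur C.n x (q * (2 * C.n + 1))) q
          (oth C.n x (q * (2 * C.n + 1))) := by
      funext q'
      by_cases hqq : q' = q
      · subst hqq
        rw [Function.update_self, s1]
      · rw [Function.update_of_ne hqq]
        exact (cur_flip_ne (by omega) hqq).1
    have e2 : (fun q' => oth C.n (flip x (q * (2 * C.n + 1) + 2 * C.n)) (q' * (2 * C.n + 1))) =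
        Function.update (fun q => oth C.n x (q * (2 * C.n + 1))) q
          (cur C.n x (q * (2 * C.n + 1))) := by
      funext q'
      by_cases hqq : q' = q
      · subst hqq
        rw [Function.update_self, s2]
      · rw [Function.update_of_ne hqq]
        exact (cur_flip_ne (by omega) hqq).2
    rw [e1, e2] at h1
    exact h1
  · have h2 := hpos q hq
    obtain ⟨r, hr, s1, s2⟩ := flip_oth (n := C.n) (x := x) (a := q * (2 * C.n + 1)) hi
      (by omega)
    have h1 := hno q hq r hr
    have e1 : (fun q' => cur C.n (flip x (q * (2 * C.n + 1) + r)) (q' * (2 * C.n + 1))) =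
        fun q => cur C.n x (q * (2 * C.n + 1)) := by
      funext q'
      by_cases hqq : q' = q
      · subst hqq
        exact s1
      · exact (cur_flip_ne hr hqq).1
    have e2 : (fun q' => oth C.n (flip x (q * (2 * C.n + 1) + r)) (q' * (2 * C.n + 1))) =
        Function.update (fun q => oth C.n x (q * (2 * C.n + 1))) q
          (flip (oth C.n x (q * (2 * C.n + 1))) i) := by
      funext q'
      by_cases hqq : q' = q
      · subst hqq
        rw [Function.update_self, s2]
      · rw [Function.update_of_ne hqq]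
        exact (cur_flip_ne hr hqq).2
    rw [e1, e2] at h1
    exact h1

include hG in
/-- local minima of the new circuit hold local minima of the given one -/
theorem red_min {x : List Bool} (h : (red G κ C).IsLocalMin x) :
    C.IsLocalMin (cur C.n x (2 * C.n + 1)) := by
  have h1 := (red_LM hG h).localMin
  simp only [Nat.one_mul] at h1
  exact h1

include hG in
/-- the outputs reached from an input lie in a small window -/
theorem red_window (κ : ℕ) (hκ : 0 < κ) (C : Circuit) :
    (red G κ C).SynWindow (Nat.log 2 (red G κ C).n / κ) := by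
  have hβ : 2 * LL C ≤ Nat.log 2 (NN κ C) / κ := by
    rw [Nat.le_div_iff_mul_le hκ]
    have h1 : 2 ^ (2 * LL C * κ) ≤ NN κ C := by
      have e : 2 * LL C * κ = LL C * (2 * κ) := by ring
      rw [e, pow_mul]
      exact (Nat.pow_le_pow_left (two_pow_LL C) _).trans (Nat.le_add_left _ _)
    exact Nat.le_log_of_pow_le (by norm_num) h1
  have hL : 0 < LL C := Nat.size_pos.2 (by omega)
  intro i _
  refine ⟨(i / (2 * C.n + 1) - 1) * LL C, fun j hj hr => ?_⟩
  obtain ⟨h1, h2⟩ := jux_reads_out (fam hG κ C) hj hr
  have hS : 0 < 2 * C.n + 1 := by omega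
  have h3 : j / LL C ≤ i / (2 * C.n + 1) := (Nat.le_div_iff_mul_le hS).2 h1
  have h4 : i / (2 * C.n + 1) < j / LL C + 2 := by
    rw [Nat.div_lt_iff_lt_mul hS, Nat.add_mul]
    exact h2
  have h6 : j / LL C * LL C ≤ j := Nat.div_mul_le_self _ _
  have h7 : j < (j / LL C + 1) * LL C := by
    rw [Nat.add_one_mul, Nat.mul_comm]
    have := Nat.div_add_mod j (LL C)
    have := Nat.mod_lt j hL
    omega
  rw [red_n]
  generalize i / (2 * C.n + 1) = I at h3 h4
  generalize j / LL C = J at h3 h4 h6 h7
  generalize Nat.log 2 (NN κ C) / κ = R at hβ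
  have h5 : (I - 1) * LL C ≤ J * LL C := Nat.mul_le_mul_right _ (by omega)
  have h8 : (J + 1) * LL C ≤ (I - 1 + 2) * LL C := Nat.mul_le_mul_right _ (by omega)
  rw [Nat.add_mul (I - 1)] at h8
  omega

end

end Pool.Agent.MPa0a715.BW
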