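import Pool.Agent.Lib.MP_a0a715_lc_BW.Defs
import Pool.Agent.Lib.MP_a0a715_lc_IN.EasyIN

/-!
# The layered instance: local minima

Level `q` holds a current solution `c q` and another solution `o q`. Block `b ≥ 1` compares the
levels `b` and `b + 1`: the current solutions must agree in the outputs from position `b` on. The
value of the block shows the output in position `b - 1` of the current solution of level `b`, and
level `b` may ask level `b + 1` to copy its other solution. Block `0` asks level `1` to copy the
next solution.
-/

namespace Pool.Agent.MPa0a715.BW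

open Pool.Agent.MPa0a715 Pool.Agent.PolyTime
open Pool.Agent.MPa0a715.IN (step step_cases length_step val_lt_cost cost_lt_iff)

/-- measures how late the first difference is -/
def mu (n : ℕ) (v w : List Bool) : ℕ :=
  (((List.range n).find? fun i => Bool.xor (v.getD i false) (w.getD i false)).map
    fun i => n - i).getD 0

theorem mu_le (n : ℕ) (v w : List Bool) : mu n v w ≤ n := by
  unfold mu
  cases (List.range n).find? fun i => Bool.xor (v.getD i false) (w.getD i false) with
  | none => exact Nat.zero_le _
  | some i => exact Nat.sub_le _ _

theorem xor_false_iff {a b : Bool} : Bool.xor a b = false ↔ a = b := by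
  cases a <;> cases b <;> simp

theorem mu_flip {n : ℕ} {v w : List Bool} (hv : v.length = n) (hw : w.length = n)
    (h : v ≠ w) : ∃ i < n, mu n (flip v i) w < mu n v w := by
  have hex : ∃ i, i < n ∧ v.getD i false ≠ w.getD i false := by
    by_contra hcon
    push Not at hcon
    exact h (ext_getD (by rw [hv, hw]) fun i hi => hcon i (by omega))
  cases hf : (List.range n).find? fun i => Bool.xor (v.getD i false) (w.getD i false) with
  | none =>
    exfalso
    obtain ⟨i, hi, hne⟩ := hex
    rw [List.find?_eq_none] at hf
    have := hf i (List.mem_range.2 hi)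
    rw [Bool.not_eq_true, xor_false_iff] at this
    exact hne this
  | some i =>
    rw [List.find?_range_eq_some] at hf
    obtain ⟨h1, h2, h3⟩ := hf
    rw [List.mem_range] at h2
    refine ⟨i, h2, ?_⟩
    have e1 : mu n v w = n - i := by
      unfold mu
      have : (List.range n).find? (fun i => Bool.xor (v.getD i false) (w.getD i false)) =
          some i := by
        rw [List.find?_range_eq_some]
        exact ⟨h1, List.mem_range.2 h2, h3⟩
      rw [this]
      rfl
    rw [e1]
    unfold mu
    cases hf' : (List.range n).find? fun j =>
        Bool.xor ((flip v i).getD j false) (w.getD j false) with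
    | none =>
      change 0 < n - i
      omega
    | some j =>
      rw [List.find?_range_eq_some] at hf'
      obtain ⟨g1, g2, g3⟩ := hf'
      rw [List.mem_range] at g2
      change n - j < n - i
      have hij : i < j := by
        by_contra hcon
        rw [getD_flip _ _ _ (by omega)] at g1
        by_cases hji : i = j
        · rw [if_pos hji] at g1
          rw [hji] at h1
          revert g1 h1
          cases v.getD j false <;> cases w.getD j false <;> simp
        · rw [if_neg hji] at g1
          have := h3 j (by omega)
          rw [Bool.not_eq_true'] at this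
          rw [this] at g1
          exact Bool.false_ne_true g1
      omega

/-- the outputs from position `b` on, as a number -/
def top (C : Circuit) (b : ℕ) (v : List Bool) : ℕ := val ((C.out v).drop b)

/-- the part of the value showing an output -/
def bt (C : Circuit) (b : ℕ) (c : List Bool) : ℕ :=
  if (C.out c).getD (b - 1) false = true then C.n + 2 else 0

/-- the value of block `b` -/
def gv (C : Circuit) (b : ℕ) (c o c' o' : List Bool) : ℕ :=
  if b = 0 then mu C.n o' (step C c')
  else (if top C b c = top C b c' then
      (if top C b o < top C b c' then mu C.n o' o else C.n + 1)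
    else 2 * (C.n + 2) + mu C.n o c') + bt C b c

theorem bt_le (C : Circuit) (b : ℕ) (c : List Bool) : bt C b c ≤ C.n + 2 := by
  unfold bt
  split_ifs <;> omega

theorem gv_lt (C : Circuit) (b : ℕ) (c o c' o' : List Bool) :
    gv C b c o c' o' < 4 * (C.n + 2) := by
  unfold gv
  have h1 := mu_le C.n o' (step C c')
  have h2 := mu_le C.n o' o
  have h3 := mu_le C.n o c'
  have h4 := bt_le C b c
  split_ifs <;> omega

section
variable {C : Circuit} {b : ℕ} {c o c' o' : List Bool}

theorem gv_zero : gv C 0 c o c' o' = mu C.n o' (step C c') := by
  unfold gv
  rw [if_pos rfl]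

theorem gv_mis (hb : 0 < b) (h : top C b c ≠ top C b c') :
    gv C b c o c' o' = 2 * (C.n + 2) + mu C.n o c' + bt C b c := by
  unfold gv
  rw [if_neg (Nat.pos_iff_ne_zero.1 hb), if_neg h]

theorem gv_req (hb : 0 < b) (h : top C b c = top C b c') (h' : top C b o < top C b c') :
    gv C b c o c' o' = mu C.n o' o + bt C b c := by
  unfold gv
  rw [if_neg (Nat.pos_iff_ne_zero.1 hb), if_pos h, if_pos h']

theorem gv_nor (hb : 0 < b) (h : top C b c = top C b c') (h' : ¬ top C b o < top C b c') :
    gv C b c o c' o' = C.n + 1 + bt C b c := by
  unfold gv
  rw [if_neg (Nat.pos_iff_ne_zero.1 hb), if_pos h, if_neg h']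

/-- a matched block has a small value -/
theorem gv_mat (hb : 0 < b) (h : top C b c = top C b c') :
    gv C b c o c' o' ≤ C.n + 1 + bt C b c := by
  by_cases h' : top C b o < top C b c'
  · rw [gv_req hb h h']
    have := mu_le C.n o' o
    omega
  · rw [gv_nor hb h h']

end

/-- the value of block `b` for given levels -/
def phi (C : Circuit) (c o : ℕ → List Bool) (b : ℕ) : ℕ :=
  gv C b (c b) (o b) (c (b + 1)) (o (b + 1))

/-- the second state is better -/
def Better (C : Circuit) (c' o' c o : ℕ → List Bool) : Prop :=
  ∃ b ≤ C.outs.length, phi C c' o' b < phi C c o b ∧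
    ∀ b', b < b' → b' ≤ C.outs.length → phi C c' o' b' ≤ phi C c o b'

/-- the properties of a local minimum -/
structure LM (C : Circuit) (c o : ℕ → List Bool) : Prop where
  lc : ∀ q ≤ C.outs.length + 1, (c q).length = C.n
  lo : ∀ q ≤ C.outs.length + 1, (o q).length = C.n
  swap : ∀ q ≤ C.outs.length + 1,
    ¬ Better C (Function.update c q (o q)) (Function.update o q (c q)) c o
  flip : ∀ q ≤ C.outs.length + 1, ∀ i < C.n,
    ¬ Better C c (Function.update o q (flip (o q) i)) c o

theorem top_succ {C : Circuit} {b : ℕ} (hb : b < C.outs.length) (v : List Bool) :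
    top C b v = ((C.out v).getD b false).toNat + 2 * top C (b + 1) v := by
  unfold top
  have hl : b < (C.out v).length := by
    unfold Circuit.out
    rw [List.length_map]
    exact hb
  rw [List.drop_eq_getElem_cons hl, val, List.getD_eq_getElem _ _ hl]

theorem top_length (C : Circuit) (v : List Bool) : top C C.outs.length v = 0 := by
  unfold top
  rw [List.drop_of_length_le (by unfold Circuit.out; rw [List.length_map])]
  rfl

section
variable {C : Circuit} {c o : ℕ → List Bool} (h : LM C c o)

include h in
theorem LM.matched {b : ℕ} (hb0 : 0 < b) (hb : b ≤ C.outs.length) :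
    top C b (c b) = top C b (c (b + 1)) := by
  by_contra hne
  by_cases hoc : o b = c (b + 1)
  · apply h.swap b (by omega)
    refine ⟨b, hb, ?_, fun b' hb' _ => ?_⟩
    · unfold phi
      rw [Function.update_self, Function.update_self, Function.update_of_ne (by omega),
        Function.update_of_ne (by omega), gv_mis hb0 hne]
      have h1 := gv_mat (C := C) (c := o b) (o := c b) (c' := c (b + 1)) (o' := o (b + 1)) hb0
        (by rw [hoc])
      have h2 := bt_le C b (o b)
      omega
    · unfold phi
      rw [Function.update_of_ne (by omega), Function.update_of_ne (by omega),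
        Function.update_of_ne (by omega), Function.update_of_ne (by omega)]
  · obtain ⟨i, hi, hmu⟩ := mu_flip (h.lo b (by omega)) (h.lc (b + 1) (by omega)) hoc
    apply h.flip b (by omega) i hi
    refine ⟨b, hb, ?_, fun b' hb' _ => ?_⟩
    · unfold phi
      rw [Function.update_self, Function.update_of_ne (by omega), gv_mis hb0 hne,
        gv_mis hb0 hne]
      omega
    · unfold phi
      rw [Function.update_of_ne (by omega), Function.update_of_ne (by omega)]

include h in
theorem LM.not_adopt {b : ℕ} (hb0 : 0 < b) (hb : b ≤ C.outs.length)
    (h1 : top C b (o b) = top C b (c (b + 1))) (h2 : (C.out (o b)).getD (b - 1) false = false)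
    (h3 : (C.out (c b)).getD (b - 1) false = true) : False := by
  apply h.swap b (by omega)
  have hm := h.matched hb0 hb
  refine ⟨b, hb, ?_, fun b' hb' _ => ?_⟩
  · unfold phi
    rw [Function.update_self, Function.update_self, Function.update_of_ne (by omega),
      Function.update_of_ne (by omega), gv_nor hb0 hm (by omega)]
    have h4 := gv_mat (C := C) (c := o b) (o := c b) (c' := c (b + 1)) (o' := o (b + 1)) hb0 h1
    have h5 : bt C b (o b) = 0 := by
      unfold bt
      rw [h2]
      rfl
    have h6 : bt C b (c b) = C.n + 2 := by
      unfold bt
      rw [if_pos h3]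
    omega
  · unfold phi
    rw [Function.update_of_ne (by omega), Function.update_of_ne (by omega),
      Function.update_of_ne (by omega), Function.update_of_ne (by omega)]

include h in
/-- without a request from level `b + 1` the other solution of this level is not better -/
theorem LM.not_lt {b : ℕ} (hb : b < C.outs.length)
    (hr : ¬ top C (b + 1) (o (b + 1)) < top C (b + 1) (c (b + 1 + 1))) :
    ¬ top C b (o (b + 1)) < top C b (c (b + 1)) := by
  intro hlt
  have hm := h.matched (b := b + 1) (by omega) (by omega)
  rw [top_succ hb, top_succ hb] at hlt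
  have e1 : (((C.out (o (b + 1))).getD b false)).toNat ≤ 1 := Bool.toNat_le _
  have e2 : (((C.out (c (b + 1))).getD b false)).toNat ≤ 1 := Bool.toNat_le _
  have e3 : top C (b + 1) (o (b + 1)) = top C (b + 1) (c (b + 1 + 1)) := by omega
  have e4 : ((C.out (o (b + 1))).getD b false).toNat <
      ((C.out (c (b + 1))).getD b false).toNat := by omega
  refine h.not_adopt (b := b + 1) (by omega) (by omega) e3 ?_ ?_
  · rw [Nat.add_sub_cancel]
    revert e4
    cases (C.out (o (b + 1))).getD b false <;> cases (C.out (c (b + 1))).getD b false <;> simp
  · rw [Nat.add_sub_cancel]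
    revert e4
    cases (C.out (o (b + 1))).getD b false <;> cases (C.out (c (b + 1))).getD b false <;> simp

include h in
/-- changing the other solution of level `b + 1` does not make block `b + 1` worse if it has no
request -/
theorem LM.le_succ {b : ℕ} (hb : b < C.outs.length)
    (hr : ¬ top C (b + 1) (o (b + 1)) < top C (b + 1) (c (b + 1 + 1))) (v : List Bool) :
    phi C c (Function.update o (b + 1) v) (b + 1) ≤ phi C c o (b + 1) := by
  have hm := h.matched (b := b + 1) (by omega) (by omega)
  unfold phi
  rw [gv_nor (o := o (b + 1)) (Nat.succ_pos b) hm hr]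
  exact gv_mat (Nat.succ_pos b) hm

include h in
theorem LM.no_request (d : ℕ) : ∀ b, b + d = C.outs.length → 0 < b →
    ¬ top C b (o b) < top C b (c (b + 1)) := by
  induction d with
  | zero =>
    intro b hb _
    have hb' : b = C.outs.length := by omega
    rw [hb', top_length, top_length]
    omega
  | succ d ih =>
    intro b hb hb0 hlt
    have hr := ih (b + 1) (by omega) (by omega)
    have hm := h.matched hb0 (by omega)
    by_cases hoo : o (b + 1) = o b
    · have h1 := h.not_lt (b := b) (by omega) hr
      rw [hoo] at h1
      exact h1 hlt
    · obtain ⟨i, hi, hmu⟩ := mu_flip (h.lo (b + 1) (by omega)) (h.lo b (by omega)) hoo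
      apply h.flip (b + 1) (by omega) i hi
      refine ⟨b, by omega, ?_, fun b' hb' hb'' => ?_⟩
      · unfold phi
        rw [Function.update_of_ne (show b ≠ b + 1 by omega), Function.update_self,
          gv_req hb0 hm hlt, gv_req hb0 hm hlt]
        omega
      · rcases Nat.lt_or_eq_of_le (Nat.succ_le_of_lt hb') with h2 | h2
        · unfold phi
          rw [Function.update_of_ne (by omega), Function.update_of_ne (by omega)]
        · rw [← h2]
          exact h.le_succ (by omega) hr _

include h in
/-- the current solution of level `1` is a local minimum -/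
theorem LM.localMin : C.IsLocalMin (c 1) := by
  have hl1 := h.lc 1 (by omega)
  rcases step_cases C (c 1) with ⟨_, h2⟩ | ⟨i, hi, h1, h2⟩
  · exact ⟨hl1, h2⟩
  exfalso
  rw [← h1, ← val_lt_cost] at h2
  have hm0 : 0 < C.outs.length := by
    rcases Nat.eq_zero_or_pos C.outs.length with h0 | h0
    · have e : ∀ v, C.out v = [] := by
        intro v
        unfold Circuit.out
        rw [List.length_eq_zero_iff.1 h0]
        rfl
      rw [e, e] at h2
      omega
    · exact h0
  have hr := h.no_request (C.outs.length - 1) 1 (by omega) (by omega)
  have hlv : (step C (c 1)).length = C.n := by rw [length_step, hl1]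
  by_cases hov : o 1 = step C (c 1)
  · have h3 := h.not_lt (b := 0) hm0 hr
    rw [Nat.zero_add, hov] at h3
    exact h3 h2
  · obtain ⟨j, hj, hmu⟩ := mu_flip (h.lo 1 (by omega)) hlv hov
    apply h.flip 1 (by omega) j hj
    refine ⟨0, by omega, ?_, fun b' hb' hb'' => ?_⟩
    · unfold phi
      rw [gv_zero, gv_zero, Nat.zero_add, Function.update_self]
      exact hmu
    · rcases Nat.lt_or_eq_of_le (Nat.succ_le_of_lt hb') with h4 | h4
      · unfold phi
        rw [Function.update_of_ne (by omega), Function.update_of_ne (by omega)]
      · have h5 : b' = 1 := by omega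
        rw [h5]
        exact h.le_succ (b := 0) hm0 hr _

end

end Pool.Agent.MPa0a715.BW
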